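import Pool.Agent.Helper447.D71.Defs

set_option autoImplicit false

namespace Pool.Agent.Helper447.D71



theorem alg3 {K : Type*} [Field K] [Algebra ℂ K] (hK : Algebra.trdeg ℂ K = 3) (x y z : K)
    (h : IsGen x y z) : AlgebraicIndependent ℂ ![x, y, z] := by
  have hr : Set.range ![x, y, z] = {x, y, z} := by
    ext t
    simp only [Set.mem_range, Set.mem_insert_iff, Set.mem_singleton_iff, Fin.exists_fin_succ]
    simp [eq_comm]
  have halg : Algebra.IsAlgebraic (Algebra.adjoin ℂ (Set.range ![x, y, z])) K := by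
    constructor
    intro k
    obtain ⟨f, hf, g, hg, hg0, hkg⟩ := h k
    rw [hr]
    have hf' : f ∈ Algebra.adjoin ℂ ({x, y, z} : Set K) := hf
    have hg' : g ∈ Algebra.adjoin ℂ ({x, y, z} : Set K) := hg
    refine ⟨Polynomial.C ⟨g, hg'⟩ * Polynomial.X - Polynomial.C ⟨f, hf'⟩, ?_, ?_⟩
    · intro h0
      have h1 := congrArg (fun p => Polynomial.coeff p 1) h0
      simp only [Polynomial.coeff_sub, Polynomial.coeff_C_mul, Polynomial.coeff_X_one, mul_one,
        Polynomial.coeff_C_succ, sub_zero, Polynomial.coeff_zero] at h1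
      exact hg0 (congrArg Subtype.val h1)
    · simp only [map_sub, map_mul, Polynomial.aeval_C, Polynomial.aeval_X]
      show g * k - f = 0
      rw [← hkg]; ring
  exact (Algebra.IsAlgebraic.isTranscendenceBasis_of_lift_le_trdeg_of_finite ℂ ![x, y, z] (by
    rw [hK]; simp)).1

end Pool.Agent.Helper447.D71
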