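import Pool.Agent.Helper447.D71.Defs

set_option autoImplicit false

namespace Pool.Agent.Helper447.D71



theorem InM_add_aux {K : Type*} [Field K] {O : Subring K} (h : Loc O) {x y : K}
    (hx : InM O x) (hy : InM O y) : InM O (x + y) := by
  refine ⟨add_mem hx.1 hy.1, ?_⟩
  by_contra hcon
  push Not at hcon
  obtain ⟨h0, hi⟩ := hcon
  by_cases hx0 : x = 0
  · subst hx0
    rw [zero_add] at h0 hi
    rcases hy.2 with h1 | h1
    · exact h0 h1
    · exact h1 hi
  by_cases hy0 : y = 0
  · subst hy0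
    rw [add_zero] at h0 hi
    rcases hx.2 with h1 | h1
    · exact h0 h1
    · exact h1 hi
  have hxi : x⁻¹ ∉ O := hx.2.resolve_left hx0
  have hyi : y⁻¹ ∉ O := hy.2.resolve_left hy0
  rcases h (x * (x + y)⁻¹) (mul_mem hx.1 hi) with h1 | h1
  · apply hxi
    have e : x⁻¹ = (x * (x + y)⁻¹)⁻¹ * (x + y)⁻¹ := by
      field_simp
    rw [e]
    exact mul_mem h1 hi
  · apply hyi
    have e2 : (1 : K) - x * (x + y)⁻¹ = y * (x + y)⁻¹ := by
      field_simp
      ring
    rw [e2] at h1
    have e : y⁻¹ = (y * (x + y)⁻¹)⁻¹ * (x + y)⁻¹ := by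
      field_simp
    rw [e]
    exact mul_mem h1 hi

theorem InM_smul_aux {K : Type*} [Field K] {O : Subring K} {r x : K}
    (hr : r ∈ O) (hx : InM O x) : InM O (r * x) := by
  refine ⟨mul_mem hr hx.1, ?_⟩
  by_contra hcon
  push Not at hcon
  obtain ⟨h0, hi⟩ := hcon
  have hx0 : x ≠ 0 := right_ne_zero_of_mul h0
  have hr0 : r ≠ 0 := left_ne_zero_of_mul h0
  rcases hx.2 with h1 | h1
  · exact hx0 h1
  · apply h1
    have e : x⁻¹ = r * (r * x)⁻¹ := by
      field_simp
    rw [e]
    exact mul_mem hr hi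

theorem locprime {K : Type*} [Field K] (A O : Subring K) (h : IsLocAt A O) :
    ∃ (P : Ideal A) (_ : P.IsPrime), (LocalSubring.ofPrime A P).toSubring = O ∧
      (∀ x : A, x ∈ P ↔ InM O x) := by
  obtain ⟨hAO, hloc, hfr⟩ := h
  let P : Ideal A :=
    { carrier := {x : A | InM O x}
      add_mem' := fun {x y} hx hy => InM_add_aux hloc hx hy
      zero_mem' := ⟨by simp, Or.inl rfl⟩
      smul_mem' := fun r x hx => InM_smul_aux (hAO r.2) hx }
  have hP : ∀ x : A, x ∈ P ↔ InM O x := fun x => Iff.rfl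
  have hnP : ∀ x : A, x ∉ P → (x : K) ≠ 0 ∧ (x : K)⁻¹ ∈ O := by
    intro x hx
    rw [hP] at hx
    constructor
    · intro h0
      exact hx ⟨hAO x.2, Or.inl h0⟩
    · by_contra hi
      exact hx ⟨hAO x.2, Or.inr hi⟩
  have hprime : P.IsPrime := by
    refine ⟨?_, ?_⟩
    · intro htop
      have h1 : (1 : A) ∈ P := by rw [htop]; exact Submodule.mem_top
      rw [hP] at h1
      rcases h1.2 with h2 | h2
      · simp at h2
      · apply h2
        simp
    · intro x y hxy
      by_contra hcon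
      push Not at hcon
      obtain ⟨hx, hy⟩ := hcon
      obtain ⟨hx0, hxi⟩ := hnP x hx
      obtain ⟨hy0, hyi⟩ := hnP y hy
      rw [hP] at hxy
      rcases hxy.2 with h2 | h2
      · rw [Subring.coe_mul] at h2
        exact (mul_ne_zero hx0 hy0) h2
      · apply h2
        rw [Subring.coe_mul, mul_inv]
        exact mul_mem hxi hyi
  refine ⟨P, hprime, ?_, hP⟩
  apply le_antisymm
  · intro z hz
    obtain ⟨x, s, hs⟩ := IsLocalization.exists_mk'_eq P.primeCompl
      (⟨z, hz⟩ : (LocalSubring.ofPrime A P).toSubring)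
    have h1 := IsLocalization.mk'_spec (LocalSubring.ofPrime A P).toSubring x s
    rw [hs] at h1
    have h2 : z * ((s : A) : K) = (x : K) := congrArg Subtype.val h1
    obtain ⟨hs0, hsi⟩ := hnP s s.2
    have e : z = (x : K) * ((s : A) : K)⁻¹ := by
      rw [← h2, mul_assoc, mul_inv_cancel₀ hs0, mul_one]
    rw [e]
    exact mul_mem (hAO x.2) hsi
  · intro z hz
    obtain ⟨x, hx, s, hs, hs0, hsi, hzs⟩ := hfr z hz
    have hsP : (⟨s, hs⟩ : A) ∈ P.primeCompl := by
      intro hmem
      have hmem' : InM O s := (hP ⟨s, hs⟩).1 hmem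
      rcases hmem'.2 with h2 | h2
      · exact hs0 h2
      · exact h2 hsi
    have hu := IsLocalization.map_units (LocalSubring.ofPrime A P).toSubring
      (⟨⟨s, hs⟩, hsP⟩ : P.primeCompl)
    obtain ⟨u, hu⟩ := hu
    have h3 : ((u : (LocalSubring.ofPrime A P).toSubring) : K) = s := congrArg Subtype.val hu
    have h4 : ((u : (LocalSubring.ofPrime A P).toSubring) : K) *
        (((u⁻¹ : ((LocalSubring.ofPrime A P).toSubring)ˣ) :
          (LocalSubring.ofPrime A P).toSubring) : K) = 1 := by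
      exact congrArg Subtype.val (u.mul_inv)
    rw [h3] at h4
    have e : z = x * (((u⁻¹ : ((LocalSubring.ofPrime A P).toSubring)ˣ) :
          (LocalSubring.ofPrime A P).toSubring) : K) := by
      rw [← hzs, mul_assoc, h4, mul_one]
    rw [e]
    exact mul_mem (LocalSubring.le_ofPrime A P hx) (SetLike.coe_mem _)

end Pool.Agent.Helper447.D71
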