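import Pool.Agent.Helper447.D71.Defs
import Pool.Agent.Helper447.D71.P_locprime

set_option autoImplicit false

namespace Pool.Agent.Helper447.D71



theorem dvr_height {A : Type*} [CommRing A] [IsDomain A] [IsNoetherianRing A] (P P' Q : Ideal A)
    [P.IsPrime] [P'.IsPrime] [Q.IsPrime] (p q : A) (hP : P = Ideal.span {p, q}) (h1 : P' < P)
    (h2 : Q < P') (h3 : Q ≠ ⊥) : False := by
  have hle : P.height ≤ 2 := by
    have hm : P ∈ (Ideal.span ({p, q} : Set A)).minimalPrimes := by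
      rw [← hP, Ideal.minimalPrimes_eq_subsingleton_self]; rfl
    have h := Ideal.height_le_card_of_mem_minimalPrimes_span (s := ({p, q} : Set A))
      (Set.toFinite _) hm
    refine h.trans ?_
    have : ({p, q} : Set A).ncard ≤ 2 := (Set.ncard_insert_le _ _).trans (by simp)
    exact_mod_cast this
  haveI : (⊥ : Ideal A).IsPrime := Ideal.isPrime_bot
  have a1 := Ideal.height_add_one_le_of_lt_of_isPrime (I := ⊥) (J := Q) (bot_lt_iff_ne_bot.2 h3)
  have a2 := Ideal.height_add_one_le_of_lt_of_isPrime h2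
  have a3 := Ideal.height_add_one_le_of_lt_of_isPrime h1
  have a4 : (0 : ℕ∞) + 1 + 1 + 1 ≤ 2 :=
    calc (0 : ℕ∞) + 1 + 1 + 1 ≤ (⊥ : Ideal A).height + 1 + 1 + 1 := by gcongr; exact bot_le
      _ ≤ Q.height + 1 + 1 := by gcongr
      _ ≤ P'.height + 1 := by gcongr
      _ ≤ P.height := a3
      _ ≤ 2 := hle
  revert a4
  decide

theorem dvr {K : Type*} [Field K] (A : Subring K) [IsNoetherianRing A] [UniqueFactorizationMonoid A]
    (hfrac : ∀ z : K, ∃ x ∈ A, ∃ s ∈ A, s ≠ 0 ∧ z * s = x) (O O' : Subring K)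
    (hO : IsLocAt A O) (p q : K) (hp : InM O p) (hq : InM O q) (hpA : p ∈ A) (hqA : q ∈ A)
    (hpq : ∀ z ∈ A, InM O z → ∃ f ∈ A, ∃ g ∈ A, z = f * p + g * q)
    (hO' : IsLocAt A O') (hle : O ≤ O') (hne : O' ≠ O) (htop : O' ≠ ⊤) :
    ∃ V : ValuationSubring K, V.toSubring = O' ∧
      ∀ x ∈ V, x⁻¹ ∉ V → ∀ z : K, ∃ n : ℕ, x ^ n * z ∈ V := by
  obtain ⟨P, hP, -, hPm⟩ := locprime A O hO
  obtain ⟨P', hP', -, hPm'⟩ := locprime A O' hO'
  have hAO : A ≤ O := hO.1
  have hAO' : A ≤ O' := hO'.1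
  have unit : ∀ x : A, x ∉ P → (x : K) ≠ 0 ∧ (x : K)⁻¹ ∈ O := by
    intro x hx
    rw [hPm] at hx
    unfold InM at hx
    push Not at hx
    exact hx (hAO x.2)
  have unit' : ∀ x : A, x ∉ P' → (x : K) ≠ 0 ∧ (x : K)⁻¹ ∈ O' := by
    intro x hx
    rw [hPm'] at hx
    unfold InM at hx
    push Not at hx
    exact hx (hAO' x.2)
  have hPP : P' ≤ P := by
    intro x hx
    rw [hPm'] at hx
    rw [hPm]
    refine ⟨hAO x.2, ?_⟩
    rcases hx.2 with h | h
    · exact Or.inl h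
    · exact Or.inr (fun h' => h (hle h'))
  have hPne : P' ≠ P := by
    intro h
    apply hne
    apply le_antisymm _ hle
    intro z hz
    obtain ⟨x, hx, s, hs, hs0, hsi, hzs⟩ := hO'.2.2 z hz
    have hsP : (⟨s, hs⟩ : A) ∉ P' := by
      rw [hPm']
      rintro ⟨-, h1 | h1⟩
      · exact hs0 h1
      · exact h1 hsi
    rw [h] at hsP
    have e : z = x * s⁻¹ := by rw [← hzs, mul_assoc, mul_inv_cancel₀ hs0, mul_one]
    rw [e]
    exact O.mul_mem (hAO hx) (unit _ hsP).2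
  have hlt : P' < P := lt_of_le_of_ne hPP hPne
  have hbot : P' ≠ ⊥ := by
    intro h
    apply htop
    rw [eq_top_iff]
    intro z _
    obtain ⟨x, hx, s, hs, hs0, hzs⟩ := hfrac z
    have hsP : (⟨s, hs⟩ : A) ∉ P' := by
      rw [h, Ideal.mem_bot]
      intro h'
      exact hs0 (congrArg Subtype.val h')
    have e : z = x * s⁻¹ := by rw [← hzs, mul_assoc, mul_inv_cancel₀ hs0, mul_one]
    rw [e]
    exact O'.mul_mem (hAO' hx) (unit' _ hsP).2
  obtain ⟨π, hπ, hπp⟩ := Ideal.IsPrime.exists_mem_prime_of_ne_bot hP' hbot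
  haveI : (Ideal.span {π} : Ideal A).IsPrime := (Ideal.span_singleton_prime hπp.ne_zero).2 hπp
  have hPspan : P = Ideal.span {(⟨p, hpA⟩ : A), ⟨q, hqA⟩} := by
    apply le_antisymm
    · intro z hz
      rw [hPm] at hz
      obtain ⟨f, hf, g, hg, h⟩ := hpq z z.2 hz
      rw [Ideal.mem_span_pair]
      exact ⟨⟨f, hf⟩, ⟨g, hg⟩, Subtype.ext (by simpa using h.symm)⟩
    · rw [Ideal.span_le]
      rintro z (rfl | rfl)
      · exact (hPm _).2 hp
      · exact (hPm _).2 hq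
  have hspan : P' = Ideal.span {π} := by
    by_contra hcon
    have h1 : Ideal.span {π} < P' := by
      refine lt_of_le_of_ne ?_ (fun h => hcon h.symm)
      rw [Ideal.span_singleton_le_iff_mem]; exact hπ
    refine dvr_height P P' (Ideal.span {π}) _ _ hPspan hlt h1 ?_
    rw [Ne, Ideal.span_singleton_eq_bot]
    exact hπp.ne_zero
  have hπ0 : (π : K) ≠ 0 := fun h => hπp.ne_zero (Subtype.ext h)
  have hfac : ∀ z : K, z ≠ 0 → ∃ (k : ℤ) (u : K), u ∈ O' ∧ u⁻¹ ∈ O' ∧ u ≠ 0 ∧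
      z = (π : K) ^ k * u := by
    intro z hz
    obtain ⟨x, hx, s, hs, hs0, hzs⟩ := hfrac z
    have hx0 : x ≠ 0 := by rw [← hzs]; exact mul_ne_zero hz hs0
    obtain ⟨n, a, ha, hna⟩ := WfDvdMonoid.max_power_factor (a₀ := (⟨x, hx⟩ : A)) (x := π)
      (fun h => hx0 (congrArg Subtype.val h)) hπp.irreducible
    obtain ⟨m, b, hb, hmb⟩ := WfDvdMonoid.max_power_factor (a₀ := (⟨s, hs⟩ : A)) (x := π)
      (fun h => hs0 (congrArg Subtype.val h)) hπp.irreducible
    have hna' : x = (π : K) ^ n * a := by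
      have := congrArg Subtype.val hna
      simpa using this
    have hmb' : s = (π : K) ^ m * b := by
      have := congrArg Subtype.val hmb
      simpa using this
    have haP : a ∉ P' := by rw [hspan, Ideal.mem_span_singleton]; exact ha
    have hbP : b ∉ P' := by rw [hspan, Ideal.mem_span_singleton]; exact hb
    obtain ⟨ha0, hai⟩ := unit' a haP
    obtain ⟨hb0, hbi⟩ := unit' b hbP
    refine ⟨(n : ℤ) - m, (a : K) * (b : K)⁻¹, O'.mul_mem (hAO' a.2) hbi, ?_, ?_, ?_⟩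
    · rw [mul_inv, inv_inv]
      exact O'.mul_mem hai (hAO' b.2)
    · exact mul_ne_zero ha0 (inv_ne_zero hb0)
    · rw [zpow_sub₀ hπ0, zpow_natCast, zpow_natCast]
      have : z = x / s := by rw [eq_div_iff hs0, hzs]
      rw [this, hna', hmb']
      field_simp
  have hπO : (π : K) ∈ O' := hAO' π.2
  have hπz : ∀ k : ℤ, 0 ≤ k → (π : K) ^ k ∈ O' := by
    intro k hk
    obtain ⟨n, rfl⟩ := Int.eq_ofNat_of_zero_le hk
    rw [zpow_natCast]
    exact O'.pow_mem hπO n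
  have hval : ∀ z : K, z ∈ O' ∨ z⁻¹ ∈ O' := by
    intro z
    by_cases hz : z = 0
    · left; rw [hz]; exact O'.zero_mem
    obtain ⟨k, u, hu, hui, hu0, hk⟩ := hfac z hz
    rcases le_total 0 k with h | h
    · left; rw [hk]; exact O'.mul_mem (hπz k h) hu
    · right; rw [hk, mul_inv, ← zpow_neg]
      exact O'.mul_mem (hπz (-k) (by omega)) hui
  refine ⟨{ O' with mem_or_inv_mem' := hval }, rfl, ?_⟩
  intro x hx hxi z
  change x ∈ O' at hx
  change x⁻¹ ∉ O' at hxi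
  have hx0 : x ≠ 0 := by
    intro h; apply hxi; rw [h, inv_zero]; exact O'.zero_mem
  by_cases hz : z = 0
  · refine ⟨0, ?_⟩
    change x ^ 0 * z ∈ O'
    rw [hz, mul_zero]; exact O'.zero_mem
  obtain ⟨k, u, hu, hui, hu0, hk⟩ := hfac x hx0
  obtain ⟨l, w, hw, hwi, hw0, hl⟩ := hfac z hz
  have hkpos : 0 < k := by
    by_contra hcon
    apply hxi
    rw [hk, mul_inv, ← zpow_neg]
    exact O'.mul_mem (hπz (-k) (by omega)) hui
  refine ⟨(-l).toNat, ?_⟩
  change x ^ (-l).toNat * z ∈ O'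
  have e : x ^ (-l).toNat * z = (π : K) ^ (k * ((-l).toNat : ℤ) + l) * (u ^ (-l).toNat * w) := by
    rw [hk, hl, mul_pow, zpow_add₀ hπ0, zpow_mul, zpow_natCast]
    ring
  rw [e]
  refine O'.mul_mem (hπz _ ?_) (O'.mul_mem (O'.pow_mem hu _) hw)
  have h1 : -l ≤ ((-l).toNat : ℤ) := Int.self_le_toNat _
  have h2 : 0 ≤ ((-l).toNat : ℤ) := Int.natCast_nonneg _
  nlinarith

end Pool.Agent.Helper447.D71
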