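import Pool.Agent.Helper447.D71.Defs

set_option autoImplicit false

namespace Pool.Agent.Helper447.D71



theorem ellpt : ∃ x y : AlgebraicClosure (RatFunc ℂ), fc x y = 0 ∧ Transcendental ℂ y := by
  obtain ⟨x, hx⟩ := IsAlgClosed.exists_eq_mul_self
    ((4 * (algebraMap (RatFunc ℂ) (AlgebraicClosure (RatFunc ℂ)) RatFunc.X) ^ 3 - 1) / 3)
  refine ⟨x, algebraMap (RatFunc ℂ) (AlgebraicClosure (RatFunc ℂ)) RatFunc.X, ?_, ?_⟩
  · unfold fc
    have h3 : (3 : AlgebraicClosure (RatFunc ℂ)) ≠ 0 := by norm_num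
    rw [div_eq_iff h3] at hx
    linear_combination -hx
  · rw [transcendental_algebraMap_iff (algebraMap (RatFunc ℂ) (AlgebraicClosure (RatFunc ℂ))).injective]
    exact RatFunc.transcendental_X

end Pool.Agent.Helper447.D71
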