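import Pool.Agent.Helper447.D71.Defs

set_option autoImplicit false

namespace Pool.Agent.Helper447.D71



theorem phiB {K : Type*} [Field K] [Algebra ℂ K] (a b v : K)
    (hind : AlgebraicIndependent ℂ ![v⁻¹, a, b]) {F : Type*} [Field F] [Algebra ℂ F] (x y : F) :
    ∃ φ : PR v⁻¹ a b →+* F, (∀ (c : ℂ) (h : algebraMap ℂ K c ∈ PR v⁻¹ a b), φ ⟨_, h⟩ = algebraMap ℂ F c) ∧
      (∀ h : v⁻¹ ∈ PR v⁻¹ a b, φ ⟨_, h⟩ = 0) ∧ (∀ h : a ∈ PR v⁻¹ a b, φ ⟨_, h⟩ = x) ∧
      (∀ h : b ∈ PR v⁻¹ a b, φ ⟨_, h⟩ = y) := by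
  classical
  let A := Algebra.adjoin ℂ (Set.range ![v⁻¹, a, b])
  have hle : PR v⁻¹ a b ≤ A.toSubring := by
    have h1 : ({v⁻¹, a, b} : Set K) ⊆ Set.range ![v⁻¹, a, b] := by
      intro z hz
      simp only [Set.mem_insert_iff, Set.mem_singleton_iff] at hz
      rcases hz with rfl | rfl | rfl
      · exact ⟨0, rfl⟩
      · exact ⟨1, rfl⟩
      · exact ⟨2, rfl⟩
    intro z hz
    exact Algebra.adjoin_mono h1 hz
  let ι : PR v⁻¹ a b →+* A :=
    { toFun := fun z => ⟨z, hle z.2⟩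
      map_one' := rfl
      map_mul' := fun _ _ => rfl
      map_zero' := rfl
      map_add' := fun _ _ => rfl }
  let g : A →ₐ[ℂ] F := (MvPolynomial.aeval ![0, x, y]).comp hind.aevalEquiv.symm.toAlgHom
  have hX : ∀ (j : Fin 3) (h : ![v⁻¹, a, b] j ∈ A), g ⟨_, h⟩ = ![0, x, y] j := by
    intro j h
    have e : hind.aevalEquiv (MvPolynomial.X j) = ⟨_, h⟩ := by
      apply Subtype.ext
      have := hind.algebraMap_aevalEquiv (MvPolynomial.X j)
      rw [MvPolynomial.aeval_X] at this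
      exact this
    have e2 : hind.aevalEquiv.symm ⟨_, h⟩ = MvPolynomial.X j := by
      rw [← e]; simp
    show MvPolynomial.aeval ![0, x, y] (hind.aevalEquiv.symm ⟨_, h⟩) = _
    rw [e2, MvPolynomial.aeval_X]
  refine ⟨g.toRingHom.comp ι, ?_, ?_, ?_, ?_⟩
  · intro c h
    exact g.commutes c
  · intro h
    exact hX 0 (hle h)
  · intro h
    exact hX 1 (hle h)
  · intro h
    exact hX 2 (hle h)

end Pool.Agent.Helper447.D71
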