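import Pool.Agent.Helper447.D71.Defs
import Pool.Agent.Helper447.D71.P_lochom
import Pool.Agent.Helper447.D71.P_ellpt
import Pool.Agent.Helper447.D71.P_phiB

set_option autoImplicit false

namespace Pool.Agent.Helper447.D71



theorem etaB {K : Type*} [Field K] [Algebra ℂ K] (a b v : K)
    (hind : AlgebraicIndependent ℂ ![v⁻¹, a, b]) :
    ∃ (O : Subring K) (ψ : O →+* AlgebraicClosure (RatFunc ℂ)), EtaB a b v O ψ := by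
  obtain ⟨x, y, hxy, hy⟩ := ellpt
  obtain ⟨φ, hc, hv, ha, hb⟩ := phiB a b v hind x y
  obtain ⟨O, ψ, hloc, _, hext, hinM⟩ := lochom (PR v⁻¹ a b) φ
  have hAO : PR v⁻¹ a b ≤ O := hloc.1
  have mc : ∀ c : ℂ, algebraMap ℂ K c ∈ PR v⁻¹ a b := fun c =>
    (Algebra.adjoin ℂ ({v⁻¹, a, b} : Set K)).algebraMap_mem c
  have mv : v⁻¹ ∈ PR v⁻¹ a b := Algebra.subset_adjoin (Or.inl rfl)
  have ma : a ∈ PR v⁻¹ a b := Algebra.subset_adjoin (Or.inr (Or.inl rfl))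
  have mb : b ∈ PR v⁻¹ a b := Algebra.subset_adjoin (Or.inr (Or.inr rfl))
  refine ⟨O, ψ, hloc, hinM, fun c => ⟨hAO (mc c), ?_⟩, ⟨hAO mv, ?_⟩, ⟨hAO ma, hAO mb, ?_, ?_⟩⟩
  · rw [hext ⟨_, mc c⟩ (hAO (mc c)), hc]
  · rw [hext ⟨_, mv⟩ (hAO mv), hv]
  · rw [hext ⟨_, ma⟩ (hAO ma), hext ⟨_, mb⟩ (hAO mb), ha, hb]
    exact hxy
  · rw [hext ⟨_, mb⟩ (hAO mb), hb]
    exact hy

end Pool.Agent.Helper447.D71
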