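import Pool.Agent.Helper447.D71.Defs

set_option autoImplicit false

namespace Pool.Agent.Helper447.D71



theorem etaBw {K : Type*} [Field K] [Algebra ℂ K] (a b v : K) (hw3 : fw3 a b v ≠ 0) (hv : v ≠ 0)
    (O : Subring K) {F : Type*} [Field F] [Algebra ℂ F] (ψ : O →+* F) (h : EtaB a b v O ψ) :
    (∃ h : (fw3 a b v)⁻¹ ∈ O, ψ ⟨_, h⟩ = 0) ∧ (∃ h : fw0 a b v / fw3 a b v ∈ O, ψ ⟨_, h⟩ = 0) ∧
    (∃ h : v / fw3 a b v ∈ O, ψ ⟨_, h⟩ = 1) ∧ (∃ h : fw1 a b v / fw3 a b v ∈ O, ψ ⟨_, h⟩ = 0) ∧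
    (∃ (h : a⁻¹ ∈ O) (h' : a ∈ O), ψ ⟨_, h⟩ = (ψ ⟨_, h'⟩)⁻¹) := by
  obtain ⟨hvO, hv0⟩ := h.hv
  obtain ⟨haO, hbO, hfc, htr⟩ := h.hab
  have fin : ∀ (Z : O) (k : K) (f : F), (Z : K) = k → ψ Z = f →
      ∃ h : k ∈ O, ψ ⟨k, h⟩ = f := by
    rintro Z _ _ rfl rfl
    exact ⟨Z.2, rfl⟩
  have hinv : ∀ z : O, ψ z ≠ 0 → ∃ Z : O, (Z : K) = (z : K)⁻¹ ∧ ψ Z = (ψ z)⁻¹ := by
    intro z hz
    have h1 : ¬ InM O (z : K) := fun hh => hz ((h.inM z).1 hh)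
    have h2 : (z : K) ≠ 0 ∧ (z : K)⁻¹ ∈ O := by
      constructor
      · intro h0
        exact h1 ⟨z.2, Or.inl h0⟩
      · by_contra h0
        exact h1 ⟨z.2, Or.inr h0⟩
    refine ⟨⟨_, h2.2⟩, rfl, ?_⟩
    have h3 : z * ⟨_, h2.2⟩ = 1 := Subtype.ext (mul_inv_cancel₀ h2.1)
    have h4 := congrArg ψ h3
    rw [map_mul, map_one] at h4
    exact eq_inv_of_mul_eq_one_right h4
  set A : O := ⟨a, haO⟩ with hA
  set B : O := ⟨b, hbO⟩ with hB
  set W : O := ⟨v⁻¹, hvO⟩ with hW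
  have hAc : (A : K) = a := rfl
  have hBc : (B : K) = b := rfl
  have hWc : (W : K) = v⁻¹ := rfl
  -- x = v⁻¹ w₁
  set X : O := A * fq0 A B * W - fc A B with hX
  have hXc : (X : K) = v⁻¹ * fw1 a b v := by
    have e1 : (X : K) = a * (b ^ 2 * (4 * a + 1)) * v⁻¹ - (3 * a ^ 2 - 4 * b ^ 3 + 1) := by
      rw [hX]
      unfold fq0 fc
      have h4 : ((4 : O) : K) = 4 := map_ofNat O.subtype 4
      have h3 : ((3 : O) : K) = 3 := map_ofNat O.subtype 3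
      push_cast
      rw [hAc, hBc, hWc, h3, h4]
    rw [e1]
    unfold fw1 fq0 fc
    field_simp
  have hXψ : ψ X = 0 := by
    have e1 : ψ (fc A B) = fc (ψ A) (ψ B) := by
      unfold fc
      simp only [map_add, map_sub, map_mul, map_pow, map_one, map_ofNat]
    rw [hX, map_sub, map_mul, hv0, mul_zero, e1, hfc, sub_zero]
  set Y : O := 1 - A * X with hY
  have hYc : (Y : K) = v⁻¹ * fw3 a b v := by
    have e1 : (Y : K) = 1 - a * (v⁻¹ * fw1 a b v) := by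
      rw [hY]
      push_cast
      rw [hXc]
    rw [e1]
    unfold fw3
    field_simp
  have hYψ : ψ Y = 1 := by
    rw [hY, map_sub, map_mul, hXψ, mul_zero, map_one, sub_zero]
  obtain ⟨Z, hZc, hZψ⟩ := hinv Y (by rw [hYψ]; exact one_ne_zero)
  rw [hYψ, inv_one] at hZψ
  have hZc' : (Z : K) = v / fw3 a b v := by
    rw [hZc, hYc, mul_inv, inv_inv, div_eq_mul_inv]
  have hna : ψ A ≠ 0 := by
    intro h0
    apply htr
    rw [h0] at hfc
    unfold fc at hfc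
    refine ⟨Polynomial.C (-4) * Polynomial.X ^ 3 + Polynomial.C 1, ?_, ?_⟩
    · intro hp
      have := congrArg (fun P => Polynomial.coeff P 0) hp
      simp at this
    · rw [map_add, map_mul, map_pow, Polynomial.aeval_X, Polynomial.aeval_C, Polynomial.aeval_C,
        map_one, map_neg, map_ofNat]
      linear_combination hfc
  obtain ⟨Ai, hAic, hAiψ⟩ := hinv A hna
  refine ⟨fin (W * Z) _ _ ?_ ?_, fin ((-B * X - A * W) * Z) _ _ ?_ ?_, fin Z _ _ hZc' hZψ,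
    fin (X * Z) _ _ ?_ ?_, ?_⟩
  · push_cast
    rw [hZc', hWc]
    field_simp
  · rw [map_mul, hv0, zero_mul]
  · push_cast
    rw [hZc', hXc, hWc, hAc, hBc]
    unfold fw0
    field_simp
  · rw [map_mul, map_sub, map_mul, map_mul, hXψ, hv0]
    ring
  · push_cast
    rw [hZc', hXc]
    field_simp
  · rw [map_mul, hXψ, zero_mul]
  · obtain ⟨h1, h2⟩ := fin Ai a⁻¹ _ (by rw [hAic]) hAiψ
    exact ⟨h1, haO, h2⟩

end Pool.Agent.Helper447.D71
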