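import Pool.Agent.Helper447.D71.Defs

set_option autoImplicit false

namespace Pool.Agent.Helper447.D71



theorem aeval_PR {K : Type*} [Field K] [Algebra ℂ K] (u a b : K) (r : Polynomial ℂ) :
    Polynomial.aeval b r ∈ PR u a b := by
  have h1 : Polynomial.aeval b r ∈ Algebra.adjoin ℂ ({b} : Set K) :=
    Polynomial.aeval_mem_adjoin_singleton ℂ b
  exact Algebra.adjoin_mono (by simp) h1

theorem decompB {K : Type*} [Field K] [Algebra ℂ K] (u a b z : K) (hz : z ∈ PR u a b) :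
    ∃ f ∈ PR u a b, ∃ g ∈ PR u a b, ∃ r0 r1 : Polynomial ℂ,
      z = f * u + g * fc a b + Polynomial.aeval b r0 + Polynomial.aeval b r1 * a := by
  have hu : u ∈ PR u a b := Algebra.subset_adjoin (by simp)
  have ha : a ∈ PR u a b := Algebra.subset_adjoin (by simp)
  have hb : b ∈ PR u a b := Algebra.subset_adjoin (by simp)
  have hfc : fc a b ∈ PR u a b := by
    unfold fc
    have h3 : (3 : K) ∈ PR u a b := by exact_mod_cast natCast_mem (PR u a b) 3
    have h4 : (4 : K) ∈ PR u a b := by exact_mod_cast natCast_mem (PR u a b) 4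
    exact add_mem (sub_mem (mul_mem h3 (pow_mem ha 2)) (mul_mem h4 (pow_mem hb 3))) (one_mem _)
  have hz' : z ∈ Algebra.adjoin ℂ ({u, a, b} : Set K) := hz
  clear hz
  induction hz' using Algebra.adjoin_induction with
  | mem x hx =>
    rcases hx with rfl | rfl | rfl
    · exact ⟨1, one_mem _, 0, zero_mem _, 0, 0, by simp⟩
    · exact ⟨0, zero_mem _, 0, zero_mem _, 0, 1, by simp⟩
    · exact ⟨0, zero_mem _, 0, zero_mem _, Polynomial.X, 0, by simp⟩
  | algebraMap c => exact ⟨0, zero_mem _, 0, zero_mem _, Polynomial.C c, 0, by simp⟩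
  | add x y _ _ hx hy =>
    obtain ⟨f, hf, g, hg, r0, r1, h⟩ := hx
    obtain ⟨f', hf', g', hg', r0', r1', h'⟩ := hy
    refine ⟨f + f', add_mem hf hf', g + g', add_mem hg hg', r0 + r0', r1 + r1', ?_⟩
    rw [h, h', map_add, map_add]
    ring
  | mul x y _ _ hx hy =>
    obtain ⟨f, hf, g, hg, r0, r1, h⟩ := hx
    obtain ⟨f', hf', g', hg', r0', r1', h'⟩ := hy
    have m0 := aeval_PR u a b r0
    have m1 := aeval_PR u a b r1
    have m0' := aeval_PR u a b r0'
    have m1' := aeval_PR u a b r1'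
    have mx : Polynomial.aeval b (Polynomial.C (1 / 3 : ℂ)) ∈ PR u a b := aeval_PR u a b _
    have h3 : Polynomial.aeval b (Polynomial.C (1 / 3 : ℂ)) * (3 : K) = 1 := by
      rw [Polynomial.aeval_C]
      have : (3 : K) = algebraMap ℂ K 3 := (map_ofNat (algebraMap ℂ K) 3).symm
      rw [this, ← map_mul]
      norm_num
    refine ⟨f * (f' * u + g' * fc a b + Polynomial.aeval b r0' + Polynomial.aeval b r1' * a) +
        (g * fc a b + Polynomial.aeval b r0 + Polynomial.aeval b r1 * a) * f', ?_,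
      g * (g' * fc a b + Polynomial.aeval b r0' + Polynomial.aeval b r1' * a) +
        (Polynomial.aeval b r0 + Polynomial.aeval b r1 * a) * g' +
        Polynomial.aeval b (Polynomial.C (1 / 3 : ℂ)) * Polynomial.aeval b r1 *
          Polynomial.aeval b r1', ?_,
      r0 * r0' + Polynomial.C (1 / 3 : ℂ) * r1 * r1' * (4 * Polynomial.X ^ 3 - 1),
      r0 * r1' + r1 * r0', ?_⟩
    · exact add_mem (mul_mem hf (add_mem (add_mem (add_mem (mul_mem hf' hu) (mul_mem hg' hfc)) m0')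
        (mul_mem m1' ha))) (mul_mem (add_mem (add_mem (mul_mem hg hfc) m0) (mul_mem m1 ha)) hf')
    · exact add_mem (add_mem (mul_mem hg (add_mem (add_mem (mul_mem hg' hfc) m0')
        (mul_mem m1' ha))) (mul_mem (add_mem m0 (mul_mem m1 ha)) hg'))
        (mul_mem (mul_mem mx m1) m1')
    · rw [h, h']
      simp only [map_add, map_mul, map_sub, map_pow, map_one, Polynomial.aeval_X, map_ofNat]
      generalize Polynomial.aeval b (Polynomial.C (1 / 3 : ℂ)) = t at h3 ⊢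
      generalize Polynomial.aeval b r0 = R0
      generalize Polynomial.aeval b r1 = R1
      generalize Polynomial.aeval b r0' = R0'
      generalize Polynomial.aeval b r1' = R1'
      unfold fc
      linear_combination (-(R1 * R1' * a ^ 2)) * h3

open Polynomial in
theorem parity_aux (r0 r1 : ℂ[X]) (h : 3 * r0 ^ 2 = (4 * X ^ 3 - 1) * r1 ^ 2) :
    r0 = 0 ∧ r1 = 0 := by
  have hq : (4 * X ^ 3 - 1 : ℂ[X]).natDegree = 3 := by
    have h4 : (4 : ℂ[X]) = C 4 := (map_ofNat C 4).symm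
    rw [h4, ← C_1]
    compute_degree!
  have hq0 : (4 * X ^ 3 - 1 : ℂ[X]) ≠ 0 := fun h0 => by
    rw [h0] at hq
    simp at hq
  have h3 : (3 : ℂ[X]) = C 3 := (map_ofNat C 3).symm
  have h3' : (3 : ℂ[X]) ≠ 0 := by rw [h3]; simp
  by_cases h1 : r1 = 0
  · refine ⟨?_, h1⟩
    rw [h1] at h
    have h4 : (3 : ℂ[X]) * r0 ^ 2 = 0 := by rw [h]; ring
    rcases mul_eq_zero.1 h4 with h5 | h5
    · exact absurd h5 h3'
    · exact pow_eq_zero_iff (two_ne_zero) |>.1 h5
  · exfalso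
    have h0 : r0 ≠ 0 := by
      rintro rfl
      have h4 : (4 * X ^ 3 - 1 : ℂ[X]) * r1 ^ 2 = 0 := by rw [← h]; ring
      rcases mul_eq_zero.1 h4 with h5 | h5
      · exact hq0 h5
      · exact h1 (pow_eq_zero_iff (two_ne_zero) |>.1 h5)
    have hd := congrArg natDegree h
    rw [natDegree_mul h3' (pow_ne_zero _ h0), natDegree_mul hq0 (pow_ne_zero _ h1), natDegree_pow,
      natDegree_pow, hq, h3, natDegree_C] at hd
    omega

theorem kerB {K : Type*} [Field K] [Algebra ℂ K] (a b v : K)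
    (O : Subring K) {F : Type*} [Field F] [Algebra ℂ F] (ψ : O →+* F) (h : EtaB a b v O ψ)
    (hv : v ≠ 0) (z : K) (hz : z ∈ PR v⁻¹ a b) (hM : InM O z) :
    ∃ f ∈ PR v⁻¹ a b, ∃ g ∈ PR v⁻¹ a b, z = f * v⁻¹ + g * fc a b := by
  obtain ⟨f, hf, g, hg, r0, r1, hz'⟩ := decompB v⁻¹ a b z hz
  refine ⟨f, hf, g, hg, ?_⟩
  have hle := h.loc.1
  obtain ⟨hvO, hψv⟩ := h.hv
  obtain ⟨haO, hbO, hfc, htr⟩ := h.hab
  let ι : ℂ →+* O := (algebraMap ℂ K).codRestrict O (fun c => (h.hc c).fst)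
  have hι : ψ.comp ι = algebraMap ℂ F := by
    ext c
    exact (h.hc c).snd
  have hpol : ∀ r : Polynomial ℂ, ∃ hr : Polynomial.aeval b r ∈ O,
      ψ ⟨_, hr⟩ = Polynomial.aeval (ψ ⟨b, hbO⟩) r := by
    intro r
    have h1 : ((Polynomial.eval₂ ι ⟨b, hbO⟩ r : O) : K) = Polynomial.aeval b r := by
      have := Polynomial.hom_eval₂ r ι O.subtype ⟨b, hbO⟩
      rw [Polynomial.aeval_def]
      exact this
    have h2 : ψ (Polynomial.eval₂ ι ⟨b, hbO⟩ r) = Polynomial.aeval (ψ ⟨b, hbO⟩) r := by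
      rw [Polynomial.hom_eval₂, hι, Polynomial.aeval_def]
    refine ⟨h1 ▸ (Polynomial.eval₂ ι ⟨b, hbO⟩ r : O).2, ?_⟩
    rw [← h2]
    congr 1
    exact Subtype.ext h1.symm
  obtain ⟨hr0, hψ0⟩ := hpol r0
  obtain ⟨hr1, hψ1⟩ := hpol r1
  have hψz : ψ ⟨z, hM.1⟩ = 0 := (h.inM ⟨z, hM.1⟩).1 hM
  have hzO : (⟨z, hM.1⟩ : O) = ⟨f, hle hf⟩ * ⟨v⁻¹, hvO⟩ +
      ⟨g, hle hg⟩ * (3 * ⟨a, haO⟩ ^ 2 - 4 * ⟨b, hbO⟩ ^ 3 + 1) +
      ⟨_, hr0⟩ + ⟨_, hr1⟩ * ⟨a, haO⟩ := by
    apply Subtype.ext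
    exact hz'
  rw [hzO] at hψz
  simp only [map_add, map_mul, map_sub, map_pow, map_one, map_ofNat, hψv, hψ0, hψ1] at hψz
  unfold fc at hfc
  rw [mul_zero, zero_add, hfc, mul_zero, zero_add] at hψz
  have hsq : Polynomial.aeval (ψ ⟨b, hbO⟩) (3 * r0 ^ 2 - (4 * Polynomial.X ^ 3 - 1) * r1 ^ 2) =
      0 := by
    simp only [map_mul, map_sub, map_pow, map_one, map_ofNat, Polynomial.aeval_X]
    generalize Polynomial.aeval (ψ ⟨b, hbO⟩) r0 = R0 at *
    generalize Polynomial.aeval (ψ ⟨b, hbO⟩) r1 = R1 at *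
    generalize ψ ⟨b, hbO⟩ = Y at *
    generalize ψ ⟨a, haO⟩ = X at *
    have : R0 = -(R1 * X) := by linear_combination hψz
    rw [this]
    linear_combination R1 ^ 2 * hfc
  have hp := parity_aux r0 r1 (sub_eq_zero.1 (by
    by_contra hne
    exact htr ⟨_, hne, hsq⟩))
  rw [hz', hp.1, hp.2]
  simp

end Pool.Agent.Helper447.D71
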