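import Pool.Agent.Helper447.D71.Defs

set_option autoImplicit false

namespace Pool.Agent.Helper447.D71



theorem curve_mem_range {F : Type*} [Field F] [Algebra ℂ F] (x : F)
    (hx : ∀ V : ValuationSubring F, (∀ c : ℂ, algebraMap ℂ F c ∈ V) → x ∈ V) :
    ∃ c : ℂ, algebraMap ℂ F c = x := by
  have h1 : x ∈ (⨅ V : {V : ValuationSubring F // (Set.range (algebraMap ℂ F)) ⊆ V.toSubring},
      V.1.toSubring) := by
    rw [Subring.mem_iInf]
    intro V
    exact hx V.1 (fun c => V.2 ⟨c, rfl⟩)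
  rw [iInf_valuationSubring_superset] at h1
  have h2 : IsIntegral (Subring.closure (Set.range (algebraMap ℂ F))) x := h1
  obtain ⟨p, hpm, hp⟩ := h2
  have h3 : IsIntegral ℂ x := by
    have hle : Subring.closure (Set.range (algebraMap ℂ F)) ≤ (algebraMap ℂ F).range := by
      rw [Subring.closure_le]; rintro _ ⟨c, rfl⟩; exact ⟨c, rfl⟩
    have hlift : p.map (Subring.subtype _) ∈ Polynomial.lifts (algebraMap ℂ F) := by
      rw [Polynomial.lifts_iff_coeff_lifts]
      intro n
      rw [Polynomial.coeff_map]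
      exact hle (p.coeff n).2
    obtain ⟨q, hq1, hq2, hq3⟩ := Polynomial.lifts_and_natDegree_eq_and_monic hlift (hpm.map _)
    refine ⟨q, hq3, ?_⟩
    rw [Polynomial.eval₂_eq_eval_map, hq1, Polynomial.eval_map]
    exact hp
  have h4 : (minpoly ℂ x).degree = 1 :=
    IsAlgClosed.degree_eq_one_of_irreducible ℂ (minpoly.irreducible h3)
  exact minpoly.mem_range_of_degree_eq_one ℂ x h4

theorem curve_case {F : Type*} [Field F] [Algebra ℂ F] (a b : F) (hc : fc a b = 0)
    (f : F) (N : ℕ) (h : f * a * ((a⁻¹) ^ 3 + 3 + (a⁻¹) ^ 2 + (b / a) ^ 3) ^ N ∈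
      Algebra.adjoin ℂ ({a⁻¹, b / a} : Set F))
    (V : ValuationSubring F) (hV : ∀ c : ℂ, algebraMap ℂ F c ∈ V) (hb : b ∉ V) :
    V.valuation f < 1 := by
  have hmem : ∀ x : F, V.valuation x ≤ 1 ↔ x ∈ V := fun x => V.valuation_le_one_iff x
  have hconst : ∀ c : ℂ, c ≠ 0 → V.valuation (algebraMap ℂ F c) = 1 := by
    intro c hc0
    have h1 := (hmem _).2 (hV c)
    have h2 := (hmem _).2 (hV c⁻¹)
    rw [map_inv₀, map_inv₀] at h2
    have hne : V.valuation (algebraMap ℂ F c) ≠ 0 := by
      rw [Valuation.ne_zero_iff]; simpa using hc0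
    refine le_antisymm h1 ?_
    exact (inv_le_one₀ (zero_lt_iff.2 hne)).1 h2
  have h3 : V.valuation (3 : F) = 1 := by
    have := hconst 3 (by norm_num); rwa [map_ofNat] at this
  have h4 : V.valuation (4 : F) = 1 := by
    have := hconst 4 (by norm_num); rwa [map_ofNat] at this
  have hvb : 1 < V.valuation b := by
    rw [← not_le, hmem]; exact hb
  have hvb3 : 1 < V.valuation b ^ 3 := one_lt_pow₀ hvb (by norm_num)
  have hrel : 3 * a ^ 2 = 4 * b ^ 3 - 1 := by
    unfold fc at hc; linear_combination hc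
  have hva2 : V.valuation a ^ 2 = V.valuation b ^ 3 := by
    have e1 : V.valuation (3 * a ^ 2) = V.valuation a ^ 2 := by
      rw [map_mul, h3, one_mul, map_pow]
    have e2 : V.valuation (4 * b ^ 3 - 1) = V.valuation b ^ 3 := by
      have e3 : V.valuation (4 * b ^ 3) = V.valuation b ^ 3 := by
        rw [map_mul, h4, one_mul, map_pow]
      rw [Valuation.map_sub_eq_of_lt_left]
      · exact e3
      · rw [e3, map_one]; exact hvb3
    rw [← e1, hrel, e2]
  have hva : 1 < V.valuation a := by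
    by_contra hcon
    push Not at hcon
    have : V.valuation a ^ 2 ≤ 1 := pow_le_one₀ (zero_le) hcon
    rw [hva2] at this
    exact absurd hvb3 (not_lt.2 this)
  have hvai : V.valuation a⁻¹ < 1 := by
    rw [map_inv₀]; exact inv_lt_one_of_one_lt₀ hva
  have hvba : V.valuation (b / a) < 1 := by
    by_contra hcon
    push Not at hcon
    have h5 : 1 ≤ V.valuation (b / a) ^ 2 := one_le_pow₀ hcon
    have hb0 : V.valuation b ≠ 0 := (lt_trans zero_lt_one hvb).ne'
    rw [map_div₀, div_pow, hva2] at h5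
    have h6 : V.valuation b ^ 2 / V.valuation b ^ 3 = (V.valuation b)⁻¹ := by
      field_simp
    rw [h6] at h5
    exact absurd (inv_lt_one_of_one_lt₀ hvb) (not_lt.2 h5)
  have hunit : V.valuation ((a⁻¹) ^ 3 + 3 + (a⁻¹) ^ 2 + (b / a) ^ 3) = 1 := by
    have e1 : V.valuation ((a⁻¹) ^ 3 + (a⁻¹) ^ 2 + (b / a) ^ 3) < 1 := by
      refine lt_of_le_of_lt (V.valuation.map_add _ _) (max_lt ?_ ?_)
      · refine lt_of_le_of_lt (V.valuation.map_add _ _) (max_lt ?_ ?_)
        · rw [map_pow]; exact pow_lt_one₀ (zero_le) hvai (by norm_num)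
        · rw [map_pow]; exact pow_lt_one₀ (zero_le) hvai (by norm_num)
      · rw [map_pow]; exact pow_lt_one₀ (zero_le) hvba (by norm_num)
    have e2 : (a⁻¹) ^ 3 + 3 + (a⁻¹) ^ 2 + (b / a) ^ 3
        = 3 + ((a⁻¹) ^ 3 + (a⁻¹) ^ 2 + (b / a) ^ 3) := by ring
    rw [e2, Valuation.map_add_eq_of_lt_left, h3]
    rw [h3]; exact e1
  have hsub : Algebra.adjoin ℂ ({a⁻¹, b / a} : Set F) ≤
      { V.toSubring with algebraMap_mem' := hV } := by
    rw [Algebra.adjoin_le_iff]
    rintro x (rfl | rfl)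
    · exact (hmem _).1 hvai.le
    · exact (hmem _).1 hvba.le
  have hin : V.valuation (f * a * ((a⁻¹) ^ 3 + 3 + (a⁻¹) ^ 2 + (b / a) ^ 3) ^ N) ≤ 1 :=
    (hmem _).2 (hsub h)
  rw [map_mul, map_pow, hunit, one_pow, mul_one, map_mul] at hin
  by_contra hcon
  push Not at hcon
  have : 1 < V.valuation f * V.valuation a := one_lt_mul_of_le_of_lt hcon hva
  exact absurd this (not_lt.2 hin)

theorem curve {F : Type*} [Field F] [Algebra ℂ F] (a b : F) (hc : fc a b = 0)
    (hb : Transcendental ℂ b) (f : F) (hf : f ∈ Algebra.adjoin ℂ ({a, b} : Set F)) (hf0 : f ≠ 0)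
    (N : ℕ) (h : f * a * ((a⁻¹) ^ 3 + 3 + (a⁻¹) ^ 2 + (b / a) ^ 3) ^ N ∈
      Algebra.adjoin ℂ ({a⁻¹, b / a} : Set F)) : False := by
  have hfV : ∀ V : ValuationSubring F, (∀ c : ℂ, algebraMap ℂ F c ∈ V) → f ∈ V := by
    intro V hV
    by_cases hbV : b ∈ V
    · have haV : a ∈ V := by
        rcases V.mem_or_inv_mem a with h1 | h1
        · exact h1
        · by_cases ha0 : a = 0
          · rw [ha0]; exact V.zero_mem
          have e : a = (algebraMap ℂ F (4/3) * b ^ 3 - algebraMap ℂ F (1/3)) * a⁻¹ := by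
            have e1 : algebraMap ℂ F (4/3) * b ^ 3 - algebraMap ℂ F (1/3) = a ^ 2 := by
              have h3F : algebraMap ℂ F 3 = 3 := map_ofNat _ 3
              have h4F : algebraMap ℂ F 4 = 4 := map_ofNat _ 4
              have h30 : (3 : F) ≠ 0 := by
                rw [← h3F, map_ne_zero]; norm_num
              have e2 : 3 * (algebraMap ℂ F (4/3) * b ^ 3 - algebraMap ℂ F (1/3)) = 3 * a ^ 2 := by
                have e3 : (3 : F) * algebraMap ℂ F (4/3) = 4 := by
                  rw [← h3F, ← map_mul, ← h4F]; congr 1; norm_num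
                have e4 : (3 : F) * algebraMap ℂ F (1/3) = 1 := by
                  rw [← h3F, ← map_mul, ← map_one (algebraMap ℂ F)]; congr 1; norm_num
                unfold fc at hc
                linear_combination b ^ 3 * e3 - e4 - hc
              exact mul_left_cancel₀ h30 e2
            rw [e1]; field_simp
          rw [e]
          exact mul_mem (sub_mem (mul_mem (hV _) (pow_mem hbV 3)) (hV _)) h1
      have hsub : Algebra.adjoin ℂ ({a, b} : Set F) ≤
          { V.toSubring with algebraMap_mem' := hV } := by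
        rw [Algebra.adjoin_le_iff]
        rintro x (rfl | rfl)
        · exact haV
        · exact hbV
      exact hsub hf
    · exact (V.valuation_le_one_iff f).1 (curve_case a b hc f N h V hV hbV).le
  obtain ⟨c, hcf⟩ := curve_mem_range f hfV
  have hex : ∃ V : ValuationSubring F, (∀ c : ℂ, algebraMap ℂ F c ∈ V) ∧ b ∉ V := by
    by_contra hcon
    push Not at hcon
    obtain ⟨c, hc'⟩ := curve_mem_range b hcon
    exact hb (hc' ▸ isAlgebraic_algebraMap c)
  obtain ⟨V, hV, hbV⟩ := hex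
  have h1 := curve_case a b hc f N h V hV hbV
  have hc0 : c ≠ 0 := by
    rintro rfl; apply hf0; rw [← hcf, map_zero]
  have h2 : V.valuation (algebraMap ℂ F c⁻¹) ≤ 1 := (V.valuation_le_one_iff _).2 (hV c⁻¹)
  rw [map_inv₀, map_inv₀, hcf] at h2
  have hne : V.valuation f ≠ 0 := by
    rw [Valuation.ne_zero_iff]; exact hf0
  have h3 := (inv_le_one₀ (zero_lt_iff.2 hne)).1 h2
  exact absurd h1 (not_lt.2 h3)

end Pool.Agent.Helper447.D71
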