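import Pool.Agent.Helper447.D71.Defs

set_option autoImplicit false

namespace Pool.Agent.Helper447.D71


theorem mem_adj_aux {K : Type*} [Field K] [Algebra ℂ K] (s : Set K) (w : K) (z : K)
    (hz : z ∈ Algebra.adjoin ℂ (s ∪ {w})) :
    ∃ p : Polynomial (Algebra.adjoin ℂ s), Polynomial.aeval w p = z := by
  rw [Algebra.adjoin_union_eq_adjoin_adjoin] at hz
  have h1 : z ∈ Algebra.adjoin (Algebra.adjoin ℂ s) {w} := hz
  rw [Algebra.adjoin_singleton_eq_range_aeval] at h1
  exact h1

theorem ppzero {K : Type*} [Field K] [Algebra ℂ K] (a b v : K)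
    (hind : AlgebraicIndependent ℂ ![a, b, v]) (y : K) (h1 : y ∈ PR a b v)
    (h2 : v * y ∈ PR v⁻¹ a b) : y = 0 := by
  have hv : v ≠ 0 := hind.ne_zero 2
  have htr : Transcendental (Algebra.adjoin ℂ ({a, b} : Set K)) v := by
    have h := hind.transcendental_adjoin (s := {0, 1}) (i := 2) (by simp)
    have he : (![a, b, v] '' ({0, 1} : Set (Fin 3))) = {a, b} := by
      rw [Set.image_pair]; rfl
    rw [he] at h
    exact h
  obtain ⟨p, hp⟩ := mem_adj_aux {a, b} v y (by
    have : ({a, b} ∪ {v} : Set K) = {a, b, v} := by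
      ext x; simp only [Set.mem_union, Set.mem_insert_iff, Set.mem_singleton_iff]; tauto
    rw [this]; exact h1)
  obtain ⟨q, hq⟩ := mem_adj_aux {a, b} v⁻¹ (v * y) (by
    have : ({a, b} ∪ {v⁻¹} : Set K) = {v⁻¹, a, b} := by
      ext x; simp only [Set.mem_union, Set.mem_insert_iff, Set.mem_singleton_iff]; tauto
    rw [this]; exact h2)
  letI : Invertible (v⁻¹) := invertibleOfNonzero (inv_ne_zero hv)
  have key := Polynomial.eval₂_reflect_mul_pow (algebraMap (Algebra.adjoin ℂ ({a, b} : Set K)) K)
    (v⁻¹) q.natDegree q le_rfl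
  have hinv : ⅟(v⁻¹) = v := by rw [invOf_eq_inv, inv_inv]
  rw [hinv] at key
  have e1 : Polynomial.aeval v (Polynomial.reflect q.natDegree q) =
      Polynomial.aeval v (p * Polynomial.X ^ (q.natDegree + 1)) := by
    have k1 : Polynomial.aeval v (Polynomial.reflect q.natDegree q) * v⁻¹ ^ q.natDegree = v * y := by
      rw [← hq]; exact key
    have k2 : Polynomial.aeval v (Polynomial.reflect q.natDegree q) = v * y * v ^ q.natDegree := by
      rw [← k1, mul_assoc, ← mul_pow, inv_mul_cancel₀ hv, one_pow, mul_one]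
    rw [k2, map_mul, map_pow, Polynomial.aeval_X, hp]
    ring
  have e2 := (transcendental_iff_injective.1 htr) e1
  have hp0 : p = 0 := by
    ext k
    have e3 := congrArg (fun f => Polynomial.coeff f (k + (q.natDegree + 1))) e2
    simp only [Polynomial.coeff_mul_X_pow, Polynomial.coeff_reflect] at e3
    rw [← e3, Polynomial.revAt_eq_self_of_lt (by omega), Polynomial.coeff_eq_zero_of_natDegree_lt (by omega)]
    simp
  rw [← hp, hp0, map_zero]

end Pool.Agent.Helper447.D71
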