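import Pool.Agent.Helper447.D71.Defs
import Pool.Agent.Helper447.D71.P_flip
import Pool.Agent.Helper447.D71.P_alg3
import Pool.Agent.Helper447.D71.P_prime1
import Pool.Agent.Helper447.D71.P_nz
import Pool.Agent.Helper447.D71.P_genV
import Pool.Agent.Helper447.D71.P_ppzero

set_option autoImplicit false

namespace Pool.Agent.Helper447.D71



theorem adj_pow {K : Type*} [Field K] [Algebra ℂ K] (R1 : Subring K) (s : Set K) (π : K)
    (hπ : π ∈ R1) (hC : ∀ c : ℂ, algebraMap ℂ K c ∈ R1) (hs : ∀ x ∈ s, ∃ k : ℕ, x * π ^ k ∈ R1) :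
    ∀ z ∈ Algebra.adjoin ℂ s, ∃ k : ℕ, z * π ^ k ∈ R1 := by
  intro z hz
  induction hz using Algebra.adjoin_induction with
  | mem x hx => exact hs x hx
  | algebraMap c => exact ⟨0, by rw [pow_zero, mul_one]; exact hC c⟩
  | add x y _ _ hx hy =>
    obtain ⟨k, hk⟩ := hx
    obtain ⟨l, hl⟩ := hy
    refine ⟨k + l, ?_⟩
    have : (x + y) * π ^ (k + l) = x * π ^ k * π ^ l + y * π ^ l * π ^ k := by ring
    rw [this]
    exact R1.add_mem (R1.mul_mem hk (R1.pow_mem hπ _)) (R1.mul_mem hl (R1.pow_mem hπ _))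
  | mul x y _ _ hx hy =>
    obtain ⟨k, hk⟩ := hx
    obtain ⟨l, hl⟩ := hy
    refine ⟨k + l, ?_⟩
    have : (x * y) * π ^ (k + l) = (x * π ^ k) * (y * π ^ l) := by ring
    rw [this]
    exact R1.mul_mem hk hl

theorem PR_gen {K : Type*} [Field K] [Algebra ℂ K] (x y z : K) :
    x ∈ PR x y z ∧ y ∈ PR x y z ∧ z ∈ PR x y z ∧ ∀ c : ℂ, algebraMap ℂ K c ∈ PR x y z := by
  refine ⟨?_, ?_, ?_, fun c => ?_⟩
  · exact Algebra.subset_adjoin (by simp)
  · exact Algebra.subset_adjoin (by simp)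
  · exact Algebra.subset_adjoin (by simp)
  · exact (Algebra.adjoin ℂ ({x, y, z} : Set K)).algebraMap_mem c

theorem flipV {K : Type*} [Field K] [Algebra ℂ K] (hK : Algebra.trdeg ℂ K = 3) (a b v : K)
    (hind : AlgebraicIndependent ℂ ![a, b, v]) (hgen : IsGen a b v) {n : ℕ} (y : Fin n → K)
    (hy : Cop (PR a b v) y) (hn : ∃ j, y j ≠ 0) :
    ∃ N : ℕ, Cop (PR v⁻¹ a b) (fun j => y j * v⁻¹ ^ N) := by
  have hv : v ≠ 0 := (nz a b v hind).2.2.1
  obtain ⟨g1, g2, g3, g4⟩ := PR_gen a b v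
  obtain ⟨f1, f2, f3, f4⟩ := PR_gen v⁻¹ a b
  have hind' := alg3 hK v⁻¹ a b (genV a b v hv hgen)
  have hprime := prime1 v⁻¹ a b hind'
  rw [inv_inv] at hprime
  have h1 : ∀ z ∈ PR a b v, ∃ k : ℕ, z * v⁻¹ ^ k ∈ PR v⁻¹ a b := by
    intro z hz
    refine adj_pow (PR v⁻¹ a b) {a, b, v} v⁻¹ f1 f4 ?_ z hz
    rintro x (rfl | rfl | rfl)
    · exact ⟨0, by rw [pow_zero, mul_one]; exact f2⟩
    · exact ⟨0, by rw [pow_zero, mul_one]; exact f3⟩
    · refine ⟨1, ?_⟩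
      rw [pow_one, mul_inv_cancel₀ hv]
      exact (PR x⁻¹ a b).one_mem
  have h2 : ∀ z ∈ PR v⁻¹ a b, ∃ k : ℕ, z * v ^ k ∈ PR a b v := by
    intro z hz
    refine adj_pow (PR a b v) {v⁻¹, a, b} v g3 g4 ?_ z hz
    rintro x (rfl | rfl | rfl)
    · refine ⟨1, ?_⟩
      rw [pow_one, inv_mul_cancel₀ hv]
      exact (PR a b v).one_mem
    · exact ⟨0, by rw [pow_zero, mul_one]; exact g1⟩
    · exact ⟨0, by rw [pow_zero, mul_one]; exact g2⟩
  have hex : ∃ N : ℕ, ∀ j, y j * v⁻¹ ^ N ∈ PR v⁻¹ a b := by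
    choose k hk using fun j => h1 (y j) (hy.1 j)
    refine ⟨∑ j, k j, fun j => ?_⟩
    have hle : k j ≤ ∑ j, k j := Finset.single_le_sum (fun i _ => Nat.zero_le _) (Finset.mem_univ j)
    have e : y j * v⁻¹ ^ (∑ j, k j) = (y j * v⁻¹ ^ k j) * v⁻¹ ^ (∑ j, k j - k j) := by
      rw [mul_assoc, ← pow_add, Nat.add_sub_cancel' hle]
    rw [e]
    exact (PR v⁻¹ a b).mul_mem (hk j) ((PR v⁻¹ a b).pow_mem f1 _)
  classical
  have hN := Nat.find_spec hex
  have hmin : ∃ j, v * (y j * v⁻¹ ^ Nat.find hex) ∉ PR v⁻¹ a b := by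
    by_contra hcon
    push Not at hcon
    rcases Nat.eq_zero_or_pos (Nat.find hex) with h0 | h0
    · obtain ⟨j, hj⟩ := hn
      apply hj
      have h3 := hcon j
      rw [h0, pow_zero, mul_one] at h3
      exact ppzero a b v hind (y j) (hy.1 j) h3
    · have h4 := Nat.find_min hex (Nat.sub_lt h0 one_pos)
      apply h4
      intro j
      have h3 := hcon j
      have e : v * (y j * v⁻¹ ^ Nat.find hex) = y j * v⁻¹ ^ (Nat.find hex - 1) := by
        have e2 : v⁻¹ ^ Nat.find hex = v⁻¹ ^ (Nat.find hex - 1) * v⁻¹ := by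
          rw [← pow_succ, Nat.sub_add_cancel h0]
        rw [e2]
        field_simp
      rwa [e] at h3
  exact ⟨Nat.find hex, flip y v hv g3 f1 hprime h1 h2 hy (Nat.find hex) hN hmin⟩

end Pool.Agent.Helper447.D71
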