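import Pool.Agent.Helper447.D71.Defs

set_option autoImplicit false

namespace Pool.Agent.Helper447.D71



theorem loccop {K : Type*} [Field K] {R O : Subring K} {n : ℕ} (y : Fin n → K) (h : Cop R y)
    (hRO : R ≤ O) (hloc : ∀ z ∈ O, ∃ x ∈ R, ∃ s ∈ R, s ≠ 0 ∧ s⁻¹ ∈ O ∧ z * s = x) : Cop O y := by
  classical
  refine ⟨fun j => hRO (h.1 j), fun z hz => ?_⟩
  choose x hx s hs hs0 hsO hxs using fun j => hloc (z * y j) (hz j)
  have h1 : z * ∏ i, s i ∈ R := by
    apply h.2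
    intro j
    have h2 : z * (∏ i, s i) * y j = x j * ∏ i ∈ Finset.univ.erase j, s i := by
      rw [← Finset.mul_prod_erase Finset.univ s (Finset.mem_univ j), ← hxs j]
      ring
    rw [h2]
    exact R.mul_mem (hx j) (R.prod_mem fun i _ => hs i)
  have h2 : ∏ i, s i ≠ 0 := Finset.prod_ne_zero_iff.2 fun i _ => hs0 i
  have h3 : z = (z * ∏ i, s i) * ∏ i, (s i)⁻¹ := by
    rw [Finset.prod_inv_distrib, mul_assoc, mul_inv_cancel₀ h2, mul_one]
  rw [h3]
  exact O.mul_mem (hRO h1) (O.prod_mem fun i _ => hsO i)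

end Pool.Agent.Helper447.D71
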