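import Pool.Agent.Helper447.D71.Defs
import Pool.Agent.Helper447.D71.P_nz

set_option autoImplicit false

namespace Pool.Agent.Helper447.D71



open Polynomial in
theorem homB_Psi {K : Type*} [Field K] [Algebra ℂ K] (a b v : K)
    (hind : AlgebraicIndependent ℂ ![a, b, v]) :
    ∃ Ψ : Polynomial (MvPolynomial (Fin 2) ℂ) →ₐ[ℂ] K, Function.Injective Ψ ∧ Ψ Polynomial.X = v ∧
      ∀ r, Ψ (Polynomial.C r) = MvPolynomial.aeval ![a, b] r := by
  have h2 : AlgebraicIndependent ℂ ![v, a, b] := by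
    have := hind.comp ![2, 0, 1] (by decide)
    convert this using 1
    ext i
    fin_cases i <;> rfl
  let Ψ : Polynomial (MvPolynomial (Fin 2) ℂ) →ₐ[ℂ] K :=
    (MvPolynomial.aeval ![v, a, b]).comp ((MvPolynomial.finSuccEquiv ℂ 2).symm : _ →ₐ[ℂ] _)
  have hX : (MvPolynomial.finSuccEquiv ℂ 2).symm Polynomial.X = MvPolynomial.X 0 := by
    rw [AlgEquiv.symm_apply_eq, MvPolynomial.finSuccEquiv_X_zero]
  have hC : ∀ i : Fin 2, (MvPolynomial.finSuccEquiv ℂ 2).symm (Polynomial.C (MvPolynomial.X i)) =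
      MvPolynomial.X i.succ := by
    intro i
    rw [AlgEquiv.symm_apply_eq, MvPolynomial.finSuccEquiv_X_succ]
  refine ⟨Ψ, ?_, ?_, ?_⟩
  · have h3 : Function.Injective (MvPolynomial.aeval (R := ℂ) ![v, a, b]) := h2
    exact h3.comp (MvPolynomial.finSuccEquiv ℂ 2).symm.injective
  · simp [Ψ, hX]
  · intro r
    have : (Ψ.comp (Polynomial.CAlgHom : MvPolynomial (Fin 2) ℂ →ₐ[ℂ] _)) =
        MvPolynomial.aeval ![a, b] := by
      ext i
      simp [Ψ, hC]
    exact DFunLike.congr_fun this r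

theorem homB {K : Type*} [Field K] [Algebra ℂ K] (a b v : K)
    (hind : AlgebraicIndependent ℂ ![a, b, v]) (y : K) (N : ℕ) (h1 : y ∈ PR a b v)
    (h2 : y * v⁻¹ ^ N ∈ PR v⁻¹ a b) :
    y / fw3 a b v ^ N ∈ Algebra.adjoin ℂ ({a, b, fw1 a b v / fw3 a b v, (fw3 a b v)⁻¹} : Set K) := by
  obtain ⟨Ψ, hinj, hX, hC⟩ := homB_Psi a b v hind
  have hv : v ≠ 0 := by
    intro h
    rw [← hX] at h
    have := hinj (h.trans (map_zero Ψ).symm)
    exact Polynomial.X_ne_zero this
  have ha : Ψ (Polynomial.C (MvPolynomial.X 0)) = a := by rw [hC]; simp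
  have hb : Ψ (Polynomial.C (MvPolynomial.X 1)) = b := by rw [hC]; simp
  -- y = Ψ p
  obtain ⟨p, hp⟩ : ∃ p, Ψ p = y := by
    have h1' : y ∈ Algebra.adjoin ℂ ({a, b, v} : Set K) := h1
    have : Algebra.adjoin ℂ ({a, b, v} : Set K) ≤ Ψ.range := by
      refine Algebra.adjoin_le ?_
      rintro x (rfl | rfl | rfl)
      · exact ⟨_, ha⟩
      · exact ⟨_, hb⟩
      · exact ⟨_, hX⟩
    exact this h1'
  -- the other one
  have hq : ∀ z ∈ Algebra.adjoin ℂ ({v⁻¹, a, b} : Set K), ∃ (M : ℕ) (q : Polynomial (MvPolynomial (Fin 2) ℂ)),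
      q.natDegree ≤ M ∧ z * v ^ M = Ψ q := by
    intro z hz
    refine Algebra.adjoin_induction (p := fun z _ => ∃ (M : ℕ) (q : Polynomial (MvPolynomial (Fin 2) ℂ)),
      q.natDegree ≤ M ∧ z * v ^ M = Ψ q) ?_ ?_ ?_ ?_ hz
    · rintro x (rfl | rfl | rfl)
      · exact ⟨1, 1, by simp, by rw [pow_one, inv_mul_cancel₀ hv, map_one]⟩
      · exact ⟨0, Polynomial.C (MvPolynomial.X 0), by simp, by rw [pow_zero, mul_one]; exact ha.symm⟩
      · exact ⟨0, Polynomial.C (MvPolynomial.X 1), by simp, by rw [pow_zero, mul_one]; exact hb.symm⟩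
    · intro c
      refine ⟨0, Polynomial.C (MvPolynomial.C c), by simp, ?_⟩
      rw [pow_zero, mul_one, hC, MvPolynomial.aeval_C]
    · rintro x y _ _ ⟨M, q, h, e⟩ ⟨M', q', h', e'⟩
      refine ⟨M + M', q * Polynomial.X ^ M' + q' * Polynomial.X ^ M, ?_, ?_⟩
      · refine (Polynomial.natDegree_add_le _ _).trans (max_le ?_ ?_)
        · refine Polynomial.natDegree_mul_le.trans ?_
          have := Polynomial.natDegree_X_pow_le (R := MvPolynomial (Fin 2) ℂ) M'
          omega
        · refine Polynomial.natDegree_mul_le.trans ?_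
          have := Polynomial.natDegree_X_pow_le (R := MvPolynomial (Fin 2) ℂ) M
          omega
      · rw [map_add, map_mul, map_mul, ← e, ← e', map_pow, map_pow, hX]; ring
    · rintro x y _ _ ⟨M, q, h, e⟩ ⟨M', q', h', e'⟩
      refine ⟨M + M', q * q', ?_, ?_⟩
      · exact Polynomial.natDegree_mul_le.trans (by omega)
      · rw [map_mul, ← e, ← e']; ring
  obtain ⟨M, q, hqM, hqe⟩ := hq _ h2
  have hdeg : p.natDegree ≤ N := by
    by_cases hp0 : p = 0
    · simp [hp0]
    have e1 : Ψ (p * Polynomial.X ^ M) = Ψ (q * Polynomial.X ^ N) := by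
      rw [map_mul, map_mul, map_pow, map_pow, hX, hp, ← hqe]
      have : v⁻¹ ^ N * v ^ N = 1 := by rw [← mul_pow, inv_mul_cancel₀ hv, one_pow]
      calc y * v ^ M = y * v ^ M * (v⁻¹ ^ N * v ^ N) := by rw [this, mul_one]
        _ = _ := by ring
    have e2 := hinj e1
    have e3 := congrArg Polynomial.natDegree e2
    rw [Polynomial.natDegree_mul_X_pow _ hp0] at e3
    have e4 : (q * Polynomial.X ^ N).natDegree ≤ q.natDegree + N := by
      refine Polynomial.natDegree_mul_le.trans ?_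
      have := Polynomial.natDegree_X_pow_le (R := MvPolynomial (Fin 2) ℂ) N
      omega
    omega
  -- w3 ≠ 0
  have hw : fw3 a b v ≠ 0 := by
    intro h0
    have e : Ψ (Polynomial.C (1 + MvPolynomial.X 0 * fc (MvPolynomial.X 0) (MvPolynomial.X 1)) * Polynomial.X
        - Polynomial.C (MvPolynomial.X 0 ^ 2 * fq0 (MvPolynomial.X 0) (MvPolynomial.X 1))) = 0 := by
      rw [map_sub, map_mul, hX, hC, hC, ← h0]
      simp [fw3, fw1, fc, fq0]
      ring
    have e2 := hinj (e.trans (map_zero Ψ).symm)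
    have e3 := congrArg (fun P => P.coeff (0 + 1)) e2
    rw [Polynomial.coeff_sub, Polynomial.coeff_mul_X, Polynomial.coeff_C_zero,
      Polynomial.coeff_C_succ, Polynomial.coeff_zero, sub_zero] at e3
    have e4 := congrArg (MvPolynomial.eval (fun _ => (0 : ℂ))) e3
    simp at e4
  have hvw : v / fw3 a b v = 1 + a * (fw1 a b v / fw3 a b v) := by
    have : v = fw3 a b v + a * fw1 a b v := by unfold fw3; ring
    rw [div_eq_iff hw]
    nth_rewrite 1 [this]
    field_simp
  set A := Algebra.adjoin ℂ ({a, b, fw1 a b v / fw3 a b v, (fw3 a b v)⁻¹} : Set K) with hA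
  have mA : a ∈ A := Algebra.subset_adjoin (by simp)
  have mB : b ∈ A := Algebra.subset_adjoin (by simp)
  have m1 : fw1 a b v / fw3 a b v ∈ A := Algebra.subset_adjoin (by simp)
  have m3 : (fw3 a b v)⁻¹ ∈ A := Algebra.subset_adjoin (by simp)
  have mv : v / fw3 a b v ∈ A := by
    rw [hvw]; exact A.add_mem A.one_mem (A.mul_mem mA m1)
  have mC : ∀ r, Ψ (Polynomial.C r) ∈ A := by
    intro r
    rw [hC]
    induction r using MvPolynomial.induction_on with
    | C c => rw [MvPolynomial.aeval_C]; exact A.algebraMap_mem c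
    | add p q hp hq => rw [map_add]; exact A.add_mem hp hq
    | mul_X p i hp =>
      rw [map_mul, MvPolynomial.aeval_X]
      refine A.mul_mem hp ?_
      fin_cases i
      · exact mA
      · exact mB
  have hs : y = ∑ k ∈ Finset.range (N + 1), Ψ (Polynomial.C (p.coeff k)) * v ^ k := by
    rw [← hp]
    conv_lhs => rw [p.as_sum_range' (N + 1) (by omega)]
    rw [map_sum]
    refine Finset.sum_congr rfl fun k _ => ?_
    rw [← Polynomial.C_mul_X_pow_eq_monomial, map_mul, map_pow, hX]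
  rw [hs, Finset.sum_div]
  refine A.sum_mem fun k hk => ?_
  have hkN : k ≤ N := by have := Finset.mem_range.mp hk; omega
  have e : Ψ (Polynomial.C (p.coeff k)) * v ^ k / fw3 a b v ^ N =
      Ψ (Polynomial.C (p.coeff k)) * (v / fw3 a b v) ^ k * ((fw3 a b v)⁻¹) ^ (N - k) := by
    obtain ⟨j, rfl⟩ := Nat.exists_eq_add_of_le hkN
    rw [Nat.add_sub_cancel_left, div_pow, pow_add, inv_pow]
    field_simp
  rw [e]
  exact A.mul_mem (A.mul_mem (mC _) (A.pow_mem mv _)) (A.pow_mem m3 _)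

end Pool.Agent.Helper447.D71
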