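import Pool.Agent.Helper447.D71.Defs
import Pool.Agent.Helper447.D71.P_nz

set_option autoImplicit false

namespace Pool.Agent.Helper447.D71



theorem alg1_352 {K : Type*} [Field K] (a b w0 w1 w3 : K) (ha : a ≠ 0) (h3 : w3 ≠ 0)
    (rel2 : b ^ 2 * (4 * a + 1) * w0 + (1 + 3 * a ^ 3 + a + b ^ 3) * w1 +
      (3 * a ^ 2 - 4 * b ^ 3 + 1) * w3 = 0) :
    w1 / w3 * ((a⁻¹) ^ 3 + 3 + (a⁻¹) ^ 2 + (b / a) ^ 3) =
      -(3 * a⁻¹ - 4 * (b / a) ^ 3 + (a⁻¹) ^ 3 + (4 * (b / a) ^ 2 + a⁻¹ * (b / a) ^ 2) * (w0 / w3)) := by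
  field_simp
  linear_combination rel2

theorem alg2_352 {K : Type*} [Field K] (a b w0 w1 w3 : K) (ha : a ≠ 0) (h3 : w3 ≠ 0)
    (rel1 : w0 + b * w1 + a = 0) :
    w3⁻¹ = -(a⁻¹ * (w0 / w3)) - (b / a) * (w1 / w3) := by
  field_simp
  linear_combination rel1

theorem r2a {K : Type*} [Field K] [Algebra ℂ K] (a b v : K)
    (hind : AlgebraicIndependent ℂ ![a, b, v]) (z : K)
    (hz : z ∈ Algebra.adjoin ℂ ({a, b, fw1 a b v / fw3 a b v, (fw3 a b v)⁻¹} : Set K)) :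
    ∃ M k : ℕ, z * ((a⁻¹) ^ 3 + 3 + (a⁻¹) ^ 2 + (b / a) ^ 3) ^ M * (a⁻¹) ^ k ∈
      PR a⁻¹ (b / a) (fw0 a b v / fw3 a b v) := by
  obtain ⟨ha, hb, hv, hc, h0, h1, h3, hs, ht, hd⟩ := nz a b v hind
  have rel1 : fw0 a b v + b * fw1 a b v + a = 0 := by
    unfold fw0; ring
  have rel2 : b ^ 2 * (4 * a + 1) * fw0 a b v + (1 + 3 * a ^ 3 + a + b ^ 3) * fw1 a b v +
      (3 * a ^ 2 - 4 * b ^ 3 + 1) * fw3 a b v = 0 := by
    simp only [fw0, fw3, fw1, fq0, fc]; ring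
  have e1 := alg1_352 a b _ _ _ ha h3 rel2
  have e2 := alg2_352 a b _ _ _ ha h3 rel1
  obtain ⟨R, hR⟩ : ∃ R, R = PR a⁻¹ (b / a) (fw0 a b v / fw3 a b v) := ⟨_, rfl⟩
  obtain ⟨Q, hQ⟩ : ∃ Q : K, Q = (a⁻¹) ^ 3 + 3 + (a⁻¹) ^ 2 + (b / a) ^ 3 := ⟨_, rfl⟩
  rw [← hQ] at e1 ⊢
  rw [← hR]
  have m0 : a⁻¹ ∈ R := by
    rw [hR]; exact Algebra.subset_adjoin (by simp)
  have m1 : b / a ∈ R := by
    rw [hR]; exact Algebra.subset_adjoin (by simp)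
  have m2 : fw0 a b v / fw3 a b v ∈ R := by
    rw [hR]; exact Algebra.subset_adjoin (by simp)
  have n3 : (3 : K) ∈ R := by exact_mod_cast natCast_mem R 3
  have n4 : (4 : K) ∈ R := by exact_mod_cast natCast_mem R 4
  have mQ : Q ∈ R := by
    rw [hQ]
    exact R.add_mem (R.add_mem (R.add_mem (R.pow_mem m0 3) n3) (R.pow_mem m0 2)) (R.pow_mem m1 3)
  have mE : 3 * a⁻¹ - 4 * (b / a) ^ 3 + (a⁻¹) ^ 3 +
      (4 * (b / a) ^ 2 + a⁻¹ * (b / a) ^ 2) * (fw0 a b v / fw3 a b v) ∈ R :=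
    R.add_mem (R.add_mem (R.sub_mem (R.mul_mem n3 m0) (R.mul_mem n4 (R.pow_mem m1 3)))
      (R.pow_mem m0 3)) (R.mul_mem (R.add_mem (R.mul_mem n4 (R.pow_mem m1 2))
        (R.mul_mem m0 (R.pow_mem m1 2))) m2)
  have mup : ∀ {z : K} {M k M' k' : ℕ}, z * Q ^ M * (a⁻¹) ^ k ∈ R →
      z * Q ^ (M + M') * (a⁻¹) ^ (k + k') ∈ R := by
    intro z M k M' k' h
    have : z * Q ^ (M + M') * (a⁻¹) ^ (k + k') =
        (z * Q ^ M * (a⁻¹) ^ k) * (Q ^ M' * (a⁻¹) ^ k') := by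
      rw [pow_add, pow_add]; ring
    rw [this]
    exact R.mul_mem h (R.mul_mem (R.pow_mem mQ _) (R.pow_mem m0 _))
  have hind := Algebra.adjoin_induction (R := ℂ)
    (s := ({a, b, fw1 a b v / fw3 a b v, (fw3 a b v)⁻¹} : Set K))
    (p := fun z _ => ∃ M k : ℕ, z * Q ^ M * (a⁻¹) ^ k ∈ R) ?_ ?_ ?_ ?_ hz
  · exact hind
  · intro x hx
    simp only [Set.mem_insert_iff, Set.mem_singleton_iff] at hx
    rcases hx with rfl | rfl | rfl | rfl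
    · refine ⟨0, 1, ?_⟩
      rw [pow_zero, mul_one, pow_one, mul_inv_cancel₀ ha]
      exact R.one_mem
    · refine ⟨0, 1, ?_⟩
      rw [pow_zero, mul_one, pow_one, ← div_eq_mul_inv]
      exact m1
    · refine ⟨1, 0, ?_⟩
      rw [pow_zero, mul_one, pow_one, e1]
      exact R.neg_mem mE
    · refine ⟨1, 0, ?_⟩
      rw [pow_zero, mul_one, pow_one, e2]
      have : (-(a⁻¹ * (fw0 a b v / fw3 a b v)) - b / a * (fw1 a b v / fw3 a b v)) * Q =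
          -(a⁻¹ * (fw0 a b v / fw3 a b v)) * Q - b / a * (fw1 a b v / fw3 a b v * Q) := by ring
      rw [this, e1]
      exact R.sub_mem (R.mul_mem (R.neg_mem (R.mul_mem m0 m2)) mQ) (R.mul_mem m1 (R.neg_mem mE))
  · intro c
    refine ⟨0, 0, ?_⟩
    rw [pow_zero, mul_one, pow_zero, mul_one, hR]
    exact Subalgebra.algebraMap_mem _ c
  · rintro x y - - ⟨M, k, hx⟩ ⟨M', k', hy⟩
    refine ⟨M + M', k + k', ?_⟩
    rw [add_mul, add_mul]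
    refine R.add_mem (mup hx) ?_
    have := mup (M' := M) (k' := k) hy
    rwa [add_comm M', add_comm k'] at this
  · rintro x y - - ⟨M, k, hx⟩ ⟨M', k', hy⟩
    refine ⟨M + M', k + k', ?_⟩
    have : x * y * Q ^ (M + M') * (a⁻¹) ^ (k + k') =
        (x * Q ^ M * (a⁻¹) ^ k) * (y * Q ^ M' * (a⁻¹) ^ k') := by
      rw [pow_add, pow_add]; ring
    rw [this]
    exact R.mul_mem hx hy

end Pool.Agent.Helper447.D71
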