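import Pool.Agent.Helper447.D71.Defs
import Pool.Agent.Helper447.D71.P_nz

set_option autoImplicit false

namespace Pool.Agent.Helper447.D71



theorem r2b {K : Type*} [Field K] [Algebra ℂ K] (a b v : K)
    (hind : AlgebraicIndependent ℂ ![a, b, v]) (z : K) (N : ℕ) (hz : z ∈ P1 a b v) :
    ∃ M : ℕ, (z * (a / b) / fw3 a b v ^ N) * (((a⁻¹) ^ 3 + 3 + (a⁻¹) ^ 2 + (b / a) ^ 3) * ((b / a) * fD2 a b v)) ^ M ∈
      PR a⁻¹ (b / a) (fw0 a b v / fw3 a b v) := by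
  obtain ⟨ha, hb, hv, hc, h0, h1, h3, hs, ht, hde⟩ := nz a b v hind
  set w0 := fw0 a b v with hw0
  set w1 := fw1 a b v with hw1
  set w3 := fw3 a b v with hw3
  set D := fD2 a b v with hD
  have rel1 : w0 + b * w1 + a = 0 := by
    rw [hw0, hw1]; unfold fw0; ring
  have rel2 : fq0 a b * w0 + fq1 a b * w1 + fc a b * w3 = 0 := by
    rw [hw0, hw1, hw3]; unfold fw3 fw0 fw1 fq0 fq1 fc; ring
  set X0 : K := a⁻¹ with hX0
  set X1 : K := b / a with hX1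
  set W0 : K := w0 / w3 with hW0
  set q : K := X0 ^ 3 + 3 + X0 ^ 2 + X1 ^ 3 with hq
  have hDdef : D = -X0 * W0 * q + X1 * (3 * X0 - 4 * X1 ^ 3 + X0 ^ 3
      + (4 * X1 ^ 2 + X0 * X1 ^ 2) * W0) := by
    rw [hD]; unfold fD2
    rw [← hw0, ← hw3, ← hW0]
  have aX0 : a * X0 = 1 := by rw [hX0]; exact mul_inv_cancel₀ ha
  have aX1 : a * X1 = b := by rw [hX1]; field_simp
  have W3 : w3 * W0 = w0 := by rw [hW0]; field_simp
  have a3q : a ^ 3 * q = fq1 a b := by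
    have : a ^ 3 * q = (a * X0) ^ 3 + 3 * a ^ 3 + a * (a * X0) ^ 2 + (a * X1) ^ 3 := by
      rw [hq]; ring
    rw [this, aX0, aX1]; unfold fq1; ring
  have hE : w3 * D = q := by
    have ha4 : a ^ 4 ≠ 0 := pow_ne_zero _ ha
    apply mul_left_cancel₀ ha4
    have e1 : a ^ 4 * (w3 * D) = -(a * X0) * (w3 * W0) * (a ^ 3 * q)
        + (a * X1) * ((3 * a ^ 2 * (a * X0) - 4 * (a * X1) ^ 3 + (a * X0) ^ 3) * w3
          + (4 * a * (a * X1) ^ 2 + (a * X0) * (a * X1) ^ 2) * (w3 * W0)) := by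
      rw [hDdef]; ring
    have e2 : a ^ 4 * q = a * (a ^ 3 * q) := by ring
    rw [e1, e2, aX0, aX1, W3, a3q]
    have r2 := rel2
    unfold fq0 fq1 fc at r2
    unfold fq1
    linear_combination b * r2 - (1 + 3 * a ^ 3 + a + b ^ 3) * rel1
  have hE0 : w0 * D = W0 * q := by rw [← hE, ← W3]; ring
  have hE1 : w1 * D = -(3 * X0 - 4 * X1 ^ 3 + X0 ^ 3 + (4 * X1 ^ 2 + X0 * X1 ^ 2) * W0) := by
    apply mul_left_cancel₀ hb
    have e1 : b * (w1 * D) = -(w0 * D) - a * D := by linear_combination D * rel1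
    have e2 : a * D = -(a * X0) * W0 * q + (a * X1) * (3 * X0 - 4 * X1 ^ 3 + X0 ^ 3
      + (4 * X1 ^ 2 + X0 * X1 ^ 2) * W0) := by rw [hDdef]; ring
    rw [e1, e2, hE0, aX0, aX1]; ring
  have hE3 : w3⁻¹ * q = D := by rw [← hE]; field_simp
  -- membership
  have m0 : X0 ∈ PR X0 X1 W0 := Algebra.subset_adjoin (by simp)
  have m1 : X1 ∈ PR X0 X1 W0 := Algebra.subset_adjoin (by simp)
  have mW : W0 ∈ PR X0 X1 W0 := Algebra.subset_adjoin (by simp)
  set R := PR X0 X1 W0 with hR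
  have mc : ∀ c : ℂ, algebraMap ℂ K c ∈ R := fun c =>
    (Algebra.adjoin ℂ ({X0, X1, W0} : Set K)).algebraMap_mem c
  have m3 : (3 : K) ∈ R := by exact_mod_cast natCast_mem R 3
  have m4 : (4 : K) ∈ R := by exact_mod_cast natCast_mem R 4
  have mq : q ∈ R := by
    rw [hq]
    exact R.add_mem (R.add_mem (R.add_mem (R.pow_mem m0 _) m3) (R.pow_mem m0 _)) (R.pow_mem m1 _)
  have mP : 3 * X0 - 4 * X1 ^ 3 + X0 ^ 3 + (4 * X1 ^ 2 + X0 * X1 ^ 2) * W0 ∈ R :=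
    R.add_mem (R.add_mem (R.sub_mem (R.mul_mem m3 m0) (R.mul_mem m4 (R.pow_mem m1 _)))
      (R.pow_mem m0 _)) (R.mul_mem (R.add_mem (R.mul_mem m4 (R.pow_mem m1 _))
        (R.mul_mem m0 (R.pow_mem m1 _))) mW)
  have mD : D ∈ R := by
    rw [hDdef]
    exact R.add_mem (R.mul_mem (R.mul_mem (R.neg_mem m0) mW) mq) (R.mul_mem m1 mP)
  have mT : q * (X1 * D) ∈ R := R.mul_mem mq (R.mul_mem m1 mD)
  let SA : Subalgebra ℂ K :=
    { away R ⟨q * (X1 * D), mT⟩ with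
      algebraMap_mem' := fun c => ⟨0, by simpa using mc c⟩ }
  have memSA : ∀ y : K, y ∈ SA ↔ ∃ n : ℕ, y * (q * (X1 * D)) ^ n ∈ R := fun y => Iff.rfl
  have gb : b⁻¹ ∈ SA := (memSA _).2 ⟨1, by
    have : b⁻¹ * (q * (X1 * D)) ^ 1 = X0 * (q * D) := by
      rw [hX1, hX0]; field_simp
    rw [this]; exact R.mul_mem m0 (R.mul_mem mq mD)⟩
  have gab : a / b ∈ SA := (memSA _).2 ⟨1, by
    have : a / b * (q * (X1 * D)) ^ 1 = q * D := by
      rw [hX1]; field_simp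
    rw [this]; exact R.mul_mem mq mD⟩
  have g0 : w0 ∈ SA := (memSA _).2 ⟨1, by
    have : w0 * (q * (X1 * D)) ^ 1 = q * X1 * (w0 * D) := by ring
    rw [this, hE0]; exact R.mul_mem (R.mul_mem mq m1) (R.mul_mem mW mq)⟩
  have g1 : w1 ∈ SA := (memSA _).2 ⟨1, by
    have : w1 * (q * (X1 * D)) ^ 1 = q * X1 * (w1 * D) := by ring
    rw [this, hE1]; exact R.mul_mem (R.mul_mem mq m1) (R.neg_mem mP)⟩
  have g3 : w3 ∈ SA := (memSA _).2 ⟨1, by
    have : w3 * (q * (X1 * D)) ^ 1 = q * X1 * (w3 * D) := by ring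
    rw [this, hE]; exact R.mul_mem (R.mul_mem mq m1) mq⟩
  have g3i : w3⁻¹ ∈ SA := (memSA _).2 ⟨1, by
    have : w3⁻¹ * (q * (X1 * D)) ^ 1 = (w3⁻¹ * q) * (X1 * D) := by ring
    rw [this, hE3]; exact R.mul_mem mD (R.mul_mem m1 mD)⟩
  have hzSA : z ∈ SA := by
    have hle : Algebra.adjoin ℂ ({b⁻¹, a / b, w0, w1, w3} : Set K) ≤ SA := by
      apply Algebra.adjoin_le
      intro y hy
      simp only [Set.mem_insert_iff, Set.mem_singleton_iff] at hy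
      rcases hy with rfl | rfl | rfl | rfl | rfl
      · exact gb
      · exact gab
      · exact g0
      · exact g1
      · exact g3
    exact hle hz
  have hfin : z * (a / b) / w3 ^ N ∈ SA := by
    rw [div_eq_mul_inv (z * (a / b)), ← inv_pow]
    exact SA.mul_mem (SA.mul_mem hzSA gab) (SA.pow_mem g3i N)
  exact (memSA _).1 hfin

end Pool.Agent.Helper447.D71
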