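import Pool.Agent.Helper447.D71.Defs

set_option autoImplicit false

namespace Pool.Agent.Helper447.D71



theorem r2nd {K : Type*} [Field K] [Algebra ℂ K] (a b v : K)
    (hind : AlgebraicIndependent ℂ ![a⁻¹, b / a, fw0 a b v / fw3 a b v]) :
    ((a⁻¹) ^ 3 + 3 + (a⁻¹) ^ 2 + (b / a) ^ 3) * ((b / a) * fD2 a b v) ∈
      PR a⁻¹ (b / a) (fw0 a b v / fw3 a b v) ∧
    (a⁻¹)⁻¹ * (((a⁻¹) ^ 3 + 3 + (a⁻¹) ^ 2 + (b / a) ^ 3) * ((b / a) * fD2 a b v)) ∉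
      PR a⁻¹ (b / a) (fw0 a b v / fw3 a b v) := by
  obtain ⟨x, hx⟩ : ∃ x, x = a⁻¹ := ⟨_, rfl⟩
  obtain ⟨y, hy⟩ : ∃ y, y = b / a := ⟨_, rfl⟩
  obtain ⟨z, hz⟩ : ∃ z, z = fw0 a b v / fw3 a b v := ⟨_, rfl⟩
  have hD : fD2 a b v = -x * z * (x ^ 3 + 3 + x ^ 2 + y ^ 3) +
      y * (3 * x - 4 * y ^ 3 + x ^ 3 + (4 * y ^ 2 + x * y ^ 2) * z) := by
    rw [hx, hy, hz]; rfl
  rw [hD, ← hx, ← hy, ← hz]
  rw [← hx, ← hy, ← hz] at hind
  have hmem : ∀ w : K, w ∈ PR x y z ↔ ∃ p : MvPolynomial (Fin 3) ℂ,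
      MvPolynomial.aeval ![x, y, z] p = w := by
    intro w
    have h1 : (Algebra.adjoin ℂ ({x, y, z} : Set K)) =
        (MvPolynomial.aeval (R := ℂ) ![x, y, z]).range := by
      rw [← Algebra.adjoin_range_eq_range_aeval]
      congr 1
      ext t
      simp only [Set.mem_insert_iff, Set.mem_singleton_iff, Set.mem_range]
      constructor
      · rintro (h | h | h)
        · exact ⟨0, h.symm⟩
        · exact ⟨1, h.symm⟩
        · exact ⟨2, h.symm⟩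
      · rintro ⟨i, hi⟩
        fin_cases i
        · exact Or.inl hi.symm
        · exact Or.inr (Or.inl hi.symm)
        · exact Or.inr (Or.inr hi.symm)
    change w ∈ Algebra.adjoin ℂ ({x, y, z} : Set K) ↔ _
    rw [h1]
    rfl
  obtain ⟨P, hP⟩ : ∃ P : MvPolynomial (Fin 3) ℂ, P =
      ((MvPolynomial.X 0) ^ 3 + 3 + (MvPolynomial.X 0) ^ 2 + (MvPolynomial.X 1) ^ 3) *
      ((MvPolynomial.X 1) * (-(MvPolynomial.X 0) * (MvPolynomial.X 2) *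
        ((MvPolynomial.X 0) ^ 3 + 3 + (MvPolynomial.X 0) ^ 2 + (MvPolynomial.X 1) ^ 3) +
      (MvPolynomial.X 1) * (3 * (MvPolynomial.X 0) - 4 * (MvPolynomial.X 1) ^ 3 +
        (MvPolynomial.X 0) ^ 3 + (4 * (MvPolynomial.X 1) ^ 2 +
          (MvPolynomial.X 0) * (MvPolynomial.X 1) ^ 2) * (MvPolynomial.X 2)))) := ⟨_, rfl⟩
  have hPE : MvPolynomial.aeval ![x, y, z] P = (x ^ 3 + 3 + x ^ 2 + y ^ 3) *
      (y * (-x * z * (x ^ 3 + 3 + x ^ 2 + y ^ 3) +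
        y * (3 * x - 4 * y ^ 3 + x ^ 3 + (4 * y ^ 2 + x * y ^ 2) * z))) := by
    rw [hP]
    simp only [map_mul, map_add, map_sub, map_neg, map_pow, MvPolynomial.aeval_X, map_ofNat]
    rfl
  rw [← hPE]
  refine ⟨(hmem _).2 ⟨P, rfl⟩, ?_⟩
  intro hcon
  obtain ⟨Q, hQ⟩ := (hmem _).1 hcon
  have hx0 : x ≠ 0 := hind.ne_zero (0 : Fin 3)
  have h2 : MvPolynomial.aeval ![x, y, z] P =
      MvPolynomial.aeval ![x, y, z] (MvPolynomial.X 0 * Q) := by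
    rw [map_mul, hQ, MvPolynomial.aeval_X]
    change _ = x * (x⁻¹ * _)
    rw [mul_inv_cancel_left₀ hx0]
  have h3 : P = MvPolynomial.X 0 * Q := hind h2
  have h4 := congrArg (MvPolynomial.eval (![0, 1, 0] : Fin 3 → ℂ)) h3
  rw [hP] at h4
  simp at h4
  norm_num at h4

end Pool.Agent.Helper447.D71
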