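import Pool.Agent.Helper447.D71.Defs
import Pool.Agent.Helper447.D71.P_alg3
import Pool.Agent.Helper447.D71.P_prime1
import Pool.Agent.Helper447.D71.P_nz
import Pool.Agent.Helper447.D71.P_genR2
import Pool.Agent.Helper447.D71.P_homB
import Pool.Agent.Helper447.D71.P_compl
import Pool.Agent.Helper447.D71.P_r2a
import Pool.Agent.Helper447.D71.P_r2b
import Pool.Agent.Helper447.D71.P_r2nd

set_option autoImplicit false

namespace Pool.Agent.Helper447.D71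



theorem r2fin {K : Type*} [Field K] [Algebra ℂ K] (hK : Algebra.trdeg ℂ K = 3) (a b v : K)
    (hind : AlgebraicIndependent ℂ ![a, b, v]) (hgen : IsGen a b v) (y : K) (N : ℕ)
    (h1 : y ∈ PR a b v) (h2 : y * v⁻¹ ^ N ∈ PR v⁻¹ a b) (h3 : b * y ∈ P1 a b v) :
    ∃ M : ℕ, (y * a / fw3 a b v ^ N) * ((a⁻¹) ^ 3 + 3 + (a⁻¹) ^ 2 + (b / a) ^ 3) ^ M ∈
      PR a⁻¹ (b / a) (fw0 a b v / fw3 a b v) := by
  obtain ⟨ha, hb, hv, -, -, -, hw3, -⟩ := nz a b v hind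
  have hind2 : AlgebraicIndependent ℂ ![a⁻¹, b / a, fw0 a b v / fw3 a b v] :=
    alg3 hK _ _ _ (genR2 a b v hind hgen)
  obtain ⟨M, k, hMk⟩ := r2a a b v hind _ (homB a b v hind y N h1 h2)
  obtain ⟨m, hm⟩ := r2b a b v hind (b * y) N h3
  obtain ⟨hd, hnd⟩ := r2nd a b v hind2
  set R2 := PR a⁻¹ (b / a) (fw0 a b v / fw3 a b v) with hR2
  have hmem : ∀ x ∈ ({a⁻¹, b / a, fw0 a b v / fw3 a b v} : Set K), x ∈ R2 := fun x hx =>
    Algebra.subset_adjoin hx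
  have ha' : a⁻¹ ∈ R2 := hmem _ (by simp)
  have hba : b / a ∈ R2 := hmem _ (by simp)
  have h3' : (3 : K) ∈ R2 := by
    have := natCast_mem R2 3
    exact_mod_cast this
  have hq : ((a⁻¹) ^ 3 + 3 + (a⁻¹) ^ 2 + (b / a) ^ 3) ∈ R2 :=
    R2.add_mem (R2.add_mem (R2.add_mem (R2.pow_mem ha' 3) h3') (R2.pow_mem ha' 2)) (R2.pow_mem hba 3)
  set q := ((a⁻¹) ^ 3 + 3 + (a⁻¹) ^ 2 + (b / a) ^ 3) with hqdef
  refine ⟨M, compl R2 a⁻¹ (q * ((b / a) * fD2 a b v)) ha' (inv_ne_zero ha) hd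
    (prime1 _ _ _ hind2) hnd _ (k + 1) m ?_ ?_⟩
  · have : (y * a / fw3 a b v ^ N) * q ^ M * a⁻¹ ^ (k + 1)
        = y / fw3 a b v ^ N * q ^ M * a⁻¹ ^ k := by
      rw [pow_succ]
      field_simp
    rw [this]
    exact hMk
  · have : (y * a / fw3 a b v ^ N) * q ^ M * (q * ((b / a) * fD2 a b v)) ^ m
        = (b * y * (a / b) / fw3 a b v ^ N) * (q * ((b / a) * fD2 a b v)) ^ m * q ^ M := by
      have e : b * y * (a / b) = y * a := by field_simp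
      rw [e]; ring
    rw [this]
    exact R2.mul_mem hm (R2.pow_mem hq M)

end Pool.Agent.Helper447.D71
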