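import Pool.Agent.Helper447.D71.Defs

set_option autoImplicit false

namespace Pool.Agent.Helper447.D71



/-- `z` lies in `D` and its reduction is a constant -/
def EtaP {K : Type*} [Field K] (D : Subring K) (Ψ : D →+* PowerSeries (RatFunc ℂ)) (z : K) : Prop :=
  ∃ hz : z ∈ D, ∃ c : ℂ, PowerSeries.constantCoeff (Ψ ⟨z, hz⟩) = RatFunc.C c

theorem etaP_div {K : Type*} [Field K] (D : Subring K) (Ψ : D →+* PowerSeries (RatFunc ℂ))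
    {x s z : K} (hx : EtaP D Ψ x) (hs : EtaP D Ψ s) (hz : z ∈ D) (hs0 : s ≠ 0) (hsi : s⁻¹ ∈ D)
    (hzs : z * s = x) : EtaP D Ψ z := by
  obtain ⟨hxD, cx, hcx⟩ := hx
  obtain ⟨hsD, cs, hcs⟩ := hs
  have e1 : (⟨z, hz⟩ : D) * ⟨s, hsD⟩ = ⟨x, hxD⟩ := Subtype.ext hzs
  have e2 : (⟨s, hsD⟩ : D) * ⟨s⁻¹, hsi⟩ = 1 := Subtype.ext (mul_inv_cancel₀ hs0)
  have f1 : PowerSeries.constantCoeff (Ψ ⟨z, hz⟩) * PowerSeries.constantCoeff (Ψ ⟨s, hsD⟩)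
      = PowerSeries.constantCoeff (Ψ ⟨x, hxD⟩) := by
    rw [← map_mul, ← map_mul, e1]
  have f2 : PowerSeries.constantCoeff (Ψ ⟨s, hsD⟩) * PowerSeries.constantCoeff (Ψ ⟨s⁻¹, hsi⟩)
      = 1 := by
    rw [← map_mul, ← map_mul, e2, map_one, map_one]
  have hcs0 : (RatFunc.C cs : RatFunc ℂ) ≠ 0 := by
    intro h0
    rw [hcs, h0, zero_mul] at f2
    exact zero_ne_one f2
  refine ⟨hz, cx / cs, ?_⟩
  rw [hcs, hcx] at f1
  rw [map_div₀, eq_div_iff hcs0]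
  exact f1

theorem etaFin {K : Type*} [Field K] [Algebra ℂ K] (a b v : K)
    (O D : Subring K) (Ψ : D →+* PowerSeries (RatFunc ℂ)) (h : EtaO a b v O D Ψ) (n : ℕ)
    (y : Fin n → K) (hy : ∀ j, y j ∈ PR a b v) (i : Fin n) (hi : y i ≠ 0)
    (hij : ∀ j, y j / y i ∈ O) (h1 : y i ∈ O) (h2 : (y i)⁻¹ ∈ O)
    (hloc : ∀ z ∈ O, ∃ x ∈ Algebra.adjoin ℂ (Set.range fun j => y j / y i),
      ∃ s ∈ Algebra.adjoin ℂ (Set.range fun j => y j / y i), s ≠ 0 ∧ s⁻¹ ∈ O ∧ z * s = x) : False := by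
  have hPR : ∀ f ∈ PR a b v, EtaP D Ψ f := fun f hf => ⟨h.PD hf, h.pc f (h.PD hf) hf⟩
  have hall : ∀ z ∈ Algebra.adjoin ℂ (Set.range fun j => y j / y i), EtaP D Ψ z := by
    intro z hz
    induction hz using Algebra.adjoin_induction with
    | mem x hx =>
      obtain ⟨j, rfl⟩ := hx
      exact etaP_div D Ψ (hPR _ (hy j)) (hPR _ (hy i)) (h.OD (hij j)) hi (h.OD h2)
        (div_mul_cancel₀ _ hi)
    | algebraMap c => exact hPR _ ((Algebra.adjoin ℂ ({a, b, v} : Set K)).algebraMap_mem c)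
    | add x z _ _ hx hz =>
      obtain ⟨hxD, cx, hcx⟩ := hx
      obtain ⟨hzD, cz, hcz⟩ := hz
      refine ⟨D.add_mem hxD hzD, cx + cz, ?_⟩
      have e : (⟨x + z, D.add_mem hxD hzD⟩ : D) = ⟨x, hxD⟩ + ⟨z, hzD⟩ := rfl
      rw [e, map_add, map_add, hcx, hcz, map_add]
    | mul x z _ _ hx hz =>
      obtain ⟨hxD, cx, hcx⟩ := hx
      obtain ⟨hzD, cz, hcz⟩ := hz
      refine ⟨D.mul_mem hxD hzD, cx * cz, ?_⟩
      have e : (⟨x * z, D.mul_mem hxD hzD⟩ : D) = ⟨x, hxD⟩ * ⟨z, hzD⟩ := rfl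
      rw [e, map_mul, map_mul, hcx, hcz, map_mul]
  obtain ⟨ρ, hρD, hρO, hρ⟩ := h.rho
  obtain ⟨x, hx, s, hs, hs0, hsi, hzs⟩ := hloc ρ hρO
  obtain ⟨_, hc⟩ := etaP_div D Ψ (hall x hx) (hall s hs) hρD hs0 (h.OD hsi) hzs
  exact hρ hc

end Pool.Agent.Helper447.D71
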