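import Pool.Agent.Helper447.D71.Defs

set_option autoImplicit false

namespace Pool.Agent.Helper447.D71


/-- auxiliary relation -/
def ExtRel {K : Type*} [Field K] {R W : Type*} [CommRing R] [Algebra R K]
    [CommRing W] (Φ : R →+* W) (z : K) (q : W) : Prop :=
  ∃ x s : R, Φ s ≠ 0 ∧ z * algebraMap R K s = algebraMap R K x ∧ q * Φ s = Φ x

theorem extRel_unique {K : Type*} [Field K] {R W : Type*} [CommRing R] [IsDomain R] [Algebra R K]
    [IsFractionRing R K] [CommRing W] [IsDomain W] (Φ : R →+* W) {z : K} {q q' : W}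
    (h : ExtRel Φ z q) (h' : ExtRel Φ z q') : q = q' := by
  obtain ⟨x, s, hs, hz, hq⟩ := h
  obtain ⟨x', s', hs', hz', hq'⟩ := h'
  have h1 : x * s' = x' * s := by
    apply IsFractionRing.injective R K
    rw [map_mul, map_mul, ← hz, ← hz']
    ring
  have h2 : Φ x * Φ s' = Φ x' * Φ s := by
    rw [← map_mul, ← map_mul, h1]
  rw [← hq, ← hq'] at h2
  have h3 : (q - q') * (Φ s * Φ s') = 0 := by
    linear_combination h2
  rcases mul_eq_zero.1 h3 with h4 | h4
  · exact sub_eq_zero.1 h4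
  · rcases mul_eq_zero.1 h4 with h5 | h5
    · exact absurd h5 hs
    · exact absurd h5 hs'

theorem extRel_map {K : Type*} [Field K] {R W : Type*} [CommRing R] [Algebra R K]
    [CommRing W] [IsDomain W] (Φ : R →+* W) (r : R) :
    ExtRel (K := K) Φ (algebraMap R K r) (Φ r) :=
  ⟨r, 1, by rw [map_one]; exact one_ne_zero, by rw [map_one, mul_one], by rw [map_one, mul_one]⟩

theorem extRel_add {K : Type*} [Field K] {R W : Type*} [CommRing R] [Algebra R K]
    [CommRing W] [IsDomain W] (Φ : R →+* W) {z z' : K} {q q' : W}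
    (h : ExtRel Φ z q) (h' : ExtRel Φ z' q') : ExtRel Φ (z + z') (q + q') := by
  obtain ⟨x, s, hs, hz, hq⟩ := h
  obtain ⟨x', s', hs', hz', hq'⟩ := h'
  refine ⟨x * s' + x' * s, s * s', ?_, ?_, ?_⟩
  · rw [map_mul]; exact mul_ne_zero hs hs'
  · rw [map_mul, map_add, map_mul, map_mul, ← hz, ← hz']; ring
  · rw [map_mul, map_add, map_mul, map_mul, ← hq, ← hq']; ring

theorem extRel_mul {K : Type*} [Field K] {R W : Type*} [CommRing R] [Algebra R K]
    [CommRing W] [IsDomain W] (Φ : R →+* W) {z z' : K} {q q' : W}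
    (h : ExtRel Φ z q) (h' : ExtRel Φ z' q') : ExtRel Φ (z * z') (q * q') := by
  obtain ⟨x, s, hs, hz, hq⟩ := h
  obtain ⟨x', s', hs', hz', hq'⟩ := h'
  refine ⟨x * x', s * s', ?_, ?_, ?_⟩
  · rw [map_mul]; exact mul_ne_zero hs hs'
  · rw [map_mul, map_mul, ← hz, ← hz']; ring
  · rw [map_mul, map_mul, ← hq, ← hq']; ring

theorem extRel_neg {K : Type*} [Field K] {R W : Type*} [CommRing R] [Algebra R K]
    [CommRing W] (Φ : R →+* W) {z : K} {q : W}
    (h : ExtRel Φ z q) : ExtRel Φ (-z) (-q) := by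
  obtain ⟨x, s, hs, hz, hq⟩ := h
  refine ⟨-x, s, hs, ?_, ?_⟩
  · rw [map_neg, ← hz]; ring
  · rw [map_neg, ← hq]; ring

/-- the domain of the extension -/
def extDom {K : Type*} [Field K] {R W : Type*} [CommRing R] [Algebra R K]
    [CommRing W] [IsDomain W] (Φ : R →+* W) : Subring K where
  carrier := {z | ∃ q, ExtRel Φ z q}
  mul_mem' := fun ⟨q, hq⟩ ⟨q', hq'⟩ => ⟨q * q', extRel_mul Φ hq hq'⟩
  one_mem' := ⟨1, by simpa using extRel_map (K := K) Φ (1 : R)⟩
  add_mem' := fun ⟨q, hq⟩ ⟨q', hq'⟩ => ⟨q + q', extRel_add Φ hq hq'⟩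
  zero_mem' := ⟨0, by simpa using extRel_map (K := K) Φ (0 : R)⟩
  neg_mem' := fun ⟨q, hq⟩ => ⟨-q, extRel_neg Φ hq⟩

/-- the extension -/
noncomputable def extMap {K : Type*} [Field K] {R W : Type*} [CommRing R] [IsDomain R]
    [Algebra R K] [IsFractionRing R K] [CommRing W] [IsDomain W] (Φ : R →+* W) :
    extDom (K := K) Φ →+* W where
  toFun := fun z => z.2.choose
  map_one' := extRel_unique Φ (Exists.choose_spec (extDom (K := K) Φ).one_mem)
    (by simpa using extRel_map (K := K) Φ (1 : R))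
  map_mul' := fun x y => extRel_unique Φ (Exists.choose_spec (x * y).2)
    (extRel_mul Φ x.2.choose_spec y.2.choose_spec)
  map_zero' := extRel_unique Φ (Exists.choose_spec (extDom (K := K) Φ).zero_mem)
    (by simpa using extRel_map (K := K) Φ (0 : R))
  map_add' := fun x y => extRel_unique Φ (Exists.choose_spec (x + y).2)
    (extRel_add Φ x.2.choose_spec y.2.choose_spec)

theorem extMap_spec {K : Type*} [Field K] {R W : Type*} [CommRing R] [IsDomain R]
    [Algebra R K] [IsFractionRing R K] [CommRing W] [IsDomain W] (Φ : R →+* W)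
    (z : extDom (K := K) Φ) : ExtRel Φ (z : K) (extMap Φ z) :=
  z.2.choose_spec

theorem ext_hom {K : Type*} [Field K] {R W : Type*} [CommRing R] [IsDomain R] [Algebra R K]
    [IsFractionRing R K] [CommRing W] [IsDomain W] (Φ : R →+* W) :
    ∃ (D : Subring K) (Ψ : D →+* W), (∀ r : R, ∃ h : algebraMap R K r ∈ D, Ψ ⟨_, h⟩ = Φ r) ∧
      ∀ (z : K) (x y : D) (q : W), z * y = x → Ψ y ≠ 0 → Ψ x = q * Ψ y →
        ∃ hz : z ∈ D, Ψ ⟨z, hz⟩ = q := by
  refine ⟨extDom Φ, extMap Φ, ?_, ?_⟩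
  · intro r
    refine ⟨⟨Φ r, extRel_map Φ r⟩, ?_⟩
    exact extRel_unique Φ (extMap_spec Φ _) (extRel_map Φ r)
  · intro z x y q hzy hy hx
    obtain ⟨x1, t, ht, hxt, hxq⟩ := extMap_spec Φ x
    obtain ⟨y1, s, hs, hys, hyq⟩ := extMap_spec Φ y
    have hrel : ExtRel Φ z q := by
      refine ⟨x1 * s, y1 * t, ?_, ?_, ?_⟩
      · rw [map_mul, ← hyq]
        exact mul_ne_zero (mul_ne_zero hy hs) ht
      · rw [map_mul, map_mul, ← hxt, ← hys, ← hzy]; ring
      · rw [map_mul, map_mul, ← hxq, ← hyq, hx]; ring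
    exact ⟨⟨q, hrel⟩, extRel_unique Φ (extMap_spec Φ _) hrel⟩

end Pool.Agent.Helper447.D71
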