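import Pool.Agent.Helper447.D71.Defs
import Pool.Agent.Helper447.D71.P_ext_hom

set_option autoImplicit false

namespace Pool.Agent.Helper447.D71



theorem etaD {K : Type*} [Field K] [Algebra ℂ K] (a b v : K)
    (hind : AlgebraicIndependent ℂ ![a, b, v]) (hgen : IsGen a b v) :
    ∃ (D : Subring K) (Ψ : D →+* PowerSeries (RatFunc ℂ)), PsiD a b v D Ψ := by
  letI : Algebra (MvPolynomial (Fin 3) ℂ) K :=
    (MvPolynomial.aeval (R := ℂ) ![a, b, v]).toRingHom.toAlgebra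
  have hmap : ∀ p : MvPolynomial (Fin 3) ℂ,
      algebraMap (MvPolynomial (Fin 3) ℂ) K p = MvPolynomial.aeval (R := ℂ) ![a, b, v] p :=
    fun p => rfl
  have hinj : Function.Injective (algebraMap (MvPolynomial (Fin 3) ℂ) K) := by
    intro p q h
    exact hind h
  haveI : FaithfulSMul (MvPolynomial (Fin 3) ℂ) K :=
    (faithfulSMul_iff_algebraMap_injective _ _).2 hinj
  have hrange : Set.range ![a, b, v] = ({a, b, v} : Set K) := by
    ext k
    simp only [Set.mem_range, Set.mem_insert_iff, Set.mem_singleton_iff]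
    constructor
    · rintro ⟨i, rfl⟩
      fin_cases i <;> simp
    · rintro (rfl | rfl | rfl)
      · exact ⟨0, rfl⟩
      · exact ⟨1, rfl⟩
      · exact ⟨2, rfl⟩
  have hPR : ∀ f ∈ PR a b v, ∃ p : MvPolynomial (Fin 3) ℂ,
      algebraMap (MvPolynomial (Fin 3) ℂ) K p = f := by
    intro f hf
    have hf' : f ∈ Algebra.adjoin ℂ (Set.range ![a, b, v]) := by
      rw [hrange]; exact hf
    rw [Algebra.adjoin_range_eq_range_aeval] at hf'
    exact hf'
  haveI : IsFractionRing (MvPolynomial (Fin 3) ℂ) K := by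
    refine IsFractionRing.of_field (MvPolynomial (Fin 3) ℂ) K ?_
    intro z
    obtain ⟨f, hf, g, hg, hg0, hz⟩ := hgen z
    obtain ⟨p, rfl⟩ := hPR f hf
    obtain ⟨q, rfl⟩ := hPR g hg
    exact ⟨p, q, by rw [eq_div_iff hg0]; exact hz⟩
  obtain ⟨D, Ψ, h1, h2⟩ := ext_hom (K := K) (R := MvPolynomial (Fin 3) ℂ)
    (W := PowerSeries (RatFunc ℂ))
    (MvPolynomial.eval₂Hom ((PowerSeries.C (R := RatFunc ℂ)).comp (RatFunc.C (K := ℂ)))
      ![PowerSeries.C RatFunc.X * PowerSeries.X ^ 2, 0, PowerSeries.X])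
  refine ⟨D, Ψ, ?_, ?_, ?_, ?_, h2⟩
  · intro c
    obtain ⟨h, h'⟩ := h1 (MvPolynomial.C c)
    have e : algebraMap (MvPolynomial (Fin 3) ℂ) K (MvPolynomial.C c) = algebraMap ℂ K c := by
      rw [hmap, MvPolynomial.aeval_C]
    have h3 : algebraMap ℂ K c ∈ D := e ▸ h
    refine ⟨h3, ?_⟩
    have e2 : (⟨algebraMap ℂ K c, h3⟩ : D) = ⟨_, h⟩ := Subtype.ext e.symm
    rw [e2, h']
    simp
  · obtain ⟨h, h'⟩ := h1 (MvPolynomial.X 0)
    have e : algebraMap (MvPolynomial (Fin 3) ℂ) K (MvPolynomial.X 0) = a := by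
      rw [hmap, MvPolynomial.aeval_X]; rfl
    have h3 : a ∈ D := e ▸ h
    refine ⟨h3, ?_⟩
    have e2 : (⟨a, h3⟩ : D) = ⟨_, h⟩ := Subtype.ext e.symm
    rw [e2, h']
    simp
  · obtain ⟨h, h'⟩ := h1 (MvPolynomial.X 1)
    have e : algebraMap (MvPolynomial (Fin 3) ℂ) K (MvPolynomial.X 1) = b := by
      rw [hmap, MvPolynomial.aeval_X]; rfl
    have h3 : b ∈ D := e ▸ h
    refine ⟨h3, ?_⟩
    have e2 : (⟨b, h3⟩ : D) = ⟨_, h⟩ := Subtype.ext e.symm
    rw [e2, h']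
    simp
  · obtain ⟨h, h'⟩ := h1 (MvPolynomial.X 2)
    have e : algebraMap (MvPolynomial (Fin 3) ℂ) K (MvPolynomial.X 2) = v := by
      rw [hmap, MvPolynomial.aeval_X]; rfl
    have h3 : v ∈ D := e ▸ h
    refine ⟨h3, ?_⟩
    have e2 : (⟨v, h3⟩ : D) = ⟨_, h⟩ := Subtype.ext e.symm
    rw [e2, h']
    simp

end Pool.Agent.Helper447.D71
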