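import Pool.Agent.Helper447.D71.Defs

set_option autoImplicit false

namespace Pool.Agent.Helper447.D71

theorem noethG {K : Type*} [Field K] [Algebra ℂ K] (a b v : K) (S : Set K) (hS : S.Finite) :
    IsNoetherianRing (BR a b v S) := by
  have hfin : (({fw0 a b v, fw1 a b v, fw3 a b v, b * fs a b v, b * fe2 a b v,
    (fde a b v)⁻¹} : Set K) ∪ S).Finite := Set.Finite.union (Set.toFinite _) hS
  have hfg : (Algebra.adjoin ℂ (({fw0 a b v, fw1 a b v, fw3 a b v, b * fs a b v, b * fe2 a b v,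
    (fde a b v)⁻¹} : Set K) ∪ S)).FG := by
    refine ⟨hfin.toFinset, ?_⟩
    simp only [Set.Finite.coe_toFinset]
  have : Algebra.FiniteType ℂ (Algebra.adjoin ℂ (({fw0 a b v, fw1 a b v, fw3 a b v, b * fs a b v, b * fe2 a b v,
    (fde a b v)⁻¹} : Set K) ∪ S)) := by
    rw [← Subalgebra.fg_iff_finiteType]; exact hfg
  have h2 : IsNoetherianRing (Algebra.adjoin ℂ (({fw0 a b v, fw1 a b v, fw3 a b v, b * fs a b v, b * fe2 a b v,
    (fde a b v)⁻¹} : Set K) ∪ S)) := Algebra.FiniteType.isNoetherianRing ℂ _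
  exact h2

end Pool.Agent.Helper447.D71
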