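import Pool.Agent.Helper447.D71.Defs

set_option autoImplicit false

namespace Pool.Agent.Helper447.D71



theorem h939_map_fs {R S : Type*} [CommRing R] [CommRing S] (φ : R →+* S) (x y z : R) :
    φ (fs x y z) = fs (φ x) (φ y) (φ z) := by
  have h3 : φ 3 = 3 := map_ofNat φ 3
  have h4 : φ 4 = 4 := map_ofNat φ 4
  simp only [fs, fA3, fw0, fw1, fw3, fq0, fc, map_sub, map_mul, map_add, map_neg, map_pow,
    map_one, h3, h4]

theorem h939_map_ft {R S : Type*} [CommRing R] [CommRing S] (φ : R →+* S) (x y z : R) :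
    φ (ft x y z) = ft (φ x) (φ y) (φ z) := by
  have h3 : φ 3 = 3 := map_ofNat φ 3
  have h4 : φ 4 = 4 := map_ofNat φ 4
  have h6 : φ 6 = 6 := map_ofNat φ 6
  have h9 : φ 9 = 9 := map_ofNat φ 9
  simp only [ft, fe2, fe3, fs, fA3, fA2, fA1, fDl, fkap, fm, fw0, fw1, fw3, fq0, fc, map_sub,
    map_mul, map_add, map_neg, map_pow, map_one, h3, h4, h6, h9]

/-- `w₁ / e` -/
def h939_u1 {R : Type*} [CommRing R] (t e : R) : R := -(1 + 3 * t ^ 2 * e ^ 4)
/-- `w₃ / e` -/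
def h939_u3 {R : Type*} [CommRing R] (t e : R) : R := 1 + t * e ^ 2 + 3 * t ^ 3 * e ^ 6
/-- `m / e` -/
def h939_um {R : Type*} [CommRing R] (t e : R) : R :=
  -h939_u1 t e - 9 * (t * e ^ 2) ^ 2 * h939_u1 t e - 6 * (t * e ^ 2) * h939_u3 t e

def h939_S {R : Type*} [CommRing R] (t e : R) : R :=
  h939_u1 t e * (1 + 4 * (t * e ^ 2) - 3 * (e * h939_u1 t e) ^ 3) - 4 * h939_u3 t e

def h939_T {R : Type*} [CommRing R] (t e : R) : R :=
  fDl (-(t * e ^ 2)) (e * h939_u1 t e) *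
    (-t * fkap (-(t * e ^ 2)) (e * h939_u1 t e) + 3 * e * h939_u1 t e ^ 2 * h939_u3 t e)
    - 4 * e * h939_um t e ^ 2 * h939_u1 t e

theorem h939_w1 {R : Type*} [CommRing R] (t e : R) :
    fw1 (t * e ^ 2) 0 e = e * h939_u1 t e := by
  simp only [fw1, fq0, fc, h939_u1]; ring
theorem h939_w0 {R : Type*} [CommRing R] (t e : R) :
    fw0 (t * e ^ 2) 0 e = -(t * e ^ 2) := by
  simp only [fw0]; ring
theorem h939_w3 {R : Type*} [CommRing R] (t e : R) :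
    fw3 (t * e ^ 2) 0 e = e * h939_u3 t e := by
  simp only [fw3, h939_w1, h939_u1, h939_u3]; ring
theorem h939_m {R : Type*} [CommRing R] (t e : R) :
    fm (-(t * e ^ 2)) (e * h939_u1 t e) (e * h939_u3 t e) = e * h939_um t e := by
  simp only [fm, h939_um]; ring
theorem h939_fs {R : Type*} [CommRing R] (t e : R) :
    fs (t * e ^ 2) 0 e = e * h939_S t e := by
  simp only [fs, h939_w0, h939_w1, h939_w3, fA3, h939_S]; ring
theorem h939_ft {R : Type*} [CommRing R] (t e : R) :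
    ft (t * e ^ 2) 0 e = e ^ 2 * h939_T t e := by
  simp only [ft, fe3, fe2, h939_w0, h939_w1, h939_w3, fA1, fA2, h939_m, h939_T, zero_mul,
    zero_add]
  ring

theorem psiS {K : Type*} [Field K] [Algebra ℂ K] (a b v : K) (D : Subring K)
    (Ψ : D →+* PowerSeries (RatFunc ℂ)) (h : PsiD a b v D Ψ) :
    ∃ (h1 : fs a b v ∈ D) (h2 : ft a b v ∈ D) (S T : PowerSeries (RatFunc ℂ)),
      Ψ ⟨_, h1⟩ = PowerSeries.X * S ∧ PowerSeries.constantCoeff S = -5 ∧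
      Ψ ⟨_, h2⟩ = PowerSeries.X ^ 2 * T ∧ PowerSeries.constantCoeff T = -5 * RatFunc.X := by
  obtain ⟨ha, ha'⟩ := h.ha
  obtain ⟨hb, hb'⟩ := h.hb
  obtain ⟨hv, hv'⟩ := h.hv
  have e1 : ((fs (⟨a, ha⟩ : D) ⟨b, hb⟩ ⟨v, hv⟩ : D) : K) = fs a b v :=
    h939_map_fs D.subtype _ _ _
  have e2 : ((ft (⟨a, ha⟩ : D) ⟨b, hb⟩ ⟨v, hv⟩ : D) : K) = ft a b v :=
    h939_map_ft D.subtype _ _ _
  have h1 : fs a b v ∈ D := by rw [← e1]; exact Subtype.property _
  have h2 : ft a b v ∈ D := by rw [← e2]; exact Subtype.property _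
  have f1 : (⟨fs a b v, h1⟩ : D) = fs (⟨a, ha⟩ : D) ⟨b, hb⟩ ⟨v, hv⟩ := Subtype.ext e1.symm
  have f2 : (⟨ft a b v, h2⟩ : D) = ft (⟨a, ha⟩ : D) ⟨b, hb⟩ ⟨v, hv⟩ := Subtype.ext e2.symm
  refine ⟨h1, h2, h939_S (PowerSeries.C RatFunc.X) PowerSeries.X,
    h939_T (PowerSeries.C RatFunc.X) PowerSeries.X, ?_, ?_, ?_, ?_⟩
  · rw [f1, h939_map_fs, ha', hb', hv', h939_fs]
  · simp only [h939_S, h939_u1, h939_u3, map_sub, map_mul, map_add, map_neg, map_pow, map_one,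
      map_ofNat, PowerSeries.constantCoeff_X]
    ring
  · rw [f2, h939_map_ft, ha', hb', hv', h939_ft]
  · simp only [h939_T, fDl, fkap, h939_um, h939_u1, h939_u3, map_sub, map_mul, map_add, map_neg,
      map_pow, map_one, map_ofNat, PowerSeries.constantCoeff_X, PowerSeries.constantCoeff_C]
    ring

end Pool.Agent.Helper447.D71
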