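import Pool.Agent.Helper447.D71.Defs
import Pool.Agent.Helper447.D71.P_psiS

set_option autoImplicit false

namespace Pool.Agent.Helper447.D71



theorem psiG_w1 {F G : Type*} [CommRing F] [CommRing G] (φ : F →+* G) (a b v : F) :
    φ (fw1 a b v) = fw1 (φ a) (φ b) (φ v) := by
  simp [fw1, fq0, fc, map_ofNat]

theorem psiG_w0 {F G : Type*} [CommRing F] [CommRing G] (φ : F →+* G) (a b v : F) :
    φ (fw0 a b v) = fw0 (φ a) (φ b) (φ v) := by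
  simp [fw0, psiG_w1, map_ofNat]

theorem psiG_w3 {F G : Type*} [CommRing F] [CommRing G] (φ : F →+* G) (a b v : F) :
    φ (fw3 a b v) = fw3 (φ a) (φ b) (φ v) := by
  simp [fw3, psiG_w1, map_ofNat]

theorem psiG_s {F G : Type*} [CommRing F] [CommRing G] (φ : F →+* G) (a b v : F) :
    φ (fs a b v) = fs (φ a) (φ b) (φ v) := by
  simp [fs, fA3, psiG_w1, psiG_w0, psiG_w3, map_ofNat]

theorem psiG_e2 {F G : Type*} [CommRing F] [CommRing G] (φ : F →+* G) (a b v : F) :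
    φ (fe2 a b v) = fe2 (φ a) (φ b) (φ v) := by
  simp [fe2, fA2, fkap, psiG_s, psiG_w1, psiG_w0, psiG_w3, map_ofNat]

theorem psiG_de {F G : Type*} [CommRing F] [CommRing G] (φ : F →+* G) (a b v : F) :
    φ (fde a b v) = fde (φ a) (φ b) (φ v) := by
  simp [fde, fDl, fkap, psiG_w1, psiG_w0, map_ofNat]

theorem psiG {K : Type*} [Field K] [Algebra ℂ K] (a b v : K) (D : Subring K)
    (Ψ : D →+* PowerSeries (RatFunc ℂ)) (h : PsiD a b v D Ψ) :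
    (∃ h : fw0 a b v ∈ D, PowerSeries.constantCoeff (Ψ ⟨_, h⟩) = 0) ∧
    (∃ h : fw1 a b v ∈ D, PowerSeries.constantCoeff (Ψ ⟨_, h⟩) = 0) ∧
    (∃ h : fw3 a b v ∈ D, PowerSeries.constantCoeff (Ψ ⟨_, h⟩) = 0) ∧
    (∃ h : fs a b v ∈ D, PowerSeries.constantCoeff (Ψ ⟨_, h⟩) = 0 ∧ ∀ n, Ψ ⟨_, h⟩ ^ n ≠ 0) ∧
    (∃ h : b * fs a b v ∈ D, Ψ ⟨_, h⟩ = 0) ∧
    (∃ h : b * fe2 a b v ∈ D, Ψ ⟨_, h⟩ = 0) ∧
    (∃ h : (fde a b v)⁻¹ ∈ D, PowerSeries.constantCoeff (Ψ ⟨_, h⟩) = 1 / 5) ∧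
    (∃ h : ft a b v / fs a b v ^ 2 ∈ D,
      PowerSeries.constantCoeff (Ψ ⟨_, h⟩) = RatFunc.C (-1 / 5) * RatFunc.X) := by
  
  obtain ⟨haD, hΨa⟩ := h.ha
  obtain ⟨hbD, hΨb⟩ := h.hb
  obtain ⟨hvD, hΨv⟩ := h.hv
  obtain ⟨hsD, htD, S, T, hΨs, hS, hΨt, hT⟩ := psiS a b v D Ψ h
  let ψ : D →+* RatFunc ℂ := (PowerSeries.constantCoeff).comp Ψ
  have hψa : ψ ⟨a, haD⟩ = 0 := by
    show PowerSeries.constantCoeff (Ψ ⟨a, haD⟩) = 0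
    rw [hΨa]; simp
  have hψb : ψ ⟨b, hbD⟩ = 0 := by
    show PowerSeries.constantCoeff (Ψ ⟨b, hbD⟩) = 0
    rw [hΨb]; simp
  have hψv : ψ ⟨v, hvD⟩ = 0 := by
    show PowerSeries.constantCoeff (Ψ ⟨v, hvD⟩) = 0
    rw [hΨv]; simp
  have key : ∀ (G : K) (g : D), (g : K) = G → ∃ hG : G ∈ D, (⟨G, hG⟩ : D) = g := by
    rintro G g rfl
    exact ⟨g.2, rfl⟩
  obtain ⟨hw0, ew0⟩ := key (fw0 a b v) (fw0 (⟨a, haD⟩ : D) ⟨b, hbD⟩ ⟨v, hvD⟩)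
    (psiG_w0 D.subtype _ _ _)
  obtain ⟨hw1, ew1⟩ := key (fw1 a b v) (fw1 (⟨a, haD⟩ : D) ⟨b, hbD⟩ ⟨v, hvD⟩)
    (psiG_w1 D.subtype _ _ _)
  obtain ⟨hw3, ew3⟩ := key (fw3 a b v) (fw3 (⟨a, haD⟩ : D) ⟨b, hbD⟩ ⟨v, hvD⟩)
    (psiG_w3 D.subtype _ _ _)
  obtain ⟨he2, ee2⟩ := key (fe2 a b v) (fe2 (⟨a, haD⟩ : D) ⟨b, hbD⟩ ⟨v, hvD⟩)
    (psiG_e2 D.subtype _ _ _)
  obtain ⟨hde, ede⟩ := key (fde a b v) (fde (⟨a, haD⟩ : D) ⟨b, hbD⟩ ⟨v, hvD⟩)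
    (psiG_de D.subtype _ _ _)
  have hS0 : S ≠ 0 := by
    intro h0
    rw [h0, map_zero] at hS
    norm_num at hS
  have hΨs0 : Ψ ⟨fs a b v, hsD⟩ ≠ 0 := by
    rw [hΨs]
    exact mul_ne_zero PowerSeries.X_ne_zero hS0
  have hs0 : fs a b v ≠ 0 := by
    intro h0
    apply hΨs0
    have : (⟨fs a b v, hsD⟩ : D) = 0 := Subtype.ext h0
    rw [this, map_zero]
  refine ⟨⟨hw0, ?_⟩, ⟨hw1, ?_⟩, ⟨hw3, ?_⟩, ⟨hsD, ?_, ?_⟩, ⟨D.mul_mem hbD hsD, ?_⟩,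
    ⟨D.mul_mem hbD he2, ?_⟩, ?_, ?_⟩
  · show ψ ⟨fw0 a b v, hw0⟩ = 0
    rw [ew0, psiG_w0, hψa, hψb, hψv]
    simp [fw0, fw1]
  · show ψ ⟨fw1 a b v, hw1⟩ = 0
    rw [ew1, psiG_w1, hψa, hψb, hψv]
    simp [fw1]
  · show ψ ⟨fw3 a b v, hw3⟩ = 0
    rw [ew3, psiG_w3, hψa, hψb, hψv]
    simp [fw3, fw1]
  · rw [hΨs]; simp
  · exact fun n => pow_ne_zero n hΨs0
  · have e1 : (⟨b * fs a b v, D.mul_mem hbD hsD⟩ : D) = ⟨b, hbD⟩ * ⟨fs a b v, hsD⟩ := rfl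
    rw [e1, map_mul, hΨb, zero_mul]
  · have e1 : (⟨b * fe2 a b v, D.mul_mem hbD he2⟩ : D) = ⟨b, hbD⟩ * ⟨fe2 a b v, he2⟩ := rfl
    rw [e1, map_mul, hΨb, zero_mul]
  · have h5 : PowerSeries.constantCoeff (Ψ ⟨fde a b v, hde⟩) = 5 := by
      show ψ ⟨fde a b v, hde⟩ = 5
      rw [ede, psiG_de, hψa, hψb, hψv]
      simp [fde, fDl, fkap, fw0, fw1]
      norm_num
    have h50 : PowerSeries.constantCoeff (Ψ ⟨fde a b v, hde⟩) ≠ 0 := by rw [h5]; norm_num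
    have hΨ0 : Ψ ⟨fde a b v, hde⟩ ≠ 0 := by
      intro h0
      rw [h0, map_zero] at h50
      exact h50 rfl
    have hde0 : fde a b v ≠ 0 := by
      intro h0
      apply hΨ0
      have : (⟨fde a b v, hde⟩ : D) = 0 := Subtype.ext h0
      rw [this, map_zero]
    obtain ⟨hz, hq⟩ := h.cl (fde a b v)⁻¹ 1 ⟨fde a b v, hde⟩ (Ψ ⟨fde a b v, hde⟩)⁻¹
      (by show (fde a b v)⁻¹ * fde a b v = 1
          exact inv_mul_cancel₀ hde0) hΨ0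
      (by rw [map_one, PowerSeries.inv_mul_cancel _ h50])
    refine ⟨hz, ?_⟩
    rw [hq, PowerSeries.constantCoeff_inv, h5, one_div]
  · have hSS : PowerSeries.constantCoeff (S ^ 2) ≠ 0 := by
      rw [map_pow, hS]; norm_num
    obtain ⟨hz, hq⟩ := h.cl (ft a b v / fs a b v ^ 2) ⟨ft a b v, htD⟩ (⟨fs a b v, hsD⟩ ^ 2)
      (T * (S ^ 2)⁻¹)
      (by show ft a b v / fs a b v ^ 2 * (fs a b v) ^ 2 = ft a b v
          exact div_mul_cancel₀ _ (pow_ne_zero 2 hs0))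
      (by rw [map_pow]; exact pow_ne_zero 2 hΨs0)
      (by
        rw [map_pow, hΨs, hΨt, mul_pow]
        have h1 := PowerSeries.inv_mul_cancel (S ^ 2) hSS
        calc PowerSeries.X ^ 2 * T = T * 1 * PowerSeries.X ^ 2 := by ring
          _ = T * ((S ^ 2)⁻¹ * S ^ 2) * PowerSeries.X ^ 2 := by rw [h1]
          _ = _ := by ring)
    refine ⟨hz, ?_⟩
    rw [hq, map_mul, PowerSeries.constantCoeff_inv, map_pow, hS, hT]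
    have e1 : (RatFunc.C (-1 / 5 : ℂ) : RatFunc ℂ) = -1 / 5 := by
      rw [map_div₀, map_neg, map_one, map_ofNat]
    rw [e1]
    ring

end Pool.Agent.Helper447.D71
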