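import Pool.Agent.Helper447.D71.Defs
import Pool.Agent.Helper447.D71.P_reg
import Pool.Agent.Helper447.D71.P_lochom
import Pool.Agent.Helper447.D71.P_noethloc
import Pool.Agent.Helper447.D71.P_nz
import Pool.Agent.Helper447.D71.P_etaD
import Pool.Agent.Helper447.D71.P_psiP
import Pool.Agent.Helper447.D71.P_psiG
import Pool.Agent.Helper447.D71.P_decG2
import Pool.Agent.Helper447.D71.P_noethG
import Pool.Agent.Helper447.D71.P_psiE2

set_option autoImplicit false

namespace Pool.Agent.Helper447.D71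



theorem etaO {K : Type*} [Field K] [Algebra ℂ K] (a b v : K)
    (hind : AlgebraicIndependent ℂ ![a, b, v]) (hgen : IsGen a b v) :
    ∃ (O D : Subring K) (Ψ : D →+* PowerSeries (RatFunc ℂ)), EtaO a b v O D Ψ := by
  obtain ⟨D, Ψ, hD⟩ := etaD a b v hind hgen
  obtain ⟨PD, pc⟩ := psiP a b v D Ψ hD
  obtain ⟨⟨hw0, cw0⟩, ⟨hw1, cw1⟩, ⟨hw3, cw3⟩, ⟨hs, cs, csn⟩, ⟨hbs, cbs⟩, ⟨hbe, cbe⟩, ⟨hde, cde⟩,
    ⟨hrho, crho⟩⟩ := psiG a b v D Ψ hD
  obtain ⟨na, nb, nv, nfc, nw0, nw1, nw3, ns, nt, nde⟩ := nz a b v hind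
  obtain ⟨sG, bsG, tG⟩ := psiE2 a b v hind
  -- G2 ≤ D
  have GD : G2 a b v ≤ D := by
    intro f hf
    have hf' : f ∈ Algebra.adjoin ℂ (({fw0 a b v, fw1 a b v, fw3 a b v, b * fs a b v, b * fe2 a b v,
      (fde a b v)⁻¹} : Set K) ∪ {ft a b v / fs a b v ^ 2}) := hf
    induction hf' using Algebra.adjoin_induction with
    | mem x hx =>
      simp only [Set.mem_union, Set.mem_insert_iff, Set.mem_singleton_iff] at hx
      rcases hx with (rfl | rfl | rfl | rfl | rfl | rfl) | rfl <;> assumption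
    | algebraMap r => exact (hD.hc r).1
    | add x y hx hy ihx ihy => exact D.add_mem (ihx hx) (ihy hy)
    | mul x y hx hy ihx ihy => exact D.mul_mem (ihx hx) (ihy hy)
  have rhoG : ft a b v / fs a b v ^ 2 ∈ G2 a b v := by
    refine Algebra.subset_adjoin ?_
    right
    rfl
  -- the homomorphism
  set φ : G2 a b v →+* RatFunc ℂ :=
    (PowerSeries.constantCoeff (R := RatFunc ℂ)).comp (Ψ.comp (Subring.inclusion GD)) with hφ
  have φap : ∀ (x : G2 a b v), φ x = PowerSeries.constantCoeff (Ψ ⟨(x : K), GD x.2⟩) := by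
    intro x
    rfl
  obtain ⟨O, ψ, hloc, hO, hψ, hM⟩ := lochom (G2 a b v) φ
  have GO : G2 a b v ≤ O := hloc.1
  -- polynomials in rho
  have hpoly : ∀ f : Polynomial ℂ, ∃ h : Polynomial.aeval (ft a b v / fs a b v ^ 2) f ∈ D,
      PowerSeries.constantCoeff (Ψ ⟨_, h⟩) =
        f.eval₂ (RatFunc.C (K := ℂ)) (RatFunc.C (-1 / 5) * RatFunc.X) := by
    intro f
    induction f using Polynomial.induction_on' with
    | add p q hp hq =>
      obtain ⟨h1, e1⟩ := hp
      obtain ⟨h2, e2⟩ := hq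
      have h3 : Polynomial.aeval (ft a b v / fs a b v ^ 2) (p + q) ∈ D := by
        rw [map_add]
        exact D.add_mem h1 h2
      refine ⟨h3, ?_⟩
      have e3 : (⟨Polynomial.aeval (ft a b v / fs a b v ^ 2) (p + q), h3⟩ : D) =
          ⟨_, h1⟩ + ⟨_, h2⟩ := by
        apply Subtype.ext
        simp
      rw [e3, map_add, map_add, e1, e2, Polynomial.eval₂_add]
    | monomial n c =>
      have h3 : Polynomial.aeval (ft a b v / fs a b v ^ 2) (Polynomial.monomial n c) ∈ D := by
        rw [Polynomial.aeval_monomial]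
        exact D.mul_mem (hD.hc c).1 (D.pow_mem hrho n)
      refine ⟨h3, ?_⟩
      have e3 : (⟨Polynomial.aeval (ft a b v / fs a b v ^ 2) (Polynomial.monomial n c), h3⟩ : D) =
          ⟨_, (hD.hc c).1⟩ * ⟨_, hrho⟩ ^ n := by
        apply Subtype.ext
        simp [Polynomial.aeval_monomial]
      obtain ⟨_, hc2⟩ := hD.hc c
      rw [e3, map_mul, map_mul, map_pow, map_pow, crho, hc2, Polynomial.eval₂_monomial]
      simp
  have htr : ∀ f : Polynomial ℂ,
      f.eval₂ (RatFunc.C (K := ℂ)) (RatFunc.C (-1 / 5) * RatFunc.X) = 0 → f = 0 := by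
    intro f hf
    have h1 : algebraMap (Polynomial ℂ) (RatFunc ℂ)
        (f.comp (Polynomial.C (-1 / 5) * Polynomial.X)) = 0 := by
      rw [Polynomial.comp, Polynomial.hom_eval₂, ← hf]
      have h2 : (algebraMap (Polynomial ℂ) (RatFunc ℂ)).comp Polynomial.C = RatFunc.C := by
        ext c
        simp
      rw [h2]
      congr 1
      simp
    have h2 : f.comp (Polynomial.C (-1 / 5) * Polynomial.X) = 0 :=
      (map_eq_zero_iff _ (IsFractionRing.injective (Polynomial ℂ) (RatFunc ℂ))).1 h1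
    have h3 : (f.comp (Polynomial.C (-1 / 5) * Polynomial.X)).comp
        (Polynomial.C (-5) * Polynomial.X) = f := by
      rw [Polynomial.comp_assoc]
      have : (Polynomial.C (-1 / 5) * Polynomial.X : Polynomial ℂ).comp
          (Polynomial.C (-5) * Polynomial.X) = Polynomial.X := by
        rw [Polynomial.mul_comp, Polynomial.C_comp, Polynomial.X_comp, ← mul_assoc,
          ← Polynomial.C_mul]
        norm_num
      rw [this, Polynomial.comp_X]
    rw [← h3, h2, Polynomial.zero_comp]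
  -- O ≤ D
  have OD : O ≤ D := by
    intro z hz
    obtain ⟨x, y, hy, hxy⟩ := (hO z).1 hz
    have hcy : PowerSeries.constantCoeff (Ψ ⟨(y : K), GD y.2⟩) ≠ 0 := hy
    have hy0 : Ψ ⟨(y : K), GD y.2⟩ ≠ 0 := by
      intro h
      apply hcy
      rw [h]
      simp
    obtain ⟨hz', _⟩ := hD.cl z ⟨(x : K), GD x.2⟩ ⟨(y : K), GD y.2⟩
      (Ψ ⟨(x : K), GD x.2⟩ * (Ψ ⟨(y : K), GD y.2⟩)⁻¹) hxy hy0 (by
        rw [mul_assoc, PowerSeries.inv_mul_cancel _ hcy, mul_one])
    exact hz'
  -- the compatibility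
  have hcomp : ∀ z (h : z ∈ D) (hz : z ∈ O),
      PowerSeries.constantCoeff (Ψ ⟨z, h⟩) = ψ ⟨z, hz⟩ := by
    intro z h hz
    obtain ⟨x, y, hy, hxy⟩ := (hO z).1 hz
    have e1 : ψ ⟨z, hz⟩ * φ y = φ x := by
      rw [← hψ y (GO y.2), ← hψ x (GO x.2), ← map_mul]
      congr 1
      exact Subtype.ext hxy
    have e2 : PowerSeries.constantCoeff (Ψ ⟨z, h⟩) * φ y = φ x := by
      rw [φap, φap, ← map_mul, ← map_mul]
      congr 2
      exact Subtype.ext hxy
    exact mul_right_cancel₀ hy (e2.trans e1.symm)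
  have unitO : ∀ y : G2 a b v, φ y ≠ 0 → (y : K)⁻¹ ∈ O := by
    intro y hy
    refine (hO _).2 ⟨1, y, hy, ?_⟩
    have : (y : K) ≠ 0 := by
      intro h
      apply hy
      have : y = 0 := Subtype.ext h
      rw [this, map_zero]
    simp [this]
  haveI : IsNoetherianRing (G2 a b v) := noethG a b v _ (Set.finite_singleton _)
  obtain ⟨hN, hL⟩ := noethloc (G2 a b v) O hloc
  have hnonunit : ∀ z : O, z ∈ IsLocalRing.maximalIdeal O ↔ InM O z := by
    intro z
    rw [IsLocalRing.mem_maximalIdeal, mem_nonunits_iff]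
    constructor
    · intro h
      refine ⟨z.2, ?_⟩
      by_cases h0 : (z : K) = 0
      · left; exact h0
      · right
        intro hinv
        apply h
        refine IsUnit.of_mul_eq_one ⟨(z : K)⁻¹, hinv⟩ ?_
        apply Subtype.ext
        show (z : K) * (z : K)⁻¹ = 1
        exact mul_inv_cancel₀ h0
    · rintro ⟨_, h⟩ hu
      obtain ⟨w, hw⟩ := hu.exists_right_inv
      have hw' : (z : K) * (w : K) = 1 := congrArg Subtype.val hw
      rcases h with h | h
      · rw [h, zero_mul] at hw'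
        exact zero_ne_one hw'
      · apply h
        have : (z : K)⁻¹ = w := by
          have hz0 : (z : K) ≠ 0 := by
            intro h0
            rw [h0, zero_mul] at hw'
            exact zero_ne_one hw'
          field_simp
          rw [mul_comm] at hw'
          first
            | exact hw'.symm
            | (rw [mul_comm]; exact hw'.symm)
        rw [this]
        exact w.2
  have hφs : φ ⟨_, sG⟩ = 0 := cs
  have hφbs : φ ⟨_, bsG⟩ = 0 := by
    rw [φap]
    show PowerSeries.constantCoeff (Ψ ⟨b * fs a b v, _⟩) = 0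
    rw [cbs]
    simp
  have hmax : IsLocalRing.maximalIdeal O = Ideal.span {⟨fs a b v, GO sG⟩, ⟨b * fs a b v, GO bsG⟩} := by
    apply le_antisymm
    · intro z hz
      have hz1 : ψ z = 0 := (hM z).1 ((hnonunit z).1 hz)
      obtain ⟨x, y, hy, hxy⟩ := (hO z).1 z.2
      have hx0 : φ x = 0 := by
        rw [← hψ x (GO x.2)]
        have : (⟨(x : K), GO x.2⟩ : O) = z * ⟨(y : K), GO y.2⟩ := Subtype.ext hxy.symm
        rw [this, map_mul, hz1, zero_mul]
      obtain ⟨f, g1, hg1, g2, hg2, hx⟩ := decG2 a b v hind (x : K) x.2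
      obtain ⟨hfD, hfe⟩ := hpoly f
      have e1 : (⟨(x : K), GD x.2⟩ : D) = ⟨_, hfD⟩ + ⟨g1, GD hg1⟩ * ⟨_, hs⟩ + ⟨g2, GD hg2⟩ * ⟨_, hbs⟩ :=
        Subtype.ext hx
      have e2 : φ x = f.eval₂ (RatFunc.C (K := ℂ)) (RatFunc.C (-1 / 5) * RatFunc.X) := by
        rw [φap, e1]
        simp only [map_add, map_mul]
        rw [cs, cbs, hfe]
        simp
      rw [hx0] at e2
      have hf0 : f = 0 := htr f e2.symm
      rw [hf0, map_zero, zero_add] at hx
      have hy0 : (y : K) ≠ 0 := by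
        intro h
        apply hy
        have : y = 0 := Subtype.ext h
        rw [this, map_zero]
      have hyinv := unitO y hy
      have hz2 : z = (⟨(y : K)⁻¹, hyinv⟩ * ⟨g1, GO hg1⟩) * ⟨fs a b v, GO sG⟩ +
          (⟨(y : K)⁻¹, hyinv⟩ * ⟨g2, GO hg2⟩) * ⟨b * fs a b v, GO bsG⟩ := by
        apply Subtype.ext
        show (z : K) = ((y : K)⁻¹ * g1) * fs a b v + ((y : K)⁻¹ * g2) * (b * fs a b v)
        have : (z : K) = (y : K)⁻¹ * (x : K) := by
          rw [← hxy]
          field_simp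
        rw [this, hx]
        ring
      rw [hz2]
      refine Ideal.add_mem _ (Ideal.mul_mem_left _ _ (Ideal.subset_span ?_))
        (Ideal.mul_mem_left _ _ (Ideal.subset_span ?_))
      · simp
      · simp
    · rw [Ideal.span_le]
      intro z hz
      simp only [Set.mem_insert_iff, Set.mem_singleton_iff] at hz
      show z ∈ IsLocalRing.maximalIdeal O
      rw [hnonunit, hM]
      rcases hz with rfl | rfl
      · rw [hψ ⟨_, sG⟩ (GO sG)]
        exact hφs
      · rw [hψ ⟨_, bsG⟩ (GO bsG)]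
        exact hφbs
  refine ⟨O, D, Ψ, ?_⟩
  constructor
  · exact hloc
  · exact OD
  · exact PD
  · exact pc
  · intro z h hz
    rw [hcomp z h hz]
    exact hM ⟨z, hz⟩
  · refine ⟨ft a b v / fs a b v ^ 2, hrho, GO rhoG, ?_⟩
    rintro ⟨c, hc⟩
    rw [crho] at hc
    have h1 : (Polynomial.C (-1 / 5) * Polynomial.X - Polynomial.C c : Polynomial ℂ) = 0 := by
      apply (map_eq_zero_iff _ (IsFractionRing.injective (Polynomial ℂ) (RatFunc ℂ))).1
      rw [map_sub, map_mul]
      simp only [RatFunc.algebraMap_C, RatFunc.algebraMap_X]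
      rw [hc, sub_self]
    have h2 := congrArg (fun p : Polynomial ℂ => p.coeff 1) h1
    simp at h2
  · exact ⟨hs, cs⟩
  · intro z n m h1 h2
    refine reg O ⟨fs a b v, GO sG⟩ ⟨b * fs a b v, GO bsG⟩ ?_ hmax ?_ z n m h1 h2
    · intro h
      exact (mul_ne_zero nb ns) (congrArg Subtype.val h)
    · intro N h
      rw [Ideal.mem_span_singleton] at h
      obtain ⟨c, hc⟩ := h
      have hc' : fs a b v ^ N = (b * fs a b v) * (c : K) := congrArg Subtype.val hc
      apply csn N
      have e : (⟨_, hs⟩ : D) ^ N = ⟨_, hbs⟩ * ⟨(c : K), OD c.2⟩ := Subtype.ext hc'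
      rw [← map_pow, e, map_mul, cbs, zero_mul]

end Pool.Agent.Helper447.D71
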