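import Pool.Agent.Helper447.D71.Defs

set_option autoImplicit false

namespace Pool.Agent.Helper447.D71



theorem P1facts_p1_cub {K : Type*} [Field K] (a b v : K) :
    fA0 (fw0 a b v) (fw1 a b v) (fw3 a b v) + fA1 (fw0 a b v) (fw1 a b v) (fw3 a b v) * b +
    fA2 (fw0 a b v) (fw1 a b v) (fw3 a b v) * b ^ 2 +
    fA3 (fw0 a b v) (fw1 a b v) (fw3 a b v) * b ^ 3 = 0 := by
  have h0 : a = -fw0 a b v - b * fw1 a b v := by unfold fw0; ring
  have h3 : v = fw3 a b v + a * fw1 a b v := by unfold fw3; ring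
  have h1 : fw1 a b v = a * (b ^ 2 * (4 * a + 1)) - (3 * a ^ 2 - 4 * b ^ 3 + 1) * v := by
    unfold fw1 fq0 fc; ring
  generalize fw0 a b v = w0 at *
  generalize fw1 a b v = w1 at *
  generalize fw3 a b v = w3 at *
  subst h0
  subst h3
  unfold fA0 fA1 fA2 fA3 fm fkap
  linear_combination h1

theorem P1facts_p1_syz {K : Type*} [Field K] (w0 w1 w3 : K) :
    -4 * fm w0 w1 w3 * fA0 w0 w1 w3 + fDl w0 w1 * fA1 w0 w1 w3
      - fm w0 w1 w3 * (1 + 3 * w0 ^ 2) * fA3 w0 w1 w3 = 0 := by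
  unfold fA0 fA1 fA3 fDl fm
  ring

theorem P1facts_p1_mem {K : Type*} [Field K] [Algebra ℂ K] (a b v : K) :
    (∀ c : ℂ, algebraMap ℂ K c ∈ P1 a b v) ∧ b⁻¹ ∈ P1 a b v ∧ a / b ∈ P1 a b v ∧
    fw0 a b v ∈ P1 a b v ∧ fw1 a b v ∈ P1 a b v ∧ fw3 a b v ∈ P1 a b v := by
  have hsub : ∀ x ∈ ({b⁻¹, a / b, fw0 a b v, fw1 a b v, fw3 a b v} : Set K), x ∈ P1 a b v :=
    fun x hx => Algebra.subset_adjoin hx
  refine ⟨fun c => Subalgebra.algebraMap_mem _ c, hsub _ (by simp), hsub _ (by simp),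
    hsub _ (by simp), hsub _ (by simp), hsub _ (by simp)⟩

theorem P1facts_pr_mem {K : Type*} [Field K] [Algebra ℂ K] (a b v : K) :
    (∀ c : ℂ, algebraMap ℂ K c ∈ PR a b v) ∧ a ∈ PR a b v ∧ b ∈ PR a b v ∧ v ∈ PR a b v := by
  have hsub : ∀ x ∈ ({a, b, v} : Set K), x ∈ PR a b v :=
    fun x hx => Algebra.subset_adjoin hx
  refine ⟨fun c => Subalgebra.algebraMap_mem _ c, hsub _ (by simp), hsub _ (by simp),
    hsub _ (by simp)⟩

theorem P1facts {K : Type*} [Field K] [Algebra ℂ K] (a b v : K) (hb : b ≠ 0) :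
    (∀ z ∈ PR a b v, ∃ k : ℕ, z * b⁻¹ ^ k ∈ P1 a b v) ∧ (∀ z ∈ P1 a b v, ∃ k : ℕ, z * b ^ k ∈ PR a b v) ∧
    fs a b v ∈ P1 a b v ∧ b * fs a b v ∈ P1 a b v ∧ b * fe2 a b v ∈ P1 a b v ∧
    b ^ 2 * ft a b v ∈ P1 a b v ∧ fde a b v ∈ P1 a b v ∧
    fs a b v ∈ PR a b v ∧ fe2 a b v ∈ PR a b v ∧ ft a b v ∈ PR a b v ∧ fde a b v ∈ PR a b v ∧
    fw0 a b v ∈ PR a b v ∧ fw1 a b v ∈ PR a b v ∧ fw3 a b v ∈ PR a b v := by
  obtain ⟨pc, pb, pab, p0, p1, p3⟩ := P1facts_p1_mem a b v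
  obtain ⟨rc, ra, rb, rv⟩ := P1facts_pr_mem a b v
  -- natural numbers in subrings
  have hN : ∀ (R : Subring K) (n : ℕ) [n.AtLeastTwo], (OfNat.ofNat n : K) ∈ R := by
    intro R n _
    simp
  have polyPR : ∀ R : Subring K, a ∈ R → b ∈ R → v ∈ R →
      fw0 a b v ∈ R ∧ fw1 a b v ∈ R ∧ fw3 a b v ∈ R := by
    intro R ha hb hv
    have h1 : fw1 a b v ∈ R := by
      unfold fw1 fq0 fc
      exact R.sub_mem (R.mul_mem ha (R.mul_mem (R.pow_mem hb _) (R.add_mem (R.mul_mem (hN R 4) ha) R.one_mem)))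
        (R.mul_mem (R.add_mem (R.sub_mem (R.mul_mem (hN R 3) (R.pow_mem ha _)) (R.mul_mem (hN R 4) (R.pow_mem hb _))) R.one_mem) hv)
    refine ⟨?_, h1, ?_⟩
    · unfold fw0
      exact R.sub_mem (R.mul_mem (R.neg_mem hb) h1) ha
    · unfold fw3
      exact R.sub_mem hv (R.mul_mem ha h1)
  have polyW : ∀ R : Subring K, fw0 a b v ∈ R → fw1 a b v ∈ R → fw3 a b v ∈ R →
      fA0 (fw0 a b v) (fw1 a b v) (fw3 a b v) ∈ R ∧ fA1 (fw0 a b v) (fw1 a b v) (fw3 a b v) ∈ R ∧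
      fA2 (fw0 a b v) (fw1 a b v) (fw3 a b v) ∈ R ∧ fA3 (fw0 a b v) (fw1 a b v) (fw3 a b v) ∈ R ∧
      fDl (fw0 a b v) (fw1 a b v) ∈ R ∧ fm (fw0 a b v) (fw1 a b v) (fw3 a b v) ∈ R ∧
      fde a b v ∈ R := by
    intro R h0 h1 h3
    have hm : fm (fw0 a b v) (fw1 a b v) (fw3 a b v) ∈ R := by
      unfold fm
      exact R.add_mem (R.sub_mem (R.neg_mem h1) (R.mul_mem (R.mul_mem (hN R 9) (R.pow_mem h0 _)) h1))
        (R.mul_mem (R.mul_mem (hN R 6) h0) h3)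
    have hk : fkap (fw0 a b v) (fw1 a b v) ∈ R := by
      unfold fkap
      exact R.sub_mem (R.sub_mem R.one_mem (R.mul_mem (hN R 4) h0)) (R.mul_mem (hN R 9) (R.pow_mem h1 _))
    have hq : 1 - 4 * fw0 a b v - 3 * fw1 a b v ^ 3 ∈ R :=
      R.sub_mem (R.sub_mem R.one_mem (R.mul_mem (hN R 4) h0)) (R.mul_mem (hN R 3) (R.pow_mem h1 _))
    have hD : fDl (fw0 a b v) (fw1 a b v) ∈ R := by
      unfold fDl
      exact R.add_mem (R.mul_mem hq (R.add_mem R.one_mem (R.mul_mem (hN R 3) (R.pow_mem h0 _))))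
        (R.mul_mem (hN R 4) (R.sub_mem (R.sub_mem R.one_mem h0) (R.mul_mem (hN R 3) (R.pow_mem h0 _))))
    refine ⟨?_, ?_, ?_, ?_, hD, hm, ?_⟩
    · unfold fA0
      exact R.add_mem (R.sub_mem (R.sub_mem (R.add_mem h1 h3) (R.mul_mem h0 h1))
        (R.mul_mem (R.mul_mem (hN R 3) (R.pow_mem h0 _)) h1))
        (R.mul_mem (R.mul_mem (hN R 3) (R.pow_mem h0 _)) h3)
    · unfold fA1
      exact R.mul_mem h1 hm
    · unfold fA2
      exact R.add_mem (R.mul_mem h0 hk) (R.mul_mem (R.mul_mem (hN R 3) (R.pow_mem h1 _)) h3)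
    · unfold fA3
      exact R.sub_mem (R.mul_mem h1 hq) (R.mul_mem (hN R 4) h3)
    · unfold fde
      exact R.mul_mem hD hk
  obtain ⟨r0, r1, r3⟩ := polyPR _ ra rb rv
  obtain ⟨rA0, rA1, rA2, rA3, rD, rm, rde⟩ := polyW _ r0 r1 r3
  obtain ⟨qA0, qA1, qA2, qA3, qD, qm, qde⟩ := polyW _ p0 p1 p3
  have rs : fs a b v ∈ PR a b v := rA3
  have re2 : fe2 a b v ∈ PR a b v := (PR a b v).add_mem ((PR a b v).mul_mem rb rs) rA2
  have re3 : fe3 a b v ∈ PR a b v := (PR a b v).add_mem ((PR a b v).mul_mem rb re2) rA1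
  have rt : ft a b v ∈ PR a b v := by
    unfold ft
    exact (PR a b v).sub_mem ((PR a b v).mul_mem rD re2)
      ((PR a b v).mul_mem ((PR a b v).mul_mem (hN _ 4) rm) re3)
  have cub := P1facts_p1_cub a b v
  have syz := P1facts_p1_syz (fw0 a b v) (fw1 a b v) (fw3 a b v)
  have qs : fs a b v ∈ P1 a b v := qA3
  have e_s : fs a b v = fA3 (fw0 a b v) (fw1 a b v) (fw3 a b v) := rfl
  have e_2 : fe2 a b v = b * fs a b v + fA2 (fw0 a b v) (fw1 a b v) (fw3 a b v) := rfl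
  have e_3 : fe3 a b v = b * fe2 a b v + fA1 (fw0 a b v) (fw1 a b v) (fw3 a b v) := rfl
  have e_t : ft a b v = fDl (fw0 a b v) (fw1 a b v) * fe2 a b v
    - 4 * fm (fw0 a b v) (fw1 a b v) (fw3 a b v) * fe3 a b v := rfl
  have hbe3 : b * fe3 a b v = -fA0 (fw0 a b v) (fw1 a b v) (fw3 a b v) := by
    rw [e_3, e_2, e_s]
    linear_combination cub
  have qe3 : fe3 a b v ∈ P1 a b v := by
    have : fe3 a b v = b⁻¹ * -fA0 (fw0 a b v) (fw1 a b v) (fw3 a b v) := by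
      rw [← hbe3, inv_mul_cancel_left₀ hb]
    rw [this]
    exact (P1 a b v).mul_mem pb ((P1 a b v).neg_mem qA0)
  have qbe2 : b * fe2 a b v ∈ P1 a b v := by
    have : b * fe2 a b v = fe3 a b v - fA1 (fw0 a b v) (fw1 a b v) (fw3 a b v) := by
      rw [e_3]; ring
    rw [this]
    exact (P1 a b v).sub_mem qe3 qA1
  have qe2 : fe2 a b v ∈ P1 a b v := by
    have : fe2 a b v = b⁻¹ * (b * fe2 a b v) := by rw [inv_mul_cancel_left₀ hb]
    rw [this]
    exact (P1 a b v).mul_mem pb qbe2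
  have qbs : b * fs a b v ∈ P1 a b v := by
    have : b * fs a b v = fe2 a b v - fA2 (fw0 a b v) (fw1 a b v) (fw3 a b v) := by
      rw [e_2]; ring
    rw [this]
    exact (P1 a b v).sub_mem qe2 qA2
  have qb2t : b ^ 2 * ft a b v ∈ P1 a b v := by
    have : b ^ 2 * ft a b v =
        -(fm (fw0 a b v) (fw1 a b v) (fw3 a b v) * (1 + 3 * fw0 a b v ^ 2)) * (b * fs a b v)
        - fDl (fw0 a b v) (fw1 a b v) * fA0 (fw0 a b v) (fw1 a b v) (fw3 a b v) := by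
      have h1 : b * fe2 a b v = fe3 a b v - fA1 (fw0 a b v) (fw1 a b v) (fw3 a b v) := by
        rw [e_3]; ring
      rw [e_t, e_s]
      linear_combination (b * fDl (fw0 a b v) (fw1 a b v)) * h1 +
        (fDl (fw0 a b v) (fw1 a b v) - 4 * b * fm (fw0 a b v) (fw1 a b v) (fw3 a b v)) * hbe3
        - b * syz
    rw [this]
    exact (P1 a b v).sub_mem ((P1 a b v).mul_mem ((P1 a b v).neg_mem ((P1 a b v).mul_mem qm
      ((P1 a b v).add_mem (P1 a b v).one_mem ((P1 a b v).mul_mem (hN _ 3)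
        ((P1 a b v).pow_mem p0 _))))) qbs) ((P1 a b v).mul_mem qD qA0)
  refine ⟨?_, ?_, qs, qbs, qbe2, qb2t, qde, rs, re2, rt, rde, r0, r1, r3⟩
  · intro z hz
    change z ∈ Algebra.adjoin ℂ ({a, b, v} : Set K) at hz
    induction hz using Algebra.adjoin_induction with
    | mem x hx =>
      simp only [Set.mem_insert_iff, Set.mem_singleton_iff] at hx
      refine ⟨1, ?_⟩
      rw [pow_one]
      rcases hx with rfl | rfl | rfl
      · rw [← div_eq_mul_inv]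
        exact pab
      · rw [mul_inv_cancel₀ hb]
        exact (P1 _ _ _).one_mem
      · have : x * b⁻¹ = fw3 a b x * b⁻¹ + (a / b) * fw1 a b x := by
          unfold fw3
          rw [div_eq_mul_inv]
          ring
        rw [this]
        exact (P1 _ _ _).add_mem ((P1 _ _ _).mul_mem p3 pb) ((P1 _ _ _).mul_mem pab p1)
    | algebraMap r => exact ⟨0, by rw [pow_zero, mul_one]; exact pc r⟩
    | add x y _ _ hx hy =>
      obtain ⟨k, hk⟩ := hx
      obtain ⟨l, hl⟩ := hy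
      refine ⟨k + l, ?_⟩
      have : (x + y) * b⁻¹ ^ (k + l) = (x * b⁻¹ ^ k) * b⁻¹ ^ l + (y * b⁻¹ ^ l) * b⁻¹ ^ k := by ring
      rw [this]
      exact (P1 _ _ _).add_mem ((P1 _ _ _).mul_mem hk ((P1 _ _ _).pow_mem pb _))
        ((P1 _ _ _).mul_mem hl ((P1 _ _ _).pow_mem pb _))
    | mul x y _ _ hx hy =>
      obtain ⟨k, hk⟩ := hx
      obtain ⟨l, hl⟩ := hy
      refine ⟨k + l, ?_⟩
      have : (x * y) * b⁻¹ ^ (k + l) = (x * b⁻¹ ^ k) * (y * b⁻¹ ^ l) := by ring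
      rw [this]
      exact (P1 _ _ _).mul_mem hk hl
  · intro z hz
    change z ∈ Algebra.adjoin ℂ ({b⁻¹, a / b, fw0 a b v, fw1 a b v, fw3 a b v} : Set K) at hz
    induction hz using Algebra.adjoin_induction with
    | mem x hx =>
      simp only [Set.mem_insert_iff, Set.mem_singleton_iff] at hx
      refine ⟨1, ?_⟩
      rw [pow_one]
      rcases hx with rfl | rfl | rfl | rfl | rfl
      · rw [inv_mul_cancel₀ hb]
        exact (PR _ _ _).one_mem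
      · rw [div_mul_cancel₀ _ hb]
        exact ra
      · exact (PR _ _ _).mul_mem r0 rb
      · exact (PR _ _ _).mul_mem r1 rb
      · exact (PR _ _ _).mul_mem r3 rb
    | algebraMap r => exact ⟨0, by rw [pow_zero, mul_one]; exact rc r⟩
    | add x y _ _ hx hy =>
      obtain ⟨k, hk⟩ := hx
      obtain ⟨l, hl⟩ := hy
      refine ⟨k + l, ?_⟩
      have : (x + y) * b ^ (k + l) = (x * b ^ k) * b ^ l + (y * b ^ l) * b ^ k := by ring
      rw [this]
      exact (PR _ _ _).add_mem ((PR _ _ _).mul_mem hk ((PR _ _ _).pow_mem rb _))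
        ((PR _ _ _).mul_mem hl ((PR _ _ _).pow_mem rb _))
    | mul x y _ _ hx hy =>
      obtain ⟨k, hk⟩ := hx
      obtain ⟨l, hl⟩ := hy
      refine ⟨k + l, ?_⟩
      have : (x * y) * b ^ (k + l) = (x * b ^ k) * (y * b ^ l) := by ring
      rw [this]
      exact (PR _ _ _).mul_mem hk hl

end Pool.Agent.Helper447.D71
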