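import Pool.Agent.Helper447.D71.Defs
import Pool.Agent.Helper447.D71.P_nz
import Pool.Agent.Helper447.D71.P_psiE2
import Pool.Agent.Helper447.D71.P_P1facts

set_option autoImplicit false

namespace Pool.Agent.Helper447.D71



theorem adj_le_aux {K : Type*} [Field K] [Algebra ℂ K] (S : Set K) (R : Subring K)
    (hc : ∀ c : ℂ, algebraMap ℂ K c ∈ R) (hS : ∀ x ∈ S, x ∈ R) :
    ∀ x ∈ (Algebra.adjoin ℂ S).toSubring, x ∈ R := by
  intro x hx
  refine Algebra.adjoin_induction (p := fun x _ => x ∈ R) ?_ ?_ ?_ ?_ (show x ∈ Algebra.adjoin ℂ S from hx)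
  · intro x hx
    exact hS x hx
  · intro r
    exact hc r
  · intro x y _ _ hx hy
    exact R.add_mem hx hy
  · intro x y _ _ hx hy
    exact R.mul_mem hx hy

theorem awayT {K : Type*} [Field K] [Algebra ℂ K] (a b v : K)
    (hind : AlgebraicIndependent ℂ ![a, b, v]) (O : Subring K) (hO : IsLocAt (G2 a b v) O)
    (hs : b * fs a b v ∈ O) : P1 a b v ≤ away O ⟨_, hs⟩ ∧
      ∀ z ∈ away O ⟨_, hs⟩, ∃ x ∈ P1 a b v, ∃ s ∈ P1 a b v, s ≠ 0 ∧ s⁻¹ ∈ away O ⟨_, hs⟩ ∧ z * s = x := by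
  obtain ⟨ha0, hb0, hv0, hfc0, hw00, hw10, hw30, hs0, ht0, hde0⟩ := nz a b v hind
  obtain ⟨hsG, hbsG, htG⟩ := psiE2 a b v hind
  obtain ⟨-, -, hsP, hbsP, hbe2P, hb2tP, hdeP, -⟩ := P1facts a b v hb0
  obtain ⟨hGO, -, hfr⟩ := hO
  have hS0 : b * fs a b v ≠ 0 := mul_ne_zero hb0 hs0
  have hcG : ∀ c : ℂ, algebraMap ℂ K c ∈ G2 a b v := fun c =>
    (Algebra.adjoin ℂ _).algebraMap_mem c
  have hw0G : fw0 a b v ∈ G2 a b v := Algebra.subset_adjoin (by simp)
  have hw1G : fw1 a b v ∈ G2 a b v := Algebra.subset_adjoin (by simp)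
  have hw3G : fw3 a b v ∈ G2 a b v := Algebra.subset_adjoin (by simp)
  have hdG : (fde a b v)⁻¹ ∈ G2 a b v := Algebra.subset_adjoin (by simp)
  have hOA : ∀ x ∈ O, x ∈ away O ⟨_, hs⟩ := fun x hx => ⟨0, by simpa using hx⟩
  have hSi : (b * fs a b v)⁻¹ ∈ away O ⟨_, hs⟩ := by
    refine ⟨1, ?_⟩
    show (b * fs a b v)⁻¹ * (b * fs a b v) ^ 1 ∈ O
    rw [pow_one, inv_mul_cancel₀ hS0]
    exact O.one_mem
  have hbi : b⁻¹ ∈ away O ⟨_, hs⟩ := by
    refine ⟨1, ?_⟩
    show b⁻¹ * (b * fs a b v) ^ 1 ∈ O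
    rw [pow_one, inv_mul_cancel_left₀ hb0]
    exact hGO hsG
  have hcP : ∀ c : ℂ, algebraMap ℂ K c ∈ P1 a b v := fun c =>
    (Algebra.adjoin ℂ _).algebraMap_mem c
  have hw0P : fw0 a b v ∈ P1 a b v := Algebra.subset_adjoin (by simp)
  have hw1P : fw1 a b v ∈ P1 a b v := Algebra.subset_adjoin (by simp)
  have hw3P : fw3 a b v ∈ P1 a b v := Algebra.subset_adjoin (by simp)
  constructor
  · refine adj_le_aux _ _ (fun c => hOA _ (hGO (hcG c))) ?_
    intro x hx
    simp only [Set.mem_insert_iff, Set.mem_singleton_iff] at hx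
    rcases hx with rfl | rfl | rfl | rfl | rfl
    · exact hbi
    · have e : a / b = -(fw0 a b v * b⁻¹) + -(fw1 a b v) := by
        rw [fw0]
        field_simp
        ring
      rw [e]
      exact Subring.add_mem _ (Subring.neg_mem _ (Subring.mul_mem _ (hOA _ (hGO hw0G)) hbi))
        (Subring.neg_mem _ (hOA _ (hGO hw1G)))
    · exact hOA _ (hGO hw0G)
    · exact hOA _ (hGO hw1G)
    · exact hOA _ (hGO hw3G)
  · have key : ∀ g ∈ G2 a b v, ∃ k l : ℕ,
        g * ((fde a b v) ^ k * (b * fs a b v) ^ l) ∈ P1 a b v := by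
      intro g hg
      refine Algebra.adjoin_induction (p := fun g _ => ∃ k l : ℕ,
        g * ((fde a b v) ^ k * (b * fs a b v) ^ l) ∈ P1 a b v) ?_ ?_ ?_ ?_
        (show g ∈ Algebra.adjoin ℂ _ from hg)
      · intro x hx
        simp only [Set.mem_union, Set.mem_insert_iff, Set.mem_singleton_iff] at hx
        rcases hx with (rfl | rfl | rfl | rfl | rfl | rfl) | rfl
        · exact ⟨0, 0, by simpa using hw0P⟩
        · exact ⟨0, 0, by simpa using hw1P⟩
        · exact ⟨0, 0, by simpa using hw3P⟩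
        · exact ⟨0, 0, by simpa using hbsP⟩
        · exact ⟨0, 0, by simpa using hbe2P⟩
        · refine ⟨1, 0, ?_⟩
          rw [pow_one, pow_zero, mul_one, inv_mul_cancel₀ hde0]
          exact Subring.one_mem _
        · refine ⟨0, 2, ?_⟩
          have e : ft a b v / fs a b v ^ 2 * ((fde a b v) ^ 0 * (b * fs a b v) ^ 2) =
              b ^ 2 * ft a b v := by
            field_simp
            try ring
          rw [e]
          exact hb2tP
      · intro r
        exact ⟨0, 0, by simpa using hcP r⟩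
      · rintro x y _ _ ⟨k, l, h1⟩ ⟨k', l', h2⟩
        refine ⟨k + k', l + l', ?_⟩
        have e : (x + y) * ((fde a b v) ^ (k + k') * (b * fs a b v) ^ (l + l')) =
            x * ((fde a b v) ^ k * (b * fs a b v) ^ l) * ((fde a b v) ^ k' * (b * fs a b v) ^ l') +
            y * ((fde a b v) ^ k' * (b * fs a b v) ^ l') * ((fde a b v) ^ k * (b * fs a b v) ^ l) := by
          ring
        rw [e]
        exact Subring.add_mem _
          (Subring.mul_mem _ h1 (Subring.mul_mem _ (Subring.pow_mem _ hdeP _) (Subring.pow_mem _ hbsP _)))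
          (Subring.mul_mem _ h2 (Subring.mul_mem _ (Subring.pow_mem _ hdeP _) (Subring.pow_mem _ hbsP _)))
      · rintro x y _ _ ⟨k, l, h1⟩ ⟨k', l', h2⟩
        refine ⟨k + k', l + l', ?_⟩
        have e : (x * y) * ((fde a b v) ^ (k + k') * (b * fs a b v) ^ (l + l')) =
            (x * ((fde a b v) ^ k * (b * fs a b v) ^ l)) *
            (y * ((fde a b v) ^ k' * (b * fs a b v) ^ l')) := by
          ring
        rw [e]
        exact Subring.mul_mem _ h1 h2
    rintro z ⟨n, hn⟩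
    have hn' : z * (b * fs a b v) ^ n ∈ O := hn
    obtain ⟨x, hx, y, hy, hy0, hyi, hxy⟩ := hfr _ hn'
    obtain ⟨k, l, h1⟩ := key x hx
    obtain ⟨k', l', h2⟩ := key y hy
    refine ⟨x * ((fde a b v) ^ k * (b * fs a b v) ^ l) * ((fde a b v) ^ k' * (b * fs a b v) ^ l'),
      Subring.mul_mem _ h1 (Subring.mul_mem _ (Subring.pow_mem _ hdeP _) (Subring.pow_mem _ hbsP _)),
      y * ((fde a b v) ^ k' * (b * fs a b v) ^ l') * ((b * fs a b v) ^ n *
        ((fde a b v) ^ k * (b * fs a b v) ^ l)),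
      Subring.mul_mem _ h2 (Subring.mul_mem _ (Subring.pow_mem _ hbsP _)
        (Subring.mul_mem _ (Subring.pow_mem _ hdeP _) (Subring.pow_mem _ hbsP _))), ?_, ?_, ?_⟩
    · exact mul_ne_zero (mul_ne_zero hy0 (mul_ne_zero (pow_ne_zero _ hde0) (pow_ne_zero _ hS0)))
        (mul_ne_zero (pow_ne_zero _ hS0) (mul_ne_zero (pow_ne_zero _ hde0) (pow_ne_zero _ hS0)))
    · rw [mul_inv, mul_inv, mul_inv, mul_inv, mul_inv, ← inv_pow, ← inv_pow, ← inv_pow, ← inv_pow,
        ← inv_pow]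
      have hdA : (fde a b v)⁻¹ ∈ away O ⟨_, hs⟩ := hOA _ (hGO hdG)
      have hyA : y⁻¹ ∈ away O ⟨_, hs⟩ := hOA _ hyi
      exact Subring.mul_mem _ (Subring.mul_mem _ hyA (Subring.mul_mem _ (Subring.pow_mem _ hdA _)
        (Subring.pow_mem _ hSi _))) (Subring.mul_mem _ (Subring.pow_mem _ hSi _)
        (Subring.mul_mem _ (Subring.pow_mem _ hdA _) (Subring.pow_mem _ hSi _)))
    · rw [← hxy]
      ring

end Pool.Agent.Helper447.D71
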