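import Pool.Agent.Helper447.D71.Defs
import Pool.Agent.Helper447.D71.P_loccop
import Pool.Agent.Helper447.D71.P_nz
import Pool.Agent.Helper447.D71.P_psiE2
import Pool.Agent.Helper447.D71.P_awayS
import Pool.Agent.Helper447.D71.P_awayT

set_option autoImplicit false

namespace Pool.Agent.Helper447.D71



theorem etaUnit_le {K : Type*} [Field K] (O : Subring K) (s : O) : O ≤ away O s := by
  intro z hz
  refine ⟨0, ?_⟩
  rw [pow_zero, mul_one]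
  exact hz

theorem etaUnit_inv {K : Type*} [Field K] (O : Subring K) (s : O) (hs : (s : K) ≠ 0) :
    (s : K)⁻¹ ∈ away O s := by
  refine ⟨1, ?_⟩
  rw [pow_one, inv_mul_cancel₀ hs]
  exact O.one_mem

theorem etaUnit {K : Type*} [Field K] [Algebra ℂ K] (a b v : K)
    (hind : AlgebraicIndependent ℂ ![a, b, v]) (O D : Subring K)
    (Ψ : D →+* PowerSeries (RatFunc ℂ)) (h : EtaO a b v O D Ψ) (n N : ℕ) (y : Fin n → K)
    (hy : Cop (PR a b v) y) (hN : Cop (P1 a b v) (fun j => y j * b⁻¹ ^ N)) (i : Fin n) (hi : y i ≠ 0)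
    (hij : ∀ j, y j / y i ∈ O) : N = 0 ∧ y i ∈ O ∧ (y i)⁻¹ ∈ O := by
  obtain ⟨-, hb0, -, -, -, -, -, hs0, -, -⟩ := nz a b v hind
  obtain ⟨g1, g2, -⟩ := psiE2 a b v hind
  have hsO : fs a b v ∈ O := h.loc.1 g1
  have hqO : b * fs a b v ∈ O := h.loc.1 g2
  have hq0 : b * fs a b v ≠ 0 := mul_ne_zero hb0 hs0
  obtain ⟨as1, as2⟩ := awayS a b v hind O h.loc hsO
  obtain ⟨at1, at2⟩ := awayT a b v hind O h.loc hqO
  have c1 := loccop y hy as1 as2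
  have c2 := loccop (fun j => y j * b⁻¹ ^ N) hN at1 at2
  have i1 : (y i)⁻¹ ∈ away O ⟨_, hsO⟩ := by
    refine c1.2 _ fun j => etaUnit_le O _ ?_
    rw [← div_eq_inv_mul]
    exact hij j
  have i2 : b ^ N / y i ∈ away O ⟨_, hqO⟩ := by
    refine c2.2 _ fun j => etaUnit_le O _ ?_
    have e : b ^ N / y i * (y j * b⁻¹ ^ N) = y j / y i := by
      rw [inv_pow]
      field_simp
    rw [e]
    exact hij j
  have u1 : y i * fs a b v ^ N ∈ away O ⟨_, hsO⟩ :=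
    (away O ⟨_, hsO⟩).mul_mem (as1 (hy.1 i)) ((away O ⟨_, hsO⟩).pow_mem (etaUnit_le O _ hsO) N)
  have u2 : y i * fs a b v ^ N ∈ away O ⟨_, hqO⟩ := by
    have e : y i * fs a b v ^ N = (y i * b⁻¹ ^ N) * (b * fs a b v) ^ N := by
      rw [mul_pow, inv_pow]
      field_simp
    rw [e]
    exact (away O ⟨_, hqO⟩).mul_mem (at1 (hN.1 i))
      ((away O ⟨_, hqO⟩).pow_mem (etaUnit_le O _ hqO) N)
  have w1 : (y i * fs a b v ^ N)⁻¹ ∈ away O ⟨_, hsO⟩ := by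
    rw [mul_inv, ← inv_pow]
    exact (away O ⟨_, hsO⟩).mul_mem i1
      ((away O ⟨_, hsO⟩).pow_mem (etaUnit_inv O ⟨_, hsO⟩ hs0) N)
  have w2 : (y i * fs a b v ^ N)⁻¹ ∈ away O ⟨_, hqO⟩ := by
    have e : (y i * fs a b v ^ N)⁻¹ = (b ^ N / y i) * ((b * fs a b v)⁻¹) ^ N := by
      rw [inv_pow, mul_pow]
      field_simp
    rw [e]
    exact (away O ⟨_, hqO⟩).mul_mem i2
      ((away O ⟨_, hqO⟩).pow_mem (etaUnit_inv O ⟨_, hqO⟩ hq0) N)
  have r1 : y i * fs a b v ^ N ∈ O := by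
    obtain ⟨n1, hn1⟩ := u1
    obtain ⟨n2, hn2⟩ := u2
    exact h.reg _ n1 n2 hn1 hn2
  have r2 : (y i * fs a b v ^ N)⁻¹ ∈ O := by
    obtain ⟨n1, hn1⟩ := w1
    obtain ⟨n2, hn2⟩ := w2
    exact h.reg _ n1 n2 hn1 hn2
  have hN0 : N = 0 := by
    by_contra hne
    obtain ⟨hsD, hcs⟩ := h.s0
    have hyD : y i ∈ D := h.PD (hy.1 i)
    have hD : y i * fs a b v ^ N ∈ D := h.OD r1
    have heq : (⟨y i * fs a b v ^ N, hD⟩ : D) = ⟨y i, hyD⟩ * ⟨fs a b v, hsD⟩ ^ N := by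
      apply Subtype.ext
      rfl
    have hcc : PowerSeries.constantCoeff (Ψ ⟨y i * fs a b v ^ N, hD⟩) = 0 := by
      rw [heq, map_mul, map_mul, map_pow, map_pow, hcs, zero_pow hne, mul_zero]
    obtain ⟨-, h1 | h1⟩ := (h.inM _ hD r1).2 hcc
    · exact mul_ne_zero hi (pow_ne_zero N hs0) h1
    · exact h1 r2
  refine ⟨hN0, ?_, ?_⟩
  · rw [hN0, pow_zero, mul_one] at r1
    exact r1
  · rw [hN0, pow_zero, mul_one] at r2
    exact r2

end Pool.Agent.Helper447.D71
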