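import Pool.Agent.Helper447.D71.Defs
import Pool.Agent.Helper447.D71.P_P1eq

set_option autoImplicit false

namespace Pool.Agent.Helper447.D71



/-- fractions of elements of a subalgebra -/
def genP1Q {K : Type*} [Field K] [Algebra ℂ K] (A : Subalgebra ℂ K) : Subalgebra ℂ K where
  carrier := {k | ∃ f ∈ A, ∃ g ∈ A, g ≠ 0 ∧ k * g = f}
  mul_mem' := by
    rintro k l ⟨f, hf, g, hg, hg0, e⟩ ⟨f', hf', g', hg', hg0', e'⟩
    refine ⟨f * f', A.mul_mem hf hf', g * g', A.mul_mem hg hg', mul_ne_zero hg0 hg0', ?_⟩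
    rw [← e, ← e']
    ring
  add_mem' := by
    rintro k l ⟨f, hf, g, hg, hg0, e⟩ ⟨f', hf', g', hg', hg0', e'⟩
    refine ⟨f * g' + f' * g, A.add_mem (A.mul_mem hf hg') (A.mul_mem hf' hg), g * g',
      A.mul_mem hg hg', mul_ne_zero hg0 hg0', ?_⟩
    rw [← e, ← e']
    ring
  algebraMap_mem' := by
    intro r
    exact ⟨algebraMap ℂ K r, A.algebraMap_mem r, 1, A.one_mem, one_ne_zero, mul_one _⟩

theorem genP1_le {K : Type*} [Field K] [Algebra ℂ K] (A : Subalgebra ℂ K) {k : K} (hk : k ∈ A) :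
    k ∈ genP1Q A := ⟨k, hk, 1, A.one_mem, one_ne_zero, mul_one _⟩

theorem genP1 {K : Type*} [Field K] [Algebra ℂ K] (a b v : K) (hb : b ≠ 0) (h : IsGen a b v) :
    IsGen b⁻¹ (a / b) (fu a b v) := by
  have hb1 : b⁻¹ ∈ Algebra.adjoin ℂ ({b⁻¹, a / b, fu a b v} : Set K) :=
    Algebra.subset_adjoin (by simp)
  have hab1 : a / b ∈ Algebra.adjoin ℂ ({b⁻¹, a / b, fu a b v} : Set K) :=
    Algebra.subset_adjoin (by simp)
  have hP : ∀ w : K, w ∈ P1 a b v → w ∈ Algebra.adjoin ℂ ({b⁻¹, a / b, fu a b v} : Set K) := by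
    intro w hw
    rw [P1eq a b v hb] at hw
    exact hw
  have hw1 : fw1 a b v ∈ Algebra.adjoin ℂ ({b⁻¹, a / b, fu a b v} : Set K) := by
    apply hP
    exact Algebra.subset_adjoin (by simp)
  have hw3 : fw3 a b v ∈ Algebra.adjoin ℂ ({b⁻¹, a / b, fu a b v} : Set K) := by
    apply hP
    exact Algebra.subset_adjoin (by simp)
  have hbQ : b ∈ genP1Q (Algebra.adjoin ℂ ({b⁻¹, a / b, fu a b v} : Set K)) :=
    ⟨1, one_mem _, b⁻¹, hb1, inv_ne_zero hb, mul_inv_cancel₀ hb⟩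
  have haQ : a ∈ genP1Q (Algebra.adjoin ℂ ({b⁻¹, a / b, fu a b v} : Set K)) :=
    ⟨a / b, hab1, b⁻¹, hb1, inv_ne_zero hb, (div_eq_mul_inv a b).symm⟩
  have hvQ : v ∈ genP1Q (Algebra.adjoin ℂ ({b⁻¹, a / b, fu a b v} : Set K)) := by
    have e : fw3 a b v + a * fw1 a b v = v := by
      unfold fw3
      ring
    have h1 := add_mem (genP1_le _ hw3) (mul_mem haQ (genP1_le _ hw1))
    rwa [e] at h1
  have hle : Algebra.adjoin ℂ ({a, b, v} : Set K) ≤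
      genP1Q (Algebra.adjoin ℂ ({b⁻¹, a / b, fu a b v} : Set K)) := by
    rw [Algebra.adjoin_le_iff]
    rintro x (rfl | rfl | rfl)
    · exact haQ
    · exact hbQ
    · exact hvQ
  intro k
  obtain ⟨f, hf, g, hg, hg0, e⟩ := h k
  obtain ⟨f1, hf1, f2, hf2, hf20, e1⟩ := hle (show f ∈ Algebra.adjoin ℂ ({a, b, v} : Set K) from hf)
  obtain ⟨g1, hg1, g2, hg2, hg20, e2⟩ := hle (show g ∈ Algebra.adjoin ℂ ({a, b, v} : Set K) from hg)
  have hg10 : g1 ≠ 0 := by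
    rw [← e2]
    exact mul_ne_zero hg0 hg20
  refine ⟨f1 * g2, mul_mem (S := Subalgebra ℂ K) hf1 hg2, f2 * g1,
    mul_mem (S := Subalgebra ℂ K) hf2 hg1, mul_ne_zero hf20 hg10, ?_⟩
  rw [← e1, ← e2, ← e]
  ring

end Pool.Agent.Helper447.D71
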