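import Pool.Agent.Helper447.D71.Defs
import Pool.Agent.Helper447.D71.P_flip
import Pool.Agent.Helper447.D71.P_alg3
import Pool.Agent.Helper447.D71.P_prime1
import Pool.Agent.Helper447.D71.P_P1eq
import Pool.Agent.Helper447.D71.P_genP1
import Pool.Agent.Helper447.D71.P_nz
import Pool.Agent.Helper447.D71.P_P1facts

set_option autoImplicit false

namespace Pool.Agent.Helper447.D71



theorem flipP {K : Type*} [Field K] [Algebra ℂ K] (hK : Algebra.trdeg ℂ K = 3) (a b v : K)
    (hind : AlgebraicIndependent ℂ ![a, b, v]) (hgen : IsGen a b v) {n : ℕ} (y : Fin n → K)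
    (hy : Cop (PR a b v) y) (hn : ¬ ∀ j, b * y j ∈ P1 a b v) :
    ∃ N : ℕ, Cop (P1 a b v) (fun j => y j * b⁻¹ ^ N) := by
  have hb : b ≠ 0 := (nz a b v hind).2.1
  obtain ⟨f1, f2, -⟩ := P1facts a b v hb
  have hE : P1 a b v = PR b⁻¹ (a / b) (fu a b v) := P1eq a b v hb
  have hI : AlgebraicIndependent ℂ ![b⁻¹, a / b, fu a b v] := alg3 hK _ _ _ (genP1 a b v hb hgen)
  have hp := prime1 _ _ _ hI
  rw [← hE, inv_inv] at hp
  have hbi : b⁻¹ ∈ P1 a b v := by
    apply Algebra.subset_adjoin; simp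
  have hbR : b ∈ PR a b v := by
    apply Algebra.subset_adjoin; simp
  have hex : ∃ N, ∀ j, y j * b⁻¹ ^ N ∈ P1 a b v := by
    choose k hk using fun j => f1 (y j) (hy.1 j)
    refine ⟨∑ j, k j, fun j => ?_⟩
    have hle : k j ≤ ∑ j, k j :=
      Finset.single_le_sum (f := k) (fun _ _ => Nat.zero_le _) (Finset.mem_univ j)
    obtain ⟨d, hd⟩ := Nat.exists_eq_add_of_le hle
    rw [hd, pow_add, ← mul_assoc]
    exact (P1 a b v).mul_mem (hk j) ((P1 a b v).pow_mem hbi _)
  classical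
  refine ⟨Nat.find hex, flip y b hb hbR hbi hp f1 f2 hy _ (Nat.find_spec hex) ?_⟩
  by_contra hc
  push Not at hc
  rcases Nat.eq_zero_or_pos (Nat.find hex) with h0 | h0
  · apply hn
    intro j
    have := hc j
    rw [h0] at this
    simpa using this
  · obtain ⟨m, hm⟩ := Nat.exists_eq_succ_of_ne_zero h0.ne'
    have := Nat.find_min hex (m := m) (by omega)
    apply this
    intro j
    have h3 := hc j
    rw [hm, pow_succ] at h3
    have h4 : b * (y j * (b⁻¹ ^ m * b⁻¹)) = y j * b⁻¹ ^ m := by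
      have : b * (y j * (b⁻¹ ^ m * b⁻¹)) = y j * b⁻¹ ^ m * (b * b⁻¹) := by ring
      rw [this, mul_inv_cancel₀ hb, mul_one]
    rwa [h4] at h3

end Pool.Agent.Helper447.D71
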