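import Pool.Agent.Helper447.D71.Defs

set_option autoImplicit false

namespace Pool.Agent.Helper447.D71



theorem ufdV {K : Type*} [Field K] [Algebra ℂ K] (x y z : K)
    (hind : AlgebraicIndependent ℂ ![x, y, z]) :
    UniqueFactorizationMonoid (PR x y z) ∧ IsNoetherianRing (PR x y z) := by
  have hr : Set.range ![x, y, z] = ({x, y, z} : Set K) := by
    ext w
    simp only [Set.mem_range, Set.mem_insert_iff, Set.mem_singleton_iff]
    constructor
    · rintro ⟨i, rfl⟩
      fin_cases i <;> simp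
    · rintro (rfl | rfl | rfl)
      · exact ⟨0, rfl⟩
      · exact ⟨1, rfl⟩
      · exact ⟨2, rfl⟩
  have e : Nonempty (MvPolynomial (Fin 3) ℂ ≃+* PR x y z) := by
    unfold PR
    rw [← hr]
    exact ⟨hind.aevalEquiv.toRingEquiv⟩
  obtain ⟨e⟩ := e
  exact ⟨e.toMulEquiv.uniqueFactorizationMonoid inferInstance,
    isNoetherianRing_of_ringEquiv _ e⟩

end Pool.Agent.Helper447.D71
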