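import Pool.Agent.Helper447.D71.Defs
import Pool.Agent.Helper447.D71.P_cop_exists
import Pool.Agent.Helper447.D71.P_etaMain
import Pool.Agent.Helper447.D71.P_etaBMain
import Pool.Agent.Helper447.D71.P_ufdV

set_option autoImplicit false

namespace Pool.Agent.Helper447.D71



theorem numeric_frac {K : Type*} [Field K] (R : Subring K)
    (hgen : ∀ k : K, ∃ f ∈ R, ∃ g ∈ R, g ≠ 0 ∧ k * g = f) : IsFractionRing R K := by
  refine ⟨?_, ?_, ?_⟩
  · intro y
    have hy : (y : R) ≠ 0 := nonZeroDivisors.ne_zero y.2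
    exact isUnit_iff_ne_zero.2 (fun h => hy (Subtype.ext h))
  · intro k
    obtain ⟨f, hf, g, hg, hg0, h⟩ := hgen k
    refine ⟨(⟨f, hf⟩, ⟨⟨g, hg⟩, mem_nonZeroDivisors_of_ne_zero (fun h0 => hg0 ?_)⟩), h⟩
    exact congrArg Subtype.val h0
  · intro x y h
    have hxy : x = y := Subtype.ext h
    exact ⟨1, by rw [hxy]⟩

theorem numeric {K : Type*} [Field K] [Algebra ℂ K] (hK : Algebra.trdeg ℂ K = 3) (a b v : K)
    (hind : AlgebraicIndependent ℂ ![a, b, v]) (hgen : IsGen a b v) :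
    ∃ O : Subring K, IsLocAt (G2 a b v) O ∧
      ∀ (OB : Subring K) (ψ : OB →+* AlgebraicClosure (RatFunc ℂ)), EtaB a b v OB ψ →
      ∀ (n : ℕ) (y : Fin n → K) (i i' : Fin n), y i ≠ 0 → (∀ j, y j / y i ∈ O) →
      (∀ z ∈ O, ∃ x ∈ Algebra.adjoin ℂ (Set.range fun j => y j / y i),
        ∃ s ∈ Algebra.adjoin ℂ (Set.range fun j => y j / y i), s ≠ 0 ∧ s⁻¹ ∈ O ∧ z * s = x) →
      y i' ≠ 0 → (∀ j, y j / y i' ∈ OB) → False := by
  obtain ⟨O, hO, h⟩ := etaMain hK a b v hind hgen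
  refine ⟨O, hO, ?_⟩
  intro OB ψ hE n y i i' hyi hyO hyg hyi' hyOB
  haveI := (ufdV a b v hind).1
  haveI := numeric_frac (PR a b v) hgen
  obtain ⟨c, hc, hcop⟩ := cop_exists (R := PR a b v) y ⟨i, hyi⟩
  have hr : (algebraMap (PR a b v) K).range = PR a b v := Subring.range_subtype (PR a b v)
  rw [hr] at hcop
  have hrat : ∀ i, (fun j => c * y j / (c * y i)) = fun j => y j / y i := by
    intro i
    funext j
    exact mul_div_mul_left _ _ hc
  have hP := h n (fun j => c * y j) i hcop (mul_ne_zero hc hyi)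
    (fun j => by
      show c * y j / (c * y i) ∈ O
      rw [mul_div_mul_left _ _ hc]
      exact hyO j)
    (by
      show ∀ z ∈ O, ∃ x ∈ Algebra.adjoin ℂ (Set.range fun j => c * y j / (c * y i)),
        ∃ s ∈ Algebra.adjoin ℂ (Set.range fun j => c * y j / (c * y i)), s ≠ 0 ∧ s⁻¹ ∈ O ∧
          z * s = x
      rw [hrat i]
      exact hyg)
  exact etaBMain hK a b v hind hgen OB ψ hE n (fun j => c * y j) i' hcop (mul_ne_zero hc hyi')
    (fun j => by
      show c * y j / (c * y i') ∈ OB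
      rw [mul_div_mul_left _ _ hc]
      exact hyOB j) hP

end Pool.Agent.Helper447.D71
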