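import Pool.Agent.Helper447.D71.Defs

set_option autoImplicit false

namespace Pool.Agent.Helper447.D71

section
variable {F : Type*} [CommRing F] (a b v : F)

theorem id_q : fq1 a b - b * fq0 a b - 1 - a * fc a b = 0 := by
  simp only [fq1, fq0, fc]; ring

theorem rel1 : fw0 a b v + b * fw1 a b v + a = 0 := by
  simp only [fw0]; ring

theorem rel2 : fq0 a b * fw0 a b v + fq1 a b * fw1 a b v + fc a b * fw3 a b v = 0 := by
  simp only [fw0, fw3]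
  have h := id_q a b
  have : fq1 a b = b * fq0 a b + 1 + a * fc a b := by linear_combination h
  rw [this]; simp only [fw1]; ring

theorem cubic (w0 w1 w3 : F) :
    (b ^ 2 * (4 * (-w0 - b * w1) + 1)) * w0 + (1 + 3 * (-w0 - b * w1) ^ 3 + (-w0 - b * w1) + b ^ 3) * w1
      + (3 * (-w0 - b * w1) ^ 2 - 4 * b ^ 3 + 1) * w3
    = fA0 w0 w1 w3 + fA1 w0 w1 w3 * b + fA2 w0 w1 w3 * b ^ 2 + fA3 w0 w1 w3 * b ^ 3 := by
  simp only [fA0, fA1, fA2, fA3, fm, fkap]; ring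

theorem cub0 : fA0 (fw0 a b v) (fw1 a b v) (fw3 a b v) + fA1 (fw0 a b v) (fw1 a b v) (fw3 a b v) * b
    + fA2 (fw0 a b v) (fw1 a b v) (fw3 a b v) * b ^ 2 + fA3 (fw0 a b v) (fw1 a b v) (fw3 a b v) * b ^ 3 = 0 := by
  rw [← cubic]
  have h1 : -fw0 a b v - b * fw1 a b v = a := by linear_combination - rel1 a b v
  rw [h1]
  have := rel2 a b v
  simp only [fq0, fq1, fc] at this
  linear_combination this

theorem syz (w0 w1 w3 : F) : (-4 * fm w0 w1 w3) * fA0 w0 w1 w3 + fDl w0 w1 * fA1 w0 w1 w3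
    + (-fm w0 w1 w3 * (1 + 3 * w0 ^ 2)) * fA3 w0 w1 w3 = 0 := by
  simp only [fA0, fA1, fA3, fm, fDl]; ring

theorem w1Dl (w0 w1 w3 : F) : w1 * fDl w0 w1 = (1 + 3 * w0 ^ 2) * fA3 w0 w1 w3 + 4 * fA0 w0 w1 w3 := by
  simp only [fA0, fA3, fDl]; ring

theorem w3Dl (w0 w1 w3 : F) : w3 * fDl w0 w1 = (1 - 4 * w0 - 3 * w1 ^ 3) * fA0 w0 w1 w3
    - (1 - w0 - 3 * w0 ^ 3) * fA3 w0 w1 w3 := by
  simp only [fA0, fA3, fDl]; ring
end

end Pool.Agent.Helper447.D71
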