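import Pool.Agent.Helper447.D71.Defs

set_option autoImplicit false

namespace Pool.Agent.Helper447.D71



theorem notrat_alg (y : RatFunc ℂ) (h : y ^ 3 = 1) : ∃ c : ℂ, y = RatFunc.C c := by
  have hint : IsIntegral ℂ y := by
    refine ⟨Polynomial.X ^ 3 - Polynomial.C 1, Polynomial.monic_X_pow_sub_C 1 (by norm_num), ?_⟩
    simp [h]
  have hirr := minpoly.irreducible hint
  have hdeg := IsAlgClosed.degree_eq_one_of_irreducible ℂ hirr
  obtain ⟨c, hc⟩ := minpoly.mem_range_of_degree_eq_one ℂ y hdeg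
  refine ⟨c, ?_⟩
  rw [← hc, RatFunc.algebraMap_eq_C]

theorem notrat_four : (4 : RatFunc ℂ) ≠ 0 := by
  have h : (4 : RatFunc ℂ) = RatFunc.C 4 := (map_ofNat RatFunc.C 4).symm
  rw [h, Ne, map_eq_zero]
  norm_num

theorem notrat (x y : RatFunc ℂ) (hc : fc x y = 0) : ∃ c : ℂ, y = RatFunc.C c := by
  obtain ⟨p, r, hr, rfl⟩ := IsFractionRing.div_surjective (A := Polynomial ℂ) x
  obtain ⟨q, s, hs, rfl⟩ := IsFractionRing.div_surjective (A := Polynomial ℂ) y
  have hr0 : r ≠ 0 := nonZeroDivisors.ne_zero hr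
  have hs0 : s ≠ 0 := nonZeroDivisors.ne_zero hs
  have hinj : Function.Injective (algebraMap (Polynomial ℂ) (RatFunc ℂ)) :=
    IsFractionRing.injective _ _
  set φ := algebraMap (Polynomial ℂ) (RatFunc ℂ) with hφ
  have hφr : φ r ≠ 0 := fun h => hr0 (hinj (h.trans (map_zero _).symm))
  have hφs : φ s ≠ 0 := fun h => hs0 (hinj (h.trans (map_zero _).symm))
  have hpoly : 3 * (p * s) ^ 2 * (r * s) - 4 * (q * r) ^ 3 + (r * s) ^ 3 = 0 := by
    apply hinj
    rw [map_zero]
    unfold fc at hc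
    simp only [map_add, map_sub, map_mul, map_pow, map_ofNat]
    have h1 : (3 * (φ p / φ r) ^ 2 - 4 * (φ q / φ s) ^ 3 + 1) * (φ r * φ s) ^ 3 = 0 := by
      rw [hc, zero_mul]
    rw [← h1]
    field_simp
  have hFLT : (r * s + p * s) ^ 3 + (r * s - p * s) ^ 3 = (2 * (q * r)) ^ 3 := by
    linear_combination 2 * hpoly
  by_cases hq0 : q = 0
  · refine ⟨0, ?_⟩
    rw [hq0, map_zero, zero_div, map_zero]
  by_cases hA : r * s + p * s = 0
  · apply notrat_alg
    have hp : p = -r := by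
      have h2 : s * (p + r) = 0 := by linear_combination hA
      rcases mul_eq_zero.1 h2 with h3 | h3
      · exact absurd h3 hs0
      · linear_combination h3
    have hx : φ p / φ r = -1 := by rw [hp, map_neg]; field_simp
    unfold fc at hc
    rw [hx] at hc
    have h4 : (4 : RatFunc ℂ) * ((φ q / φ s) ^ 3 - 1) = 0 := by linear_combination -hc
    rcases mul_eq_zero.1 h4 with h5 | h5
    · exact absurd h5 notrat_four
    · exact sub_eq_zero.1 h5
  by_cases hB : r * s - p * s = 0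
  · apply notrat_alg
    have hp : p = r := by
      have h2 : s * (r - p) = 0 := by linear_combination hB
      rcases mul_eq_zero.1 h2 with h3 | h3
      · exact absurd h3 hs0
      · linear_combination -h3
    have hx : φ p / φ r = 1 := by rw [hp]; field_simp
    unfold fc at hc
    rw [hx] at hc
    have h4 : (4 : RatFunc ℂ) * ((φ q / φ s) ^ 3 - 1) = 0 := by linear_combination -hc
    rcases mul_eq_zero.1 h4 with h5 | h5
    · exact absurd h5 notrat_four
    · exact sub_eq_zero.1 h5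
  have hC : 2 * (q * r) ≠ 0 := mul_ne_zero two_ne_zero (mul_ne_zero hq0 hr0)
  obtain ⟨d, a', b', c', ⟨ha, hb, hcc⟩, hua, hub, huc⟩ :=
    fermatLastTheoremWith'_polynomial (k := ℂ) (n := 3) le_rfl (by norm_num) _ _ _ hA hB hC hFLT
  obtain ⟨α, hα, rfl⟩ := Polynomial.isUnit_iff.1 hua
  obtain ⟨β, hβ, rfl⟩ := Polynomial.isUnit_iff.1 hub
  obtain ⟨γ, hγ, rfl⟩ := Polynomial.isUnit_iff.1 huc
  have h2rs : 2 * (r * s) = Polynomial.C (α + β) * d := by
    rw [Polynomial.C_add]
    linear_combination ha + hb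
  have hαβ : α + β ≠ 0 := by
    intro h
    rw [h, Polynomial.C_0, zero_mul] at h2rs
    exact (mul_ne_zero two_ne_zero (mul_ne_zero hr0 hs0)) h2rs
  have hd0 : d ≠ 0 := by
    intro h
    rw [h, mul_zero] at h2rs
    exact (mul_ne_zero two_ne_zero (mul_ne_zero hr0 hs0)) h2rs
  have hkey : q * Polynomial.C (α + β) = Polynomial.C γ * s := by
    have h3 : (2 * r) * (q * Polynomial.C (α + β)) = (2 * r) * (Polynomial.C γ * s) := by
      linear_combination Polynomial.C (α + β) * hcc - Polynomial.C γ * h2rs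
    exact mul_left_cancel₀ (mul_ne_zero two_ne_zero hr0) h3
  refine ⟨γ / (α + β), ?_⟩
  have hkey2 := congrArg φ hkey
  rw [map_mul, map_mul, hφ, RatFunc.algebraMap_C, RatFunc.algebraMap_C] at hkey2
  rw [map_div₀]
  have hCn : (RatFunc.C (α + β) : RatFunc ℂ) ≠ 0 := by
    rw [Ne, map_eq_zero]
    exact hαβ
  rw [div_eq_div_iff hφs hCn]
  exact hkey2

end Pool.Agent.Helper447.D71
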