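import Pool.Agent.Helper447.D71.Defs
import Pool.Agent.Helper447.D71.P_notrat

set_option autoImplicit false

namespace Pool.Agent.Helper447.D71



theorem nonrat {K : Type*} [Field K] [Algebra ℂ K] (a b v : K)
    (O : Subring K) {F : Type*} [Field F] [Algebra ℂ F] (ψ : O →+* F) (h : EtaB a b v O ψ)
    (χ : O →+* RatFunc ℂ) (hχ : ∀ (c : ℂ) (h : algebraMap ℂ K c ∈ O), χ ⟨_, h⟩ = RatFunc.C c)
    (hker : ∀ z : O, χ z = 0 ↔ InM O z) : False := by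
  obtain ⟨ha, hb, hf, ht⟩ := h.hab
  have h1 : ψ (fc (⟨a, ha⟩ : O) ⟨b, hb⟩) = 0 := by
    unfold fc
    simp only [map_sub, map_add, map_mul, map_pow, map_one, map_ofNat]
    exact hf
  have h2 : χ (fc (⟨a, ha⟩ : O) ⟨b, hb⟩) = 0 := (hker _).mpr ((h.inM _).mpr h1)
  have h3 : fc (χ ⟨a, ha⟩) (χ ⟨b, hb⟩) = 0 := by
    unfold fc at h2 ⊢
    simpa only [map_sub, map_add, map_mul, map_pow, map_one, map_ofNat] using h2
  obtain ⟨c, hc⟩ := notrat _ _ h3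
  obtain ⟨hcO, hcψ⟩ := h.hc c
  have h4 : χ (⟨b, hb⟩ - ⟨algebraMap ℂ K c, hcO⟩) = 0 := by
    rw [map_sub, hc, hχ c hcO, sub_self]
  have h5 : ψ (⟨b, hb⟩ - ⟨algebraMap ℂ K c, hcO⟩) = 0 := (h.inM _).mp ((hker _).mp h4)
  rw [map_sub, hcψ, sub_eq_zero] at h5
  apply ht
  rw [h5]
  exact isAlgebraic_algebraMap c

end Pool.Agent.Helper447.D71
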