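import Pool.Agent.Helper447.D71.Defs

set_option autoImplicit false

namespace Pool.Agent.Helper447.D71



theorem primeloc_unit {K : Type*} [Field K] (O : Subring K) (u : O) (hu : IsUnit u) :
    (u : K)⁻¹ ∈ O := by
  obtain ⟨w, hw⟩ := hu.exists_right_inv
  have h1 : (u : K) * (w : K) = 1 := by
    have := congrArg (Subtype.val) hw
    simpa using this
  rw [inv_eq_of_mul_eq_one_right h1]
  exact w.2

theorem primeloc {K : Type*} [Field K] (A : Subring K) (P : Ideal A) [P.IsPrime] :
    IsLocAt A (LocalSubring.ofPrime A P).toSubring := by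
  refine ⟨LocalSubring.le_ofPrime A P, ?_, ?_⟩
  · intro x hx
    haveI : IsLocalRing (LocalSubring.ofPrime A P).toSubring :=
      (LocalSubring.ofPrime A P).isLocalRing
    rcases IsLocalRing.isUnit_or_isUnit_one_sub_self
      (⟨x, hx⟩ : (LocalSubring.ofPrime A P).toSubring) with h | h
    · exact Or.inl (primeloc_unit _ _ h)
    · exact Or.inr (primeloc_unit _ _ h)
  · intro z hz
    obtain ⟨⟨x, s⟩, h⟩ := IsLocalization.surj P.primeCompl
      (⟨z, hz⟩ : (LocalSubring.ofPrime A P).toSubring)
    refine ⟨(x : K), x.2, (s.1 : K), s.1.2, ?_, ?_, ?_⟩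
    · intro h0
      have h1 : s.1 = 0 := Subtype.ext h0
      exact s.2 (by rw [h1]; exact P.zero_mem)
    · have hu := IsLocalization.map_units (M := P.primeCompl)
        (LocalSubring.ofPrime A P).toSubring s
      exact primeloc_unit _ _ hu
    · have := congrArg (Subtype.val) h
      exact this

end Pool.Agent.Helper447.D71
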