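import Pool.Agent.Helper447.D71.Defs

set_option autoImplicit false

namespace Pool.Agent.Helper447.D71



theorem trdegB {K : Type} [Field K] [Algebra ℂ K] (a b v : K) (hv : v ≠ 0)
    (O : Subalgebra ℂ K) [IsLocalRing O] {F : Type} [Field F] [Algebra ℂ F] (ψ : O.toSubring →+* F)
    (h : EtaB a b v O.toSubring ψ) : Algebra.trdeg ℂ (IsLocalRing.ResidueField O) = 1 := by
  classical
  set ρ : O →ₐ[ℂ] IsLocalRing.ResidueField O :=
    IsScalarTower.toAlgHom ℂ O (IsLocalRing.ResidueField O) with hρ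
  set f : O →ₐ[ℂ] F :=
    { toFun := fun z => ψ ⟨z.1, z.2⟩
      map_one' := ψ.map_one
      map_mul' := fun x y => ψ.map_mul ⟨x.1, x.2⟩ ⟨y.1, y.2⟩
      map_zero' := ψ.map_zero
      map_add' := fun x y => ψ.map_add ⟨x.1, x.2⟩ ⟨y.1, y.2⟩
      commutes' := fun c => (h.hc c).choose_spec } with hf
  obtain ⟨ha, hb, hfc, htr⟩ := h.hab
  obtain ⟨hvO, hv0⟩ := h.hv
  have hunit : ∀ z : O, IsUnit z ↔ ((z : K) ≠ 0 ∧ (z : K)⁻¹ ∈ O) := by
    intro z
    constructor
    · intro hz
      obtain ⟨w, hw⟩ := hz.exists_right_inv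
      have hw' : (z : K) * (w : K) = 1 := congrArg Subtype.val hw
      have hz0 : (z : K) ≠ 0 := left_ne_zero_of_mul_eq_one hw'
      refine ⟨hz0, ?_⟩
      rw [← eq_inv_of_mul_eq_one_right hw']
      exact w.2
    · rintro ⟨hz0, hz⟩
      apply IsUnit.of_mul_eq_one (⟨(z : K)⁻¹, hz⟩ : O)
      exact Subtype.ext (mul_inv_cancel₀ hz0)
  have hker : ∀ z : O, ρ z = 0 ↔ f z = 0 := by
    intro z
    have h1 : ρ z = 0 ↔ ¬ IsUnit z := by
      have : ρ z = IsLocalRing.residue O z := rfl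
      rw [this, IsLocalRing.residue_eq_zero_iff, IsLocalRing.mem_maximalIdeal]
      rfl
    have h2 : InM O.toSubring (z : K) ↔ f z = 0 := h.inM ⟨z.1, z.2⟩
    rw [h1, ← h2, hunit]
    unfold InM
    constructor
    · intro h3
      refine ⟨z.2, ?_⟩
      by_contra h4
      push Not at h4
      exact h3 h4
    · rintro ⟨_, h3⟩ ⟨h4, h5⟩
      rcases h3 with h3 | h3
      · exact h4 h3
      · exact h3 h5
  set b' : O := ⟨b, hb⟩ with hb'
  set a' : O := ⟨a, ha⟩ with ha'
  have htrb : Transcendental ℂ (ρ b') := by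
    intro halg
    obtain ⟨p, hp, hp0⟩ := halg
    rw [Polynomial.aeval_algHom_apply, hker, ← Polynomial.aeval_algHom_apply] at hp0
    exact htr ⟨p, hp, hp0⟩
  -- the algebraic part
  set x : Unit → IsLocalRing.ResidueField O := fun _ => ρ b' with hx
  set A0 := Algebra.adjoin ℂ (Set.range x) with hA0
  have hbmem : ρ b' ∈ A0 := Algebra.subset_adjoin ⟨(), rfl⟩
  have halga : IsAlgebraic A0 (ρ a') := by
    have h1 : fc (ρ a') (ρ b') = 0 := by
      have h2 : f (3 * a' ^ 2 - 4 * b' ^ 3 + 1) = 0 := by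
        rw [map_add, map_sub, map_mul, map_mul, map_pow, map_pow, map_one, map_ofNat, map_ofNat]
        exact hfc
      have h3 := (hker _).2 h2
      rw [map_add, map_sub, map_mul, map_mul, map_pow, map_pow, map_one, map_ofNat, map_ofNat] at h3
      exact h3
    have h4 : (ρ a') ^ 2 = algebraMap A0 (IsLocalRing.ResidueField O)
        (algebraMap ℂ A0 (1 / 3) * (4 * (⟨ρ b', hbmem⟩ : A0) ^ 3 - 1)) := by
      rw [map_mul, map_sub, map_mul, map_pow, map_one, map_ofNat,
        ← IsScalarTower.algebraMap_apply ℂ A0 (IsLocalRing.ResidueField O)]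
      have h5 : (algebraMap A0 (IsLocalRing.ResidueField O)) ⟨ρ b', hbmem⟩ = ρ b' := rfl
      rw [h5]
      have h6 : (3 : IsLocalRing.ResidueField O) *
          algebraMap ℂ (IsLocalRing.ResidueField O) (1 / 3) = 1 := by
        rw [← map_ofNat (algebraMap ℂ (IsLocalRing.ResidueField O)) 3, ← map_mul]
        norm_num
      unfold fc at h1
      have h7 : 4 * (ρ b') ^ 3 - 1 = 3 * (ρ a') ^ 2 := by linear_combination (-1) * h1
      rw [h7]
      calc (ρ a') ^ 2 = (3 * algebraMap ℂ (IsLocalRing.ResidueField O) (1 / 3)) * (ρ a') ^ 2 := by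
            rw [h6, one_mul]
        _ = _ := by ring
    have h8 : IsAlgebraic A0 ((ρ a') ^ 2) := by
      rw [h4]
      exact isAlgebraic_algebraMap _
    exact h8.of_pow two_pos
  have hPR : ∀ x ∈ Algebra.adjoin ℂ ({v⁻¹, a, b} : Set K), x ∈ O := fun x hx => h.loc.1 hx
  have hadj : ∀ (z : K) (hz : z ∈ Algebra.adjoin ℂ ({v⁻¹, a, b} : Set K)),
      IsAlgebraic A0 (ρ ⟨z, hPR z hz⟩) := by
    intro z hz
    induction hz using Algebra.adjoin_induction with
    | mem y hy =>
      simp only [Set.mem_insert_iff, Set.mem_singleton_iff] at hy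
      rcases hy with rfl | rfl | rfl
      · have : ρ ⟨v⁻¹, hvO⟩ = 0 := (hker _).2 hv0
        rw [this]
        exact isAlgebraic_zero
      · exact halga
      · exact isAlgebraic_algebraMap (⟨ρ b', hbmem⟩ : A0)
    | algebraMap c =>
      have : ρ ⟨algebraMap ℂ K c, hPR _ (Subalgebra.algebraMap_mem _ c)⟩ =
          algebraMap A0 (IsLocalRing.ResidueField O) (algebraMap ℂ A0 c) := by
        rw [← IsScalarTower.algebraMap_apply ℂ A0 (IsLocalRing.ResidueField O)]
        exact ρ.commutes c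
      rw [this]
      exact isAlgebraic_algebraMap _
    | add y z hy hz h1 h2 => exact h1.add h2
    | mul y z hy hz h1 h2 => exact h1.mul h2
  have halg : Algebra.IsAlgebraic A0 (IsLocalRing.ResidueField O) := by
    constructor
    intro k
    obtain ⟨z, rfl⟩ := IsLocalRing.residue_surjective k
    obtain ⟨y, hy, s, hs, hs0, hsi, hzs⟩ := h.loc.2.2 z.1 z.2
    have hsO : s ∈ O := hPR s hs
    have hsu : IsUnit (⟨s, hsO⟩ : O) := (hunit _).2 ⟨hs0, hsi⟩
    have hρs : ρ ⟨s, hsO⟩ ≠ 0 := (hsu.map ρ).ne_zero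
    have h1 : ρ z * ρ ⟨s, hsO⟩ = ρ ⟨y, hPR y hy⟩ := by
      rw [← map_mul]
      congr 1
      exact Subtype.ext hzs
    have h2 : ρ z = ρ ⟨y, hPR y hy⟩ * (ρ ⟨s, hsO⟩)⁻¹ := by
      rw [← h1, mul_assoc, mul_inv_cancel₀ hρs, mul_one]
    have h3 : IsAlgebraic A0 (ρ z) := by
      rw [h2]
      exact (hadj y hy).mul (hadj s hs).inv
    exact h3
  have hind : AlgebraicIndependent ℂ x := by
    rw [algebraicIndependent_unique_type_iff]
    exact htrb
  have hbasis : IsTranscendenceBasis ℂ x :=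
    isTranscendenceBasis_iff_algebraicIndependent_isAlgebraic.2 ⟨hind, halg⟩
  rw [← hbasis.cardinalMk_eq_trdeg]
  simp

end Pool.Agent.Helper447.D71
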